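import Pool.Agent.NH65.PL.Stm

/-!
# Project PL: Binet's formula and the Gamma quotient (`S_BIN`)
-/

set_option autoImplicit false

noncomputable section

namespace Pool.Agent.NH65.PL.Bin

open Pool.Agent.NH65.PL Real Set MeasureTheory Filter Topology

theorem exp_sub_pos {t : ℝ} (ht : 0 < t) : 0 < Real.exp t - 1 := by
  have := Real.add_one_lt_exp ht.ne'
  linarith

theorem bb_nonneg {t : ℝ} (ht : 0 < t) : 0 ≤ bb t := by
  have h1 : 0 < Real.exp t - 1 := exp_sub_pos ht
  -- φ(t) = 2 + t - (2 - t) e^t ≥ 0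
  have key : 0 ≤ 2 + t - (2 - t) * Real.exp t := by
    have hmono : MonotoneOn (fun s : ℝ => 2 + s - (2 - s) * Real.exp s) (Ici 0) := by
      apply monotoneOn_of_deriv_nonneg (convex_Ici 0)
      · fun_prop
      · fun_prop
      · intro x hx
        have hd : HasDerivAt (fun s : ℝ => 2 + s - (2 - s) * Real.exp s)
            (1 - ((-1) * Real.exp x + (2 - x) * Real.exp x)) x := by
          have a1 : HasDerivAt (fun s : ℝ => 2 + s) 1 x := (hasDerivAt_id' x).const_add 2
          have a2 : HasDerivAt (fun s : ℝ => 2 - s) (-1) x := (hasDerivAt_id' x).const_sub 2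
          exact a1.fun_sub (a2.fun_mul (Real.hasDerivAt_exp x))
        rw [hd.deriv]
        have h2 : 1 - x ≤ Real.exp (-x) := by
          have := Real.add_one_le_exp (-x)
          linarith
        have h3 : (1 - x) * Real.exp x ≤ 1 := by
          calc (1 - x) * Real.exp x ≤ Real.exp (-x) * Real.exp x :=
                mul_le_mul_of_nonneg_right h2 (Real.exp_pos x).le
            _ = 1 := by rw [← Real.exp_add]; simp
        nlinarith
    have := hmono (by simp : (0:ℝ) ∈ Ici 0) (ht.le : t ∈ Ici 0) ht.le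
    simp at this
    linarith
  unfold bb
  have : 1 / (Real.exp t - 1) - 1 / t + 1 / 2 =
      (2 + t - (2 - t) * Real.exp t) / (2 * t * (Real.exp t - 1)) := by
    field_simp
    ring
  rw [this]
  positivity

theorem bb_le {t : ℝ} (ht : 0 < t) : bb t ≤ t / 4 := by
  have h1 : 0 < Real.exp t - 1 := exp_sub_pos ht
  have h2 : t + t ^ 2 / 2 ≤ Real.exp t - 1 := by
    have := Real.quadratic_le_exp_of_nonneg ht.le
    linarith
  have h3 : 1 / (Real.exp t - 1) ≤ 1 / (t + t ^ 2 / 2) := by
    apply one_div_le_one_div_of_le (by positivity) h2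
  have h4 : 1 / (t + t ^ 2 / 2) ≤ 1 / t - 1 / 2 + t / 4 := by
    rw [div_le_iff₀ (by positivity)]
    have : (1 / t - 1 / 2 + t / 4) * (t + t ^ 2 / 2) = 1 + t ^ 3 / 8 := by
      field_simp
      ring
    rw [this]
    have : 0 ≤ t ^ 3 := by positivity
    linarith
  unfold bb
  linarith

theorem bb_meas : Measurable bb := by unfold bb; fun_prop

/-- Binet's remainder -/
def J (z : ℝ) : ℝ := ∫ t in Ioi (0:ℝ), bb t / t * Real.exp (-(z * t))

theorem int_exp {z : ℝ} (hz : 0 < z) : IntegrableOn (fun t : ℝ => Real.exp (-(z * t))) (Ioi 0) := by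
  have := integrableOn_Ioi_exp_neg_mul z hz
  exact this
where
  integrableOn_Ioi_exp_neg_mul (z : ℝ) (hz : 0 < z) :
      IntegrableOn (fun t : ℝ => Real.exp (-(z * t))) (Ioi 0) := by
    have h := integrableOn_exp_mul_Ioi (a := -z) (by linarith) 0
    refine h.congr_fun (fun t _ => ?_) measurableSet_Ioi
    ring_nf

theorem bound {t : ℝ} (ht : 0 < t) : ‖bb t / t‖ ≤ 1 / 4 := by
  rw [Real.norm_eq_abs, abs_of_nonneg (div_nonneg (bb_nonneg ht) ht.le), div_le_iff₀ ht]
  have := bb_le ht
  linarith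

theorem int_J {z : ℝ} (hz : 0 < z) :
    IntegrableOn (fun t : ℝ => bb t / t * Real.exp (-(z * t))) (Ioi 0) := by
  have h := (int_exp hz).const_mul (1 / 4)
  apply Integrable.mono' h
  · exact ((bb_meas.div measurable_id).mul (by fun_prop)).aestronglyMeasurable
  · filter_upwards [ae_restrict_mem measurableSet_Ioi] with t ht
    rw [norm_mul, Real.norm_eq_abs (Real.exp _), abs_of_pos (Real.exp_pos _)]
    exact mul_le_mul_of_nonneg_right (bound ht) (Real.exp_pos _).le

/-- `b(t)(1-e^{-t})/t = ∫_0^1 (1/2 - s) e^{-ts} ds` -/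
theorem bb_rep {t : ℝ} (ht : 0 < t) :
    ∫ s in (0:ℝ)..1, (1 / 2 - s) * Real.exp (-(s * t)) = bb t / t * (1 - Real.exp (-t)) := by
  have hd : ∀ s ∈ uIcc (0:ℝ) 1, HasDerivAt
      (fun s : ℝ => (-(1 / 2 - s) / t + 1 / t ^ 2) * Real.exp (-(s * t)))
      ((1 / 2 - s) * Real.exp (-(s * t))) s := by
    intro s _
    have a1 : HasDerivAt (fun s : ℝ => -(1 / 2 - s) / t + 1 / t ^ 2) (1 / t) s := by
      have : HasDerivAt (fun s : ℝ => -(1 / 2 - s) / t + 1 / t ^ 2) (-(-1) / t) s :=
        ((((hasDerivAt_id' s).const_sub (1 / 2)).fun_neg).div_const t).add_const _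
      simpa using this
    have a2 : HasDerivAt (fun s : ℝ => Real.exp (-(s * t))) (Real.exp (-(s * t)) * (-(1 * t))) s :=
      (((hasDerivAt_id' s).mul_const t).fun_neg).exp
    refine (a1.fun_mul a2).congr_deriv ?_
    have ht0 : t ≠ 0 := ht.ne'
    field_simp
    ring
  rw [intervalIntegral.integral_eq_sub_of_hasDerivAt hd]
  · have h1 : 0 < Real.exp t - 1 := exp_sub_pos ht
    have h2 : Real.exp (-t) = 1 / Real.exp t := by rw [Real.exp_neg]; simp
    unfold bb
    simp only [zero_mul, neg_zero, Real.exp_zero, one_mul]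
    rw [h2]
    have h3 : Real.exp t ≠ 0 := (Real.exp_pos t).ne'
    have h4 : Real.exp t - 1 ≠ 0 := h1.ne'
    field_simp
    ring
  · apply Continuous.intervalIntegrable
    fun_prop

theorem J_rec {z : ℝ} (hz : 0 < z) :
    J z - J (z + 1) = (z + 1 / 2) * (Real.log (z + 1) - Real.log z) - 1 := by
  have hz1 : 0 < z + 1 := by linarith
  unfold J
  rw [← integral_sub (int_J hz) (int_J hz1)]
  have e1 : ∫ t in Ioi (0:ℝ), (bb t / t * Real.exp (-(z * t)) - bb t / t * Real.exp (-((z + 1) * t))) =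
      ∫ t in Ioi (0:ℝ), ∫ s in Ioc (0:ℝ) 1, (1 / 2 - s) * Real.exp (-((s + z) * t)) := by
    apply setIntegral_congr_fun measurableSet_Ioi
    intro t ht
    have ht' : 0 < t := ht
    simp only
    have e2 : bb t / t * Real.exp (-(z * t)) - bb t / t * Real.exp (-((z + 1) * t)) =
        (bb t / t * (1 - Real.exp (-t))) * Real.exp (-(z * t)) := by
      have : Real.exp (-((z + 1) * t)) = Real.exp (-t) * Real.exp (-(z * t)) := by
        rw [← Real.exp_add]; ring_nf
      rw [this]; ring
    rw [e2, ← bb_rep ht', ← intervalIntegral.integral_mul_const,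
      intervalIntegral.integral_of_le (by norm_num)]
    apply setIntegral_congr_fun measurableSet_Ioc
    intro s _
    simp only
    rw [mul_assoc, ← Real.exp_add]
    ring_nf
  rw [e1, integral_integral_swap]
  · have e3 : ∫ s in Ioc (0:ℝ) 1, ∫ t in Ioi (0:ℝ), (1 / 2 - s) * Real.exp (-((s + z) * t)) =
        ∫ s in Ioc (0:ℝ) 1, (1 / 2 - s) / (s + z) := by
      apply setIntegral_congr_fun measurableSet_Ioc
      intro s hs
      have hsz : 0 < s + z := by linarith [hs.1]
      simp only
      rw [integral_const_mul]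
      have : ∫ t in Ioi (0:ℝ), Real.exp (-((s + z) * t)) = 1 / (s + z) := by
        have h := integral_exp_mul_Ioi (a := -(s + z)) (by linarith) 0
        have e : ∀ t : ℝ, Real.exp (-((s + z) * t)) = Real.exp (-(s + z) * t) := fun t => by ring_nf
        simp_rw [e]
        rw [h, mul_zero, Real.exp_zero, neg_div_neg_eq]
      rw [this]
      ring
    rw [e3, ← intervalIntegral.integral_of_le (by norm_num)]
    have hd : ∀ s ∈ uIcc (0:ℝ) 1, HasDerivAt
        (fun s : ℝ => (z + 1 / 2) * Real.log (s + z) - s) ((1 / 2 - s) / (s + z)) s := by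
      intro s hs
      rw [uIcc_of_le (by norm_num)] at hs
      have hsz : 0 < s + z := by linarith [hs.1]
      have a1 : HasDerivAt (fun s : ℝ => Real.log (s + z)) (1 / (s + z)) s :=
        ((hasDerivAt_id' s).add_const z).log hsz.ne'
      refine ((a1.const_mul (z + 1 / 2)).fun_sub (hasDerivAt_id' s)).congr_deriv ?_
      have hsz0 : s + z ≠ 0 := hsz.ne'
      field_simp
      ring
    rw [intervalIntegral.integral_eq_sub_of_hasDerivAt hd]
    · simp only [zero_add, add_comm (1:ℝ) z]
      ring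
    · apply ContinuousOn.intervalIntegrable
      intro s hs
      rw [uIcc_of_le (by norm_num)] at hs
      have hsz : s + z ≠ 0 := by linarith [hs.1]
      exact ((continuousAt_const.sub continuousAt_id).div (continuousAt_id.add continuousAt_const)
        hsz).continuousWithinAt
  · -- integrability
    have h1 : Integrable (fun x : ℝ × ℝ => Real.exp (-(z * x.1)))
        ((volume.restrict (Ioi (0:ℝ))).prod (volume.restrict (Ioc (0:ℝ) 1))) :=
      (int_exp hz).comp_fst _
    apply Integrable.mono' h1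
    · apply Continuous.aestronglyMeasurable
      unfold Function.uncurry
      fun_prop
    · have k1 := (Measure.quasiMeasurePreserving_fst (μ := volume.restrict (Ioi (0:ℝ)))
        (ν := volume.restrict (Ioc (0:ℝ) 1))).ae (ae_restrict_mem measurableSet_Ioi)
      have k2 := (Measure.quasiMeasurePreserving_snd (μ := volume.restrict (Ioi (0:ℝ)))
        (ν := volume.restrict (Ioc (0:ℝ) 1))).ae (ae_restrict_mem measurableSet_Ioc)
      filter_upwards [k1, k2] with x hx hy
      unfold Function.uncurry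
      have hx' : 0 < x.1 := hx
      rw [norm_mul, Real.norm_eq_abs, Real.norm_eq_abs, abs_of_pos (Real.exp_pos _)]
      have a1 : |1 / 2 - x.2| ≤ 1 := by
        rw [abs_le]; constructor <;> linarith [hy.1, hy.2]
      have a2 : Real.exp (-((x.2 + z) * x.1)) ≤ Real.exp (-(z * x.1)) := by
        apply Real.exp_le_exp.2
        nlinarith [hy.1]
      calc |1 / 2 - x.2| * Real.exp (-((x.2 + z) * x.1)) ≤ 1 * Real.exp (-(z * x.1)) :=
            mul_le_mul a1 a2 (Real.exp_pos _).le (by norm_num)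
        _ = _ := one_mul _

theorem J_convex : ConvexOn ℝ (Ioi (0:ℝ)) J := by
  refine ⟨convex_Ioi 0, ?_⟩
  intro x hx y hy a b ha hb hab
  have hxy := convex_Ioi (0:ℝ) hx hy ha hb hab
  simp only [smul_eq_mul] at hxy ⊢
  unfold J
  rw [← integral_const_mul, ← integral_const_mul, ← integral_add ((int_J hx).const_mul a)
    ((int_J hy).const_mul b)]
  apply setIntegral_mono_on (int_J hxy) (((int_J hx).const_mul a).add ((int_J hy).const_mul b))
    measurableSet_Ioi
  intro t ht
  show bb t / t * Real.exp (-((a * x + b * y) * t)) ≤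
    a * (bb t / t * Real.exp (-(x * t))) + b * (bb t / t * Real.exp (-(y * t)))
  have h1 : 0 ≤ bb t / t := div_nonneg (bb_nonneg ht) (le_of_lt ht)
  have h2 := (convexOn_exp).2 (mem_univ (-(x * t))) (mem_univ (-(y * t))) ha hb hab
  simp only [smul_eq_mul] at h2
  have h3 : a * -(x * t) + b * -(y * t) = -((a * x + b * y) * t) := by ring
  rw [h3] at h2
  have := mul_le_mul_of_nonneg_left h2 h1
  linarith

theorem gamma_eq {z : ℝ} (hz : 0 < z) :
    Real.Gamma z = Real.exp ((z - 1 / 2) * Real.log z - z + J z + (1 - J 1)) := by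
  have h := Real.eq_Gamma_of_log_convex
    (f := fun y => Real.exp ((y - 1 / 2) * Real.log y - y + J y + (1 - J 1))) ?_ ?_ ?_ ?_
  · exact (h (mem_Ioi.2 hz)).symm
  · have e : ∀ y ∈ Ioi (0:ℝ), (Real.log ∘ fun y => Real.exp ((y - 1 / 2) * Real.log y - y + J y + (1 - J 1))) y
        = ((y * Real.log y + (1 / 2) * (-Real.log y)) + (-y)) + J y + (1 - J 1) := by
      intro y _
      simp only [Function.comp_apply, Real.log_exp]
      ring
    have c1 : ConvexOn ℝ (Ioi (0:ℝ)) (fun y : ℝ => y * Real.log y) :=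
      Real.convexOn_mul_log.subset Ioi_subset_Ici_self (convex_Ioi 0)
    have c2 : ConvexOn ℝ (Ioi (0:ℝ)) (fun y : ℝ => (1 / 2) * (-Real.log y)) := by
      have := strictConcaveOn_log_Ioi.concaveOn.neg
      exact this.smul (by norm_num : (0:ℝ) ≤ 1 / 2)
    have c3 : ConvexOn ℝ (Ioi (0:ℝ)) (fun y : ℝ => -y) := by
      have := (concaveOn_id (𝕜 := ℝ) (convex_Ioi (0:ℝ))).neg
      exact this
    have c4 := (((c1.add c2).add c3).add J_convex).add (convexOn_const (1 - J 1) (convex_Ioi 0))
    exact c4.congr (fun y hy => (e y hy).symm)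
  · intro y hy
    have h := J_rec hy
    have e : ((y + 1) - 1 / 2) * Real.log (y + 1) - (y + 1) + J (y + 1) + (1 - J 1) =
        Real.log y + ((y - 1 / 2) * Real.log y - y + J y + (1 - J 1)) := by
      have : J (y + 1) = J y - ((y + 1 / 2) * (Real.log (y + 1) - Real.log y) - 1) := by linarith
      rw [this]; ring
    rw [e, Real.exp_add, Real.exp_log hy]
  · intro y _; exact Real.exp_pos _
  · simp

/-! ### convexity and `gg ≥ 0` -/

theorem sinh_le {x l : ℝ} (hx : 0 ≤ x) (hl0 : 0 ≤ l) (hl1 : l ≤ 1) :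
    Real.sinh (l * x) ≤ l * Real.sinh x := by
  have hmono : MonotoneOn (fun x : ℝ => l * Real.sinh x - Real.sinh (l * x)) (Ici 0) := by
    apply monotoneOn_of_deriv_nonneg (convex_Ici 0)
    · fun_prop
    · fun_prop
    · intro y hy
      rw [interior_Ici] at hy
      have hy' : 0 < y := hy
      have hd : HasDerivAt (fun x : ℝ => l * Real.sinh x - Real.sinh (l * x))
          (l * Real.cosh y - Real.cosh (l * y) * (l * 1)) y := by
        have a1 := (Real.hasDerivAt_sinh y).const_mul l
        have a2 := ((hasDerivAt_id' y).const_mul l).sinh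
        exact a1.fun_sub a2
      rw [hd.deriv]
      have : Real.cosh (l * y) ≤ Real.cosh y := by
        rw [Real.cosh_le_cosh, abs_of_nonneg (by positivity), abs_of_pos hy']
        nlinarith
      nlinarith
  have := hmono (by simp : (0:ℝ) ∈ Ici 0) (hx : x ∈ Ici 0) hx
  simp at this
  exact this

/-- `E(y) = 1/(e^{τ/y}-1)` is convex -/
theorem convE {τ : ℝ} (hτ : 0 < τ) : ConvexOn ℝ (Ioi (0:ℝ)) (fun y => 1 / (Real.exp (τ / y) - 1)) := by
  have hd : ∀ y ∈ Ioi (0:ℝ), HasDerivAt (fun y => 1 / (Real.exp (τ / y) - 1))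
      (1 / τ * (τ / y / (2 * Real.sinh (τ / y / 2))) ^ 2) y := by
    intro y hy
    have hy' : 0 < y := hy
    have hu : 0 < τ / y := div_pos hτ hy'
    have h0 : Real.exp (τ / y) - 1 ≠ 0 := (exp_sub_pos hu).ne'
    have a1 : HasDerivAt (fun y : ℝ => τ / y) (τ * (-(y ^ 2)⁻¹)) y := by
      have := (hasDerivAt_inv hy'.ne').const_mul τ
      simpa [div_eq_mul_inv] using this
    have a2 := (a1.exp.sub_const 1).fun_inv h0
    have a3 : HasDerivAt (fun y => 1 / (Real.exp (τ / y) - 1))
        (-(Real.exp (τ / y) * (τ * (-(y ^ 2)⁻¹))) / (Real.exp (τ / y) - 1) ^ 2) y := by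
      simpa [one_div] using a2
    refine a3.congr_deriv ?_
    have hs : 2 * Real.sinh (τ / y / 2) = (Real.exp (τ / y) - 1) / Real.exp (τ / y / 2) := by
      rw [Real.sinh_eq, Real.exp_neg]
      have : Real.exp (τ / y) = Real.exp (τ / y / 2) * Real.exp (τ / y / 2) := by
        rw [← Real.exp_add]; ring_nf
      rw [this]
      have := (Real.exp_pos (τ / y / 2)).ne'
      field_simp
    rw [hs]
    have e2 : Real.exp (τ / y) = Real.exp (τ / y / 2) ^ 2 := by
      rw [← Real.exp_nat_mul]; ring_nf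
    rw [div_pow, div_pow (Real.exp (τ / y) - 1), ← e2]
    have := (Real.exp_pos (τ / y)).ne'
    field_simp
  apply MonotoneOn.convexOn_of_deriv (convex_Ioi 0)
  · intro y hy
    exact (hd y hy).continuousAt.continuousWithinAt
  · rw [interior_Ioi]
    intro y hy
    exact (hd y hy).differentiableAt.differentiableWithinAt
  · rw [interior_Ioi]
    intro y hy z hz hyz
    rw [(hd y hy).deriv, (hd z hz).deriv]
    have hy' : 0 < y := hy
    have hz' : 0 < z := hz
    apply mul_le_mul_of_nonneg_left _ (by positivity)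
    have hsy : 0 < Real.sinh (τ / y / 2) := Real.sinh_pos_iff.2 (by positivity)
    have hsz : 0 < Real.sinh (τ / z / 2) := Real.sinh_pos_iff.2 (by positivity)
    apply pow_le_pow_left₀ (by positivity)
    rw [div_le_div_iff₀ (by positivity) (by positivity)]
    have h := sinh_le (x := τ / y / 2) (l := y / z) (by positivity) (by positivity)
      ((div_le_one hz').2 hyz)
    have e : y / z * (τ / y / 2) = τ / z / 2 := by field_simp
    rw [e] at h
    have h2 := mul_le_mul_of_nonneg_left h (show 0 ≤ τ / y by positivity)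
    have e2 : τ / y * (y / z * Real.sinh (τ / y / 2)) = τ / z * Real.sinh (τ / y / 2) := by field_simp
    rw [e2] at h2
    linarith

theorem inv_add {p : ℝ} (hp : 2 < p) : 1 / p + 1 / cq p = 1 := by
  unfold cq
  have h1 : p ≠ 0 := by linarith
  have h2 : p - 1 ≠ 0 := by linarith
  field_simp
  ring

theorem cq_pos {p : ℝ} (hp : 2 < p) : 0 < cq p := by
  unfold cq; exact div_pos (by linarith) (by linarith)

theorem gg_nonneg {p τ : ℝ} (hp : 2 < p) (hτ : 0 < τ) : 0 ≤ gg p τ := by
  have hq := cq_pos hp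
  have hp0 : 0 < p := by linarith
  have hinv := inv_add hp
  have h := (convE hτ).2 (show 1 / p ∈ Ioi (0:ℝ) from mem_Ioi.2 (by positivity))
    (show 1 / cq p ∈ Ioi (0:ℝ) from mem_Ioi.2 (by positivity)) (by norm_num : (0:ℝ) ≤ 1 / 2)
    (by norm_num : (0:ℝ) ≤ 1 / 2) (by norm_num)
  simp only [smul_eq_mul] at h
  rw [← mul_add, hinv] at h
  have e1 : τ / (1 / p) = p * τ := by field_simp
  have e2 : τ / (1 / cq p) = cq p * τ := by field_simp
  have e3 : τ / (1 / 2 * 1) = 2 * τ := by ring
  rw [e1, e2, e3] at h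
  unfold gg
  apply div_nonneg _ hτ.le
  unfold bb
  have e4 : 1 / (p * τ) + 1 / (cq p * τ) = 2 * (1 / (2 * τ)) := by
    have : 1 / (p * τ) + 1 / (cq p * τ) = (1 / p + 1 / cq p) / τ := by field_simp
    rw [this, hinv]; field_simp
  linarith

/-! ### substitution -/

theorem J_subst {a σ : ℝ} (ha : 0 < a) :
    J (σ / a) = ∫ τ in Ioi (0:ℝ), bb (a * τ) / τ * Real.exp (-(σ * τ)) := by
  have h := integral_comp_mul_left_Ioi (fun t => bb t / t * Real.exp (-(σ / a * t))) 0 ha
  rw [mul_zero] at h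
  unfold J
  have e : ∀ τ : ℝ, bb (a * τ) / (a * τ) * Real.exp (-(σ / a * (a * τ))) =
      a⁻¹ * (bb (a * τ) / τ * Real.exp (-(σ * τ))) := by
    intro τ
    have : σ / a * (a * τ) = σ * τ := by field_simp
    rw [this, mul_comm a τ, ← div_div]
    ring
  simp only [e] at h
  rw [integral_const_mul, smul_eq_mul] at h
  exact (mul_left_cancel₀ (inv_ne_zero ha.ne') h).symm

theorem int_subst {a σ : ℝ} (ha : 0 < a) (hσ : 0 < σ) :
    IntegrableOn (fun τ => bb (a * τ) / τ * Real.exp (-(σ * τ))) (Ioi 0) := by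
  have h := ((int_exp hσ).const_mul (a / 4))
  apply Integrable.mono' h
  · exact (((bb_meas.comp (measurable_const_mul a)).div measurable_id).mul (by fun_prop)).aestronglyMeasurable
  · filter_upwards [ae_restrict_mem measurableSet_Ioi] with t ht
    have ht' : 0 < t := ht
    rw [norm_mul, Real.norm_eq_abs (Real.exp _), abs_of_pos (Real.exp_pos _)]
    apply mul_le_mul_of_nonneg_right _ (Real.exp_pos _).le
    rw [Real.norm_eq_abs, abs_of_nonneg (div_nonneg (bb_nonneg (by positivity)) ht'.le),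
      div_le_iff₀ ht']
    have := bb_le (t := a * t) (by positivity)
    linarith

theorem gg_int {p σ : ℝ} (hp : 2 < p) (hσ : 0 < σ) :
    IntegrableOn (fun τ => gg p τ * Real.exp (-(σ * τ))) (Ioi 0) ∧
    ∫ τ in Ioi (0:ℝ), gg p τ * Real.exp (-(σ * τ)) = J (σ / p) + J (σ / cq p) - 2 * J (σ / 2) := by
  have hq := cq_pos hp
  have hp0 : 0 < p := by linarith
  have i1 := int_subst (a := p) hp0 hσ
  have i2 := int_subst (a := cq p) hq hσ
  have i3 := int_subst (a := 2) (by norm_num) hσ
  have e : ∀ τ : ℝ, gg p τ * Real.exp (-(σ * τ)) =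
      (bb (p * τ) / τ * Real.exp (-(σ * τ)) + bb (cq p * τ) / τ * Real.exp (-(σ * τ))) -
        2 * (bb (2 * τ) / τ * Real.exp (-(σ * τ))) := by
    intro τ; unfold gg; ring
  simp_rw [e]
  refine ⟨(i1.add i2).sub (i3.const_mul 2), ?_⟩
  have i12 : IntegrableOn (fun τ => bb (p * τ) / τ * Real.exp (-(σ * τ)) +
      bb (cq p * τ) / τ * Real.exp (-(σ * τ))) (Ioi 0) := i1.add i2
  rw [integral_sub i12 (i3.const_mul 2), integral_add i1 i2, integral_const_mul,
    J_subst hp0, J_subst hq, J_subst (by norm_num : (0:ℝ) < 2)]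

theorem KK_eq {p σ : ℝ} (hp : 2 < p) (hσ : 0 < σ) :
    KK p σ = √(p * cq p) / 2 * Real.exp (∫ τ in Ioi (0:ℝ), gg p τ * Real.exp (-(σ * τ))) := by
  have hq := cq_pos hp
  have hp0 : 0 < p := by linarith
  have hinv := inv_add hp
  rw [(gg_int hp hσ).2]
  unfold KK
  rw [gamma_eq (show 0 < σ / p by positivity), gamma_eq (show 0 < σ / cq p by positivity),
    gamma_eq (show 0 < σ / 2 by positivity)]
  have hbase : 0 < p ^ (1 / p) * cq p ^ (1 / cq p) / 2 := by positivity
  have hlogbase : Real.log (p ^ (1 / p) * cq p ^ (1 / cq p) / 2) =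
      1 / p * Real.log p + 1 / cq p * Real.log (cq p) - Real.log 2 := by
    rw [Real.log_div (by positivity) (by norm_num), Real.log_mul (by positivity) (by positivity),
      Real.log_rpow hp0, Real.log_rpow hq]
  rw [Real.rpow_def_of_pos hbase, hlogbase]
  have hsq : √(p * cq p) / 2 = Real.exp (1 / 2 * Real.log p + 1 / 2 * Real.log (cq p) - Real.log 2) := by
    rw [Real.exp_sub, Real.exp_log (by norm_num : (0:ℝ) < 2)]
    congr 1
    rw [Real.sqrt_eq_rpow, Real.rpow_def_of_pos (by positivity), Real.log_mul hp0.ne' hq.ne']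
    congr 1
    ring
  rw [hsq, ← Real.exp_add, ← Real.exp_nat_mul, ← Real.exp_add, ← Real.exp_sub, ← Real.exp_add]
  congr 1
  rw [Real.log_div hσ.ne' hp0.ne', Real.log_div hσ.ne' hq.ne', Real.log_div hσ.ne' (by norm_num)]
  have e1 : σ / p = σ * (1 / p) := by ring
  have e2 : σ / cq p = σ * (1 - 1 / p) := by
    have : 1 / cq p = 1 - 1 / p := by linarith
    rw [← this]; ring
  have e3 : 1 / cq p = 1 - 1 / p := by linarith
  rw [e1, e2, e3]
  push_cast
  ring

theorem KK_lim {p : ℝ} (hp : 2 < p) : Tendsto (KK p) (𝓝[>] 0) (𝓝 (p * cq p / 4)) := by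
  have hq := cq_pos hp
  have hp0 : 0 < p := by linarith
  have hbase : 0 < p ^ (1 / p) * cq p ^ (1 / cq p) / 2 := by positivity
  have e : ∀ σ ∈ Ioi (0:ℝ), (p * cq p / 4) * (Real.Gamma (σ / p + 1) * Real.Gamma (σ / cq p + 1) /
      Real.Gamma (σ / 2 + 1) ^ 2 * (p ^ (1 / p) * cq p ^ (1 / cq p) / 2) ^ σ) = KK p σ := by
    intro σ hσ
    have hσ' : 0 < σ := hσ
    unfold KK
    rw [Real.Gamma_add_one (by positivity), Real.Gamma_add_one (by positivity),
      Real.Gamma_add_one (by positivity)]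
    have h1 : Real.Gamma (σ / 2) ≠ 0 := (Real.Gamma_pos_of_pos (by positivity)).ne'
    field_simp
    ring
  have hc : ContinuousAt (fun σ : ℝ => (p * cq p / 4) * (Real.Gamma (σ / p + 1) * Real.Gamma (σ / cq p + 1) /
      Real.Gamma (σ / 2 + 1) ^ 2 * (p ^ (1 / p) * cq p ^ (1 / cq p) / 2) ^ σ)) 0 := by
    have hG : ∀ a : ℝ, ContinuousAt (fun σ : ℝ => Real.Gamma (σ / a + 1)) 0 := by
      intro a
      have h1 : ContinuousAt Real.Gamma (0 / a + 1) := by
        apply (Real.differentiableAt_Gamma _).continuousAt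
        intro m
        rw [zero_div, zero_add]
        have : (0:ℝ) ≤ m := Nat.cast_nonneg m
        linarith
      exact ContinuousAt.comp (f := fun σ : ℝ => σ / a + 1) h1 (by fun_prop)
    apply continuousAt_const.mul
    apply ContinuousAt.mul
    · apply ContinuousAt.div ((hG p).mul (hG (cq p))) ((hG 2).pow 2)
      simp
    · exact (Real.continuous_const_rpow hbase.ne').continuousAt
  have hv : (p * cq p / 4) * (Real.Gamma ((0:ℝ) / p + 1) * Real.Gamma (0 / cq p + 1) /
      Real.Gamma (0 / 2 + 1) ^ 2 * (p ^ (1 / p) * cq p ^ (1 / cq p) / 2) ^ (0:ℝ)) = p * cq p / 4 := by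
    simp
  have hT := hc.tendsto.mono_left (nhdsWithin_le_nhds (s := Ioi (0:ℝ)))
  rw [hv] at hT
  apply hT.congr'
  filter_upwards [self_mem_nhdsWithin] with σ hσ using e σ hσ

theorem gg_total {p : ℝ} (hp : 2 < p) : IntegrableOn (gg p) (Ioi 0) ∧
    ∫ τ in Ioi (0:ℝ), gg p τ = Real.log (√(p * cq p) / 2) := by
  have hq := cq_pos hp
  have hp0 : 0 < p := by linarith
  have hpq : 0 < p * cq p := by positivity
  have hs0 : 0 < √(p * cq p) := Real.sqrt_pos.2 hpq
  have hgm : Measurable (gg p) := by unfold gg bb; fun_prop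
  set A : ℝ → ℝ := fun σ => ∫ τ in Ioi (0:ℝ), gg p τ * Real.exp (-(σ * τ)) with hA
  have hlim : Tendsto A (𝓝[>] 0) (𝓝 (Real.log (√(p * cq p) / 2))) := by
    have h1 : ∀ σ ∈ Ioi (0:ℝ), Real.log (KK p σ / (√(p * cq p) / 2)) = A σ := by
      intro σ hσ
      rw [KK_eq hp hσ, mul_div_cancel_left₀ _ (by positivity), Real.log_exp]
    have h2 : Tendsto (fun σ => Real.log (KK p σ / (√(p * cq p) / 2))) (𝓝[>] 0)
        (𝓝 (Real.log (p * cq p / 4 / (√(p * cq p) / 2)))) := by
      apply ((KK_lim hp).div_const _).log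
      positivity
    have h3 : p * cq p / 4 / (√(p * cq p) / 2) = √(p * cq p) / 2 := by
      have := Real.mul_self_sqrt hpq.le
      rw [div_div_eq_mul_div, div_eq_div_iff (by positivity) (by norm_num)]
      nth_rewrite 1 [← this]
      ring
    rw [h3] at h2
    apply h2.congr'
    filter_upwards [self_mem_nhdsWithin] with σ hσ using h1 σ hσ
  have hpos : 0 ≤ Real.log (√(p * cq p) / 2) := by
    apply ge_of_tendsto hlim
    filter_upwards [self_mem_nhdsWithin] with σ hσ
    apply setIntegral_nonneg measurableSet_Ioi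
    intro τ hτ
    exact mul_nonneg (gg_nonneg hp hτ) (Real.exp_pos _).le
  -- monotone convergence
  have hseq : Tendsto (fun n : ℕ => (1:ℝ) / ((n:ℝ) + 1)) atTop (𝓝[>] 0) := by
    rw [tendsto_nhdsWithin_iff]
    refine ⟨tendsto_one_div_add_atTop_nhds_zero_nat, ?_⟩
    filter_upwards with n
    exact mem_Ioi.2 (by positivity)
  have hmct : Tendsto (fun n : ℕ => ∫⁻ τ in Ioi (0:ℝ),
      ENNReal.ofReal (gg p τ * Real.exp (-((1:ℝ) / ((n:ℝ) + 1) * τ)))) atTop
      (𝓝 (∫⁻ τ in Ioi (0:ℝ), ENNReal.ofReal (gg p τ))) := by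
    apply lintegral_tendsto_of_tendsto_of_monotone
    · intro n
      exact (hgm.mul (by fun_prop)).ennreal_ofReal.aemeasurable
    · filter_upwards [ae_restrict_mem measurableSet_Ioi] with τ hτ
      intro n m hnm
      apply ENNReal.ofReal_le_ofReal
      apply mul_le_mul_of_nonneg_left _ (gg_nonneg hp hτ)
      apply Real.exp_le_exp.2
      have hτ' : 0 < τ := hτ
      have : (1:ℝ) / ((m:ℝ) + 1) ≤ 1 / ((n:ℝ) + 1) := by
        apply one_div_le_one_div_of_le (by positivity)
        have : (n:ℝ) ≤ m := by exact_mod_cast hnm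
        linarith
      nlinarith
    · filter_upwards with τ
      apply ENNReal.tendsto_ofReal
      have h1 : Tendsto (fun n : ℕ => gg p τ * Real.exp (-((1:ℝ) / ((n:ℝ) + 1) * τ))) atTop
          (𝓝 (gg p τ * Real.exp (-(0 * τ)))) := by
        apply Tendsto.const_mul
        apply (Real.continuous_exp.tendsto _).comp
        exact ((tendsto_one_div_add_atTop_nhds_zero_nat).mul_const τ).neg
      simpa using h1
  have hlint : ∫⁻ τ in Ioi (0:ℝ), ENNReal.ofReal (gg p τ) =
      ENNReal.ofReal (Real.log (√(p * cq p) / 2)) := by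
    apply tendsto_nhds_unique hmct
    have h1 := ENNReal.tendsto_ofReal (hlim.comp hseq)
    apply h1.congr
    intro n
    simp only [Function.comp_apply, hA]
    rw [ofReal_integral_eq_lintegral_ofReal (gg_int hp (by positivity)).1]
    filter_upwards [ae_restrict_mem measurableSet_Ioi] with τ hτ
    exact mul_nonneg (gg_nonneg hp hτ) (Real.exp_pos _).le
  have hnn : 0 ≤ᵐ[volume.restrict (Ioi (0:ℝ))] gg p := by
    filter_upwards [ae_restrict_mem measurableSet_Ioi] with τ hτ using gg_nonneg hp hτ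
  have hint : IntegrableOn (gg p) (Ioi 0) := by
    refine ⟨hgm.aestronglyMeasurable, ?_⟩
    rw [hasFiniteIntegral_iff_ofReal hnn, hlint]
    exact ENNReal.ofReal_lt_top
  refine ⟨hint, ?_⟩
  rw [integral_eq_lintegral_of_nonneg_ae hnn hgm.aestronglyMeasurable, hlint,
    ENNReal.toReal_ofReal hpos]

theorem bin : S_BIN := by
  intro p hp
  exact ⟨fun τ hτ => gg_nonneg hp hτ, (gg_total hp).1, (gg_total hp).2, fun σ hσ => KK_eq hp hσ⟩

end Pool.Agent.NH65.PL.Bin
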