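import Pool.Agent.NH65.PL.Stm

/-!
# Project PL, module PL5: classification of periodic solutions
-/

set_option autoImplicit false

noncomputable section

namespace Pool.Agent.NH65.PL.Class

open Real Set MeasureTheory Filter Topology Pool.Agent.NH65.PL

theorem cq_gt {p : ℝ} (hp : 2 < p) : 1 < cq p := by
  unfold cq
  rw [lt_div_iff₀ (by linarith)]
  linarith

theorem cq_inv {p : ℝ} (hp : 2 < p) : 1 / p + 1 / cq p = 1 := by
  unfold cq
  have h1 : p ≠ 0 := by linarith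
  have h2 : p - 1 ≠ 0 := by linarith
  field_simp
  ring

/-- `y ↦ |y|^{r} y`, `r > -1`, is injective. -/
theorem inj_phi {r : ℝ} (hr : -1 < r) {y y' : ℂ}
    (h : ((‖y‖ ^ r : ℝ) : ℂ) * y = ((‖y'‖ ^ r : ℝ) : ℂ) * y') : y = y' := by
  have hzero : ∀ z : ℂ, ((‖z‖ ^ r : ℝ) : ℂ) * z = 0 → z = 0 := by
    intro z hz
    by_contra hz0
    have hn : 0 < ‖z‖ := norm_pos_iff.2 hz0
    rcases mul_eq_zero.1 hz with h1 | h1
    · have h2 : ‖z‖ ^ r = 0 := by exact_mod_cast h1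
      exact (rpow_pos_of_pos hn r).ne' h2
    · exact hz0 h1
  by_cases hy : y = 0
  · rw [hy, mul_zero] at h
    rw [hy, hzero y' h.symm]
  by_cases hy' : y' = 0
  · rw [hy', mul_zero] at h
    rw [hy', hzero y h]
  have hn : 0 < ‖y‖ := norm_pos_iff.2 hy
  have hn' : 0 < ‖y'‖ := norm_pos_iff.2 hy'
  have h1 : ‖y‖ ^ (r + 1) = ‖y'‖ ^ (r + 1) := by
    have h2 := congrArg norm h
    rw [norm_mul, norm_mul, Complex.norm_real, Complex.norm_real,
      Real.norm_of_nonneg (rpow_nonneg (norm_nonneg _) _),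
      Real.norm_of_nonneg (rpow_nonneg (norm_nonneg _) _)] at h2
    rw [rpow_add hn, rpow_add hn', rpow_one, rpow_one]
    exact h2
  have h2 : ‖y‖ = ‖y'‖ :=
    (rpow_left_inj hn.le hn'.le (by linarith : r + 1 ≠ 0)).1 h1
  rw [h2] at h
  have h3 : ((‖y'‖ ^ r : ℝ) : ℂ) ≠ 0 := by
    exact_mod_cast (rpow_pos_of_pos hn' r).ne'
  exact mul_left_cancel₀ h3 h

/-- `Y` is periodic when `X` is. -/
theorem Y_per {p c : ℝ} (hp : 2 < p) {X Y : ℝ → ℂ} (h : IsSol p c X Y) {P : ℝ}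
    (hX : ∀ t, X (t + P) = X t) (t : ℝ) : Y (t + P) = Y t := by
  have h1 : HasDerivAt (fun s => X (s + P)) (((‖Y (t + P)‖ ^ (cq p - 2) : ℝ) : ℂ) * Y (t + P)) t :=
    (h.dX (t + P)).comp_add_const t P
  have h2 : (fun s => X (s + P)) = X := funext hX
  rw [h2] at h1
  have h3 := h1.unique (h.dX t)
  have h4 := cq_gt hp
  exact inj_phi (by linarith : -1 < cq p - 2) h3

/-- The common part of the two theorems. -/
theorem common (hL : S_LIFT) (hC : S_COUNT) {p : ℝ} (hp : 2 < p) {Z H : ℝ → ℝ}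
    (hZ : IsPhase p Z H) {c : ℝ} (hc : c ∈ Ico (0:ℝ) 1) {X Y : ℝ → ℂ} (h : IsSol p c X Y)
    {P : ℝ} (hP : 0 < P) (hX : ∀ t, X (t + P) = X t) :
    ∃ (ψ : ℝ → ℝ) (N : ℕ), 0 < N ∧ P = N * T H c ∧
      (∀ t, ((starRingEnd ℂ) (X t) * Y t).re = kap c * sin (ψ t)) ∧
      ∀ f : ℝ → ℝ, Continuous f → (∀ s, f (s + 2 * π) = f s) →
        ∫ t in (0:ℝ)..P, f (ψ t) = N * ∫ s in (0:ℝ)..(2 * π), f s / H (kap c * cos s) := by
  obtain ⟨ψ, hψ, hz, hu⟩ := hL p hp Z H hZ c hc X Y h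
  have hk : kap c ∈ Ioc (0:ℝ) 1 := by
    have h1 : c ^ 2 < 1 := by nlinarith [hc.1, hc.2]
    refine ⟨Real.sqrt_pos.2 (by linarith), ?_⟩
    exact Real.sqrt_le_one.2 (by nlinarith [sq_nonneg c])
  have hmem : ∀ s, kap c * cos s ∈ Icc (-1:ℝ) 1 := by
    intro s
    have h1 : |kap c * cos s| ≤ 1 := by
      rw [abs_mul, abs_of_pos hk.1]
      exact mul_le_one₀ hk.2 (abs_nonneg _) (abs_cos_le_one s)
    exact abs_le.1 h1
  have hY := Y_per hp h hX
  have hcos : ∀ t, cos (ψ (t + P)) = cos (ψ t) := by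
    intro t
    have h1 : Z (kap c * cos (ψ (t + P))) = Z (kap c * cos (ψ t)) := by
      rw [← hz, ← hz, hX]
    have h2 := hZ.anti.injOn (hmem _) (hmem _) h1
    exact mul_left_cancel₀ hk.1.ne' h2
  have hsin : ∀ t, sin (ψ (t + P)) = sin (ψ t) := by
    intro t
    have h1 : kap c * sin (ψ (t + P)) = kap c * sin (ψ t) := by
      rw [← hu, ← hu, hX, hY]
    exact mul_left_cancel₀ hk.1.ne' h1
  obtain ⟨N, hN, _, hint⟩ := hC H hZ.contH hZ.posH (kap c) hk ψ hψ P hP hcos hsin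
  refine ⟨ψ, N, hN, ?_, hu, hint⟩
  have h1 := hint (fun _ => 1) continuous_const (fun _ => rfl)
  simp only [intervalIntegral.integral_const, sub_zero, smul_eq_mul, mul_one] at h1
  exact h1

theorem line : S_LIFT → S_COUNT → S_LINE := by
  intro hL hC p hp Z H hZ X Y h P hP hX
  obtain ⟨ψ, N, hN, hPN, _, _⟩ := common hL hC hp hZ (c := 0) ⟨le_rfl, one_pos⟩ h hP hX
  exact ⟨N, hN, hPN⟩

theorem cls : S_LIFT → S_COUNT → S_CLASS := by
  intro hL hC p hp Z H hZ c hc X Y h P hP hX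
  obtain ⟨ψ, N, hN, hPN, hu, hint⟩ := common hL hC hp hZ (c := c) ⟨hc.1.le, hc.2⟩ h hP hX
  have hY := Y_per hp h hX
  have hq1 := cq_gt hp
  have hpq := cq_inv hp
  have hc0 : 0 < c := hc.1
  have hX0 : ∀ t, X t ≠ 0 := by
    intro t h0
    have h1 := h.mom t
    rw [h0, map_zero, zero_mul, Complex.zero_im] at h1
    linarith
  have hY0 : ∀ t, Y t ≠ 0 := by
    intro t h0
    have h1 := h.mom t
    rw [h0, mul_zero, Complex.zero_im] at h1
    linarith
  have hXn : ∀ t, 0 < ‖X t‖ := fun t => norm_pos_iff.2 (hX0 t)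
  have hYn : ∀ t, 0 < ‖Y t‖ := fun t => norm_pos_iff.2 (hY0 t)
  have hXc : Continuous X := continuous_iff_continuousAt.2 (fun t => (h.dX t).continuousAt)
  have hYc : Continuous Y := continuous_iff_continuousAt.2 (fun t => (h.dY t).continuousAt)
  obtain ⟨u, hud⟩ : ∃ u : ℝ → ℝ, ∀ t, u t = ((starRingEnd ℂ) (X t) * Y t).re := ⟨_, fun _ => rfl⟩
  have hconj : ∀ t, (starRingEnd ℂ) (X t) * Y t = (u t : ℂ) + c * Complex.I := by
    intro t
    apply Complex.ext
    · simp [hud]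
    · rw [h.mom t]
      simp
  have hRS : ∀ t, ‖X t‖ ^ 2 * ‖Y t‖ ^ 2 = u t ^ 2 + c ^ 2 := by
    intro t
    have h1 : ‖(starRingEnd ℂ) (X t) * Y t‖ ^ 2 = u t ^ 2 + c ^ 2 := by
      rw [hconj, ← Complex.normSq_eq_norm_sq]
      rw [Complex.normSq_add_mul_I]
    rw [norm_mul, RCLike.norm_conj, mul_pow] at h1
    exact h1
  -- the logarithmic derivative of `X`
  obtain ⟨A, hA⟩ : ∃ A : ℝ → ℂ, ∀ t, A t = ((‖Y t‖ ^ (cq p - 2) / ‖X t‖ ^ 2 : ℝ) : ℂ) *
      ((u t : ℂ) + c * Complex.I) := ⟨_, fun _ => rfl⟩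
  have huc : Continuous u := by
    have : u = fun t => ((starRingEnd ℂ) (X t) * Y t).re := funext hud
    rw [this]
    exact Complex.continuous_re.comp ((Complex.continuous_conj.comp hXc).mul hYc)
  have hAc : Continuous A := by
    have : A = fun t => ((‖Y t‖ ^ (cq p - 2) / ‖X t‖ ^ 2 : ℝ) : ℂ) *
      ((u t : ℂ) + c * Complex.I) := funext hA
    rw [this]
    refine (Complex.continuous_ofReal.comp ?_).mul
      ((Complex.continuous_ofReal.comp huc).add continuous_const)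
    refine (hYc.norm.rpow_const (fun t => Or.inl (hYn t).ne')).div (hXc.norm.pow 2)
      (fun t => (pow_pos (hXn t) 2).ne')
  have hdX : ∀ t, HasDerivAt X (A t * X t) t := by
    intro t
    have h1 := h.dX t
    have h2 : ((‖Y t‖ ^ (cq p - 2) : ℝ) : ℂ) * Y t = A t * X t := by
      rw [hA, ← hconj]
      have h3 : X t * (starRingEnd ℂ) (X t) = ((‖X t‖ ^ 2 : ℝ) : ℂ) := by
        rw [Complex.mul_conj, Complex.normSq_eq_norm_sq]
      have h4 : ((‖X t‖ ^ 2 : ℝ) : ℂ) ≠ 0 := by exact_mod_cast (pow_pos (hXn t) 2).ne'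
      rw [Complex.ofReal_div]
      calc ((‖Y t‖ ^ (cq p - 2) : ℝ) : ℂ) * Y t
          = ((‖Y t‖ ^ (cq p - 2) : ℝ) : ℂ) / ((‖X t‖ ^ 2 : ℝ) : ℂ) *
            (((‖X t‖ ^ 2 : ℝ) : ℂ) * Y t) := by field_simp
        _ = _ := by rw [← h3]; ring
    rw [h2] at h1
    exact h1
  obtain ⟨B, hB⟩ : ∃ B : ℝ → ℂ, ∀ t, B t = ∫ s in (0:ℝ)..t, A s := ⟨_, fun _ => rfl⟩
  have hdB : ∀ t, HasDerivAt B (A t) t := by
    intro t
    have : B = fun t => ∫ s in (0:ℝ)..t, A s := funext hB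
    rw [this]
    exact intervalIntegral.integral_hasDerivAt_right (hAc.intervalIntegrable _ _)
      (hAc.stronglyMeasurableAtFilter _ _) hAc.continuousAt
  have hB0 : B 0 = 0 := by rw [hB, intervalIntegral.integral_same]
  have hXB : ∀ t, X t * Complex.exp (-(B t)) = X 0 := by
    intro t
    have hd : ∀ t, HasDerivAt (fun t => X t * Complex.exp (-(B t))) 0 t := by
      intro t
      have h1 := (hdX t).mul ((hdB t).neg.cexp)
      have h2 : A t * X t * Complex.exp (-(B t)) + X t * (Complex.exp (-(B t)) * -(A t)) = 0 := by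
        ring
      have h3 := h1
      rw [show (-B) t = -(B t) from rfl, h2] at h3
      exact h3
    have h1 := is_const_of_deriv_eq_zero (fun t => (hd t).differentiableAt)
      (fun t => (hd t).deriv) t 0
    rw [h1, hB0]
    simp
  have hexp : Complex.exp (B P) = 1 := by
    have h1 := hXB P
    have h2 : X P = X 0 := by
      have := hX 0
      rwa [zero_add] at this
    rw [h2] at h1
    have h3 : Complex.exp (-(B P)) = 1 := by
      have h4 : X 0 * Complex.exp (-(B P)) = X 0 * 1 := by rw [h1, mul_one]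
      exact mul_left_cancel₀ (hX0 0) h4
    rw [Complex.exp_neg] at h3
    exact inv_eq_one.1 h3
  obtain ⟨n, hn⟩ := Complex.exp_eq_one_iff.1 hexp
  -- the derivative of `u`
  have hdu : ∀ t, HasDerivAt u (‖Y t‖ ^ cq p - ‖X t‖ ^ p) t := by
    intro t
    have hue : u = fun t => ((starRingEnd ℂ) (X t) * Y t).re := funext hud
    rw [hue]
    have h1 : HasDerivAt (fun t => (starRingEnd ℂ) (X t))
        ((starRingEnd ℂ) (((‖Y t‖ ^ (cq p - 2) : ℝ) : ℂ) * Y t)) t := by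
      have := (Complex.conjCLE.toContinuousLinearMap.hasFDerivAt (x := X t)).comp_hasDerivAt t
        (h.dX t)
      exact this
    have h2 := Complex.reCLM.hasFDerivAt.comp_hasDerivAt t (h1.mul (h.dY t))
    have h3 : ((starRingEnd ℂ) (((‖Y t‖ ^ (cq p - 2) : ℝ) : ℂ) * Y t) * Y t +
        (starRingEnd ℂ) (X t) * -(((‖X t‖ ^ (p - 2) : ℝ) : ℂ) * X t)).re =
        ‖Y t‖ ^ cq p - ‖X t‖ ^ p := by
      have e1 : (starRingEnd ℂ) (((‖Y t‖ ^ (cq p - 2) : ℝ) : ℂ) * Y t) * Y t =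
          ((‖Y t‖ ^ (cq p - 2) * ‖Y t‖ ^ 2 : ℝ) : ℂ) := by
        rw [map_mul, Complex.conj_ofReal, mul_assoc, Complex.conj_mul']
        push_cast
        ring
      have e2 : (starRingEnd ℂ) (X t) * -(((‖X t‖ ^ (p - 2) : ℝ) : ℂ) * X t) =
          -((‖X t‖ ^ (p - 2) * ‖X t‖ ^ 2 : ℝ) : ℂ) := by
        have e3 : (starRingEnd ℂ) (X t) * -(((‖X t‖ ^ (p - 2) : ℝ) : ℂ) * X t) =
          -(((‖X t‖ ^ (p - 2) : ℝ) : ℂ) * ((starRingEnd ℂ) (X t) * X t)) := by ring
        rw [e3, Complex.conj_mul']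
        push_cast
        ring
      rw [e1, e2, Complex.add_re, Complex.neg_re, Complex.ofReal_re, Complex.ofReal_re]
      have e4 : ∀ (x r : ℝ), 0 < x → x ^ (r - 2) * x ^ 2 = x ^ r := by
        intro x r hx
        rw [← rpow_natCast x 2, ← rpow_add hx]
        congr 1
        push_cast
        ring
      rw [e4 _ _ (hYn t), e4 _ _ (hXn t)]
      ring
    rw [← h3]
    exact h2
  have huP : u P = u 0 := by
    have h1 := hX 0
    have h2 := hY 0
    rw [zero_add] at h1 h2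
    rw [hud, hud, h1, h2]
  -- the comparison of the angles
  have hgc : Continuous (fun t => c / (c ^ 2 + u t ^ 2)) :=
    continuous_const.div (continuous_const.add (huc.pow 2)) (fun t => by positivity)
  have hang : (B P).im = ∫ t in (0:ℝ)..P, c / (c ^ 2 + u t ^ 2) := by
    have hd : ∀ t, HasDerivAt (fun t => (B t).im - (1 / p) * arctan (u t / c) -
        ∫ s in (0:ℝ)..t, c / (c ^ 2 + u s ^ 2)) 0 t := by
      intro t
      have h1 : HasDerivAt (fun t => (B t).im) (A t).im t :=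
        Complex.imCLM.hasFDerivAt.comp_hasDerivAt t (hdB t)
      have h2 : HasDerivAt (fun t => arctan (u t / c))
          (1 / (1 + (u t / c) ^ 2) * ((‖Y t‖ ^ cq p - ‖X t‖ ^ p) / c)) t :=
        ((hdu t).div_const c).arctan
      have h3 : HasDerivAt (fun t => ∫ s in (0:ℝ)..t, c / (c ^ 2 + u s ^ 2))
          (c / (c ^ 2 + u t ^ 2)) t :=
        intervalIntegral.integral_hasDerivAt_right (hgc.intervalIntegrable _ _)
          (hgc.stronglyMeasurableAtFilter _ _) hgc.continuousAt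
      have h4 := (h1.sub (h2.const_mul (1 / p))).sub h3
      have h5 : (A t).im - 1 / p * (1 / (1 + (u t / c) ^ 2) *
          ((‖Y t‖ ^ cq p - ‖X t‖ ^ p) / c)) - c / (c ^ 2 + u t ^ 2) = 0 := by
        have e1 : (A t).im = ‖Y t‖ ^ (cq p - 2) / ‖X t‖ ^ 2 * c := by
          rw [hA, Complex.im_ofReal_mul]
          simp
        have e2 : ‖Y t‖ ^ (cq p - 2) = ‖Y t‖ ^ cq p / ‖Y t‖ ^ 2 := by
          rw [← rpow_natCast ‖Y t‖ 2, ← rpow_sub (hYn t)]
          congr 1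
        have e3 : c ^ 2 + u t ^ 2 = ‖X t‖ ^ 2 * ‖Y t‖ ^ 2 := by rw [hRS]; ring
        have e4 : 1 / (1 + (u t / c) ^ 2) * ((‖Y t‖ ^ cq p - ‖X t‖ ^ p) / c) =
            c * (‖Y t‖ ^ cq p - ‖X t‖ ^ p) / (c ^ 2 + u t ^ 2) := by
          have : c ^ 2 + u t ^ 2 ≠ 0 := by positivity
          field_simp
        have e5 : ‖Y t‖ ^ cq p - 1 / p * (‖Y t‖ ^ cq p - ‖X t‖ ^ p) - 1 = 0 := by
          have e6 := h.energy t
          have e7 : ‖Y t‖ ^ cq p / cq p = ‖Y t‖ ^ cq p * (1 - 1 / p) := by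
            have : 1 / cq p = 1 - 1 / p := by linarith
            rw [← this]
            ring
          rw [e7] at e6
          have e8 : ‖X t‖ ^ p / p = 1 / p * ‖X t‖ ^ p := by ring
          rw [e8] at e6
          linarith
        rw [e1, e2, e4, e3]
        have hx := hXn t
        have hy := hYn t
        have e9 : ‖Y t‖ ^ cq p / ‖Y t‖ ^ 2 / ‖X t‖ ^ 2 * c -
            1 / p * (c * (‖Y t‖ ^ cq p - ‖X t‖ ^ p) / (‖X t‖ ^ 2 * ‖Y t‖ ^ 2)) -
            c / (‖X t‖ ^ 2 * ‖Y t‖ ^ 2) = c / (‖X t‖ ^ 2 * ‖Y t‖ ^ 2) *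
            (‖Y t‖ ^ cq p - 1 / p * (‖Y t‖ ^ cq p - ‖X t‖ ^ p) - 1) := by
          field_simp
        rw [e9, e5, mul_zero]
      rw [h5] at h4
      exact h4
    have h1 := is_const_of_deriv_eq_zero (fun t => (hd t).differentiableAt)
      (fun t => (hd t).deriv) P 0
    simp only [hB0, Complex.zero_im, intervalIntegral.integral_same, huP] at h1
    linarith
  have hcount := hint (fun s => c / (c ^ 2 + (kap c) ^ 2 * (sin s) ^ 2))
    (continuous_const.div (continuous_const.add (continuous_const.mul (continuous_sin.pow 2)))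
      (fun s => by positivity)) (fun s => by simp only [sin_add_two_pi])
  have h1 : ∫ t in (0:ℝ)..P, c / (c ^ 2 + u t ^ 2) = N * Th H c := by
    have h2 : ∀ t, c / (c ^ 2 + u t ^ 2) = c / (c ^ 2 + (kap c) ^ 2 * (sin (ψ t)) ^ 2) := by
      intro t
      rw [hud, hu, mul_pow]
    simp only [h2]
    exact hcount
  have h2 : (B P).im = 2 * π * n := by
    rw [hn]
    simp
    ring
  have h3 : 0 < ∫ t in (0:ℝ)..P, c / (c ^ 2 + u t ^ 2) :=
    intervalIntegral.intervalIntegral_pos_of_pos (hgc.intervalIntegrable _ _)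
      (fun t => by positivity) hP
  rw [← hang, h2] at h3
  have h4 : (0:ℝ) < n := pos_of_mul_pos_right h3 (by positivity)
  have h5 : 0 < n := by exact_mod_cast h4
  obtain ⟨M, rfl⟩ : ∃ M : ℕ, n = (M : ℤ) := ⟨n.toNat, (Int.toNat_of_nonneg h5.le).symm⟩
  refine ⟨N, M, hN, by exact_mod_cast h5, ?_, hPN⟩
  rw [← h1, ← hang, h2]
  push_cast
  rfl

end Pool.Agent.NH65.PL.Class
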