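import Mathlib

/-!
# Project PL (MP_799515_an): definitions and statements

Periodic eigenfunctions of the planar vector `p`-Laplacian, `p > 2`, `q = p/(p-1)`.
-/

set_option autoImplicit false

noncomputable section

namespace Pool.Agent.NH65.PL

open Real Set MeasureTheory Filter Topology

/-- the conjugate exponent `q = p/(p-1)` -/
def cq (p : ℝ) : ℝ := p / (p - 1)

/-- `G(z) = (p z)^{1/p} (q (1-z))^{1/q}` for `0 ≤ z ≤ 1` -/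
def G (p z : ℝ) : ℝ := (p * z) ^ (1 / p) * (cq p * (1 - z)) ^ (1 / cq p)

/-- the radial action `F(c) = 2 ∫_0^1 √(G(z)² - c²) / (p z) dz` -/
def F (p c : ℝ) : ℝ := 2 * ∫ z in (0:ℝ)..1, √((G p z) ^ 2 - c ^ 2) / (p * z)

/-- `κ(c) = √(1-c²)` -/
def kap (c : ℝ) : ℝ := √(1 - c ^ 2)

/-- radial period -/
def T (H : ℝ → ℝ) (c : ℝ) : ℝ := ∫ s in (0:ℝ)..(2 * π), 1 / H (kap c * cos s)

/-- angle swept in one radial period -/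
def Th (H : ℝ → ℝ) (c : ℝ) : ℝ :=
  ∫ s in (0:ℝ)..(2 * π), c / (c ^ 2 + (kap c) ^ 2 * (sin s) ^ 2) / H (kap c * cos s)

/-- phase functions: `w ↦ Z w` is the decreasing parametrisation of `[0,1]` with
`G(Z w)² = 1 - w²`, and `H w = q (1 - p Z w)/w` -/
structure IsPhase (p : ℝ) (Z H : ℝ → ℝ) : Prop where
  contZ : ContinuousOn Z (Icc (-1) 1)
  anti : StrictAntiOn Z (Icc (-1) 1)
  Z1 : Z 1 = 0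
  Zm1 : Z (-1) = 1
  contH : ContinuousOn H (Icc (-1) 1)
  posH : ∀ w ∈ Icc (-1:ℝ) 1, 0 < H w
  eqH : ∀ w ∈ Icc (-1:ℝ) 1, w * H w = cq p * (1 - p * Z w)
  eqG : ∀ w ∈ Icc (-1:ℝ) 1, (G p (Z w)) ^ 2 = 1 - w ^ 2
  deriv : ∀ w ∈ Ioo (-1:ℝ) 1,
    HasDerivAt Z (-(p * cq p * Z w * (1 - Z w)) / ((1 - w ^ 2) * H w)) w

/-- a solution of energy `1` and angular momentum `c` of
`X' = |Y|^{q-2} Y`, `Y' = -|X|^{p-2} X` -/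
structure IsSol (p c : ℝ) (X Y : ℝ → ℂ) : Prop where
  dX : ∀ t, HasDerivAt X (((‖Y t‖ ^ (cq p - 2) : ℝ) : ℂ) * Y t) t
  dY : ∀ t, HasDerivAt Y (-(((‖X t‖ ^ (p - 2) : ℝ) : ℂ) * X t)) t
  energy : ∀ t, ‖X t‖ ^ p / p + ‖Y t‖ ^ (cq p) / cq p = 1
  mom : ∀ t, ((starRingEnd ℂ) (X t) * Y t).im = c

/-! ### statements about solutions -/

def S_PHASE : Prop := ∀ p : ℝ, 2 < p → ∃ Z H : ℝ → ℝ, IsPhase p Z H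

def S_ORBIT : Prop := ∀ (p : ℝ), 2 < p → ∀ (Z H : ℝ → ℝ), IsPhase p Z H →
  ∀ c ∈ Ioo (0:ℝ) 1, ∀ N M : ℕ, 0 < N → N * Th H c = 2 * π * M →
  ∃ X Y : ℝ → ℂ, IsSol p c X Y ∧ ∀ t, X (t + N * T H c) = X t

/-- the phase of a solution -/
def S_LIFT : Prop := ∀ (p : ℝ), 2 < p → ∀ (Z H : ℝ → ℝ), IsPhase p Z H →
  ∀ c ∈ Ico (0:ℝ) 1, ∀ X Y : ℝ → ℂ, IsSol p c X Y →
  ∃ ψ : ℝ → ℝ, (∀ t, HasDerivAt ψ (H (kap c * cos (ψ t))) t) ∧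
    (∀ t, ‖X t‖ ^ p / p = Z (kap c * cos (ψ t))) ∧
    ∀ t, ((starRingEnd ℂ) (X t) * Y t).re = kap c * sin (ψ t)

/-- counting periods -/
def S_COUNT : Prop := ∀ (H : ℝ → ℝ), ContinuousOn H (Icc (-1) 1) → (∀ w ∈ Icc (-1:ℝ) 1, 0 < H w) →
  ∀ k ∈ Ioc (0:ℝ) 1, ∀ ψ : ℝ → ℝ, (∀ t, HasDerivAt ψ (H (k * cos (ψ t))) t) →
  ∀ P : ℝ, 0 < P → (∀ t, cos (ψ (t + P)) = cos (ψ t)) → (∀ t, sin (ψ (t + P)) = sin (ψ t)) →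
  ∃ N : ℕ, 0 < N ∧ (∀ t, ψ (t + P) = ψ t + 2 * π * N) ∧
    ∀ f : ℝ → ℝ, Continuous f → (∀ s, f (s + 2 * π) = f s) →
      ∫ t in (0:ℝ)..P, f (ψ t) = N * ∫ s in (0:ℝ)..(2 * π), f s / H (k * cos s)

def S_CLASS : Prop := ∀ (p : ℝ), 2 < p → ∀ (Z H : ℝ → ℝ), IsPhase p Z H →
  ∀ c ∈ Ioo (0:ℝ) 1, ∀ X Y : ℝ → ℂ, IsSol p c X Y → ∀ P : ℝ, 0 < P → (∀ t, X (t + P) = X t) →
  ∃ N M : ℕ, 0 < N ∧ 0 < M ∧ N * Th H c = 2 * π * M ∧ P = N * T H c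

def S_LINE : Prop := ∀ (p : ℝ), 2 < p → ∀ (Z H : ℝ → ℝ), IsPhase p Z H →
  ∀ X Y : ℝ → ℂ, IsSol p 0 X Y → ∀ P : ℝ, 0 < P → (∀ t, X (t + P) = X t) →
  ∃ N : ℕ, 0 < N ∧ P = N * T H 0

def S_CIRC : Prop := ∀ (p : ℝ), 2 < p →
  (∀ (c : ℝ) (X Y : ℝ → ℂ), IsSol p c X Y → |c| ≤ 1) ∧
  (∀ (c : ℝ) (X Y : ℝ → ℂ), IsSol p c X Y →
    IsSol p (-c) (fun t => (starRingEnd ℂ) (X t)) (fun t => (starRingEnd ℂ) (Y t))) ∧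
  (∀ X Y : ℝ → ℂ, IsSol p 1 X Y → ∀ P : ℝ, 0 < P → (∀ t, X (t + P) = X t) →
    ∃ N : ℕ, 0 < N ∧ P = 2 * π * N)

/-! ### statements about `F` -/

def S_FT : Prop := ∀ (p : ℝ), 2 < p → ∀ (Z H : ℝ → ℝ), IsPhase p Z H →
  ∀ c ∈ Ico (0:ℝ) 1, F p c = T H c - c * Th H c

def S_FD : Prop := ∀ (p : ℝ), 2 < p → ∀ (Z H : ℝ → ℝ), IsPhase p Z H →
  ∀ c ∈ Ioo (0:ℝ) 1, HasDerivAt (F p) (-Th H c) c

/-- joint continuity of `F` -/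
def S_CONT : Prop :=
  ContinuousOn (fun x : ℝ × ℝ => F x.1 x.2) (Icc (3:ℝ) 1000 ×ˢ Icc (0:ℝ) 1)

/-- `b(t) = 1/(e^t-1) - 1/t + 1/2` -/
def bb (t : ℝ) : ℝ := 1 / (Real.exp t - 1) - 1 / t + 1 / 2

/-- `g(τ) = (b(pτ) + b(qτ) - 2 b(2τ))/τ` -/
def gg (p τ : ℝ) : ℝ := (bb (p * τ) + bb (cq p * τ) - 2 * bb (2 * τ)) / τ

/-- `K(σ) = Γ(σ/p) Γ(σ/q) / Γ(σ/2)² · (p^{1/p} q^{1/q} / 2)^σ` -/
def KK (p σ : ℝ) : ℝ :=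
  Real.Gamma (σ / p) * Real.Gamma (σ / cq p) / Real.Gamma (σ / 2) ^ 2 *
    (p ^ (1 / p) * cq p ^ (1 / cq p) / 2) ^ σ

def S_BIN : Prop := ∀ p : ℝ, 2 < p →
  (∀ τ ∈ Ioi (0:ℝ), 0 ≤ gg p τ) ∧ IntegrableOn (gg p) (Ioi 0) ∧
  (∫ τ in Ioi (0:ℝ), gg p τ = Real.log (√(p * cq p) / 2)) ∧
  ∀ σ : ℝ, 0 < σ → KK p σ = √(p * cq p) / 2 * Real.exp (∫ τ in Ioi (0:ℝ), gg p τ * Real.exp (-(σ * τ)))

def S_MOM : Prop := ∀ p : ℝ, 2 < p → ∀ n : ℕ,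
  ∫ c in (0:ℝ)..1, c ^ n * F p c =
    4 * π / (p * cq p * ((n:ℝ) + 2) * ((n:ℝ) + 1)) * KK p ((n:ℝ) + 2)

def S_REP : Prop := ∀ p ∈ Icc (3:ℝ) 1000,
  ConvexOn ℝ (Icc 0 1) (F p) ∧
  (∀ c ∈ Icc (0:ℝ) 1, 2 * π / √(p * cq p) * (1 - c) ≤ F p c) ∧
  (∀ c ∈ Icc (0:ℝ) 1, F p 0 - π * c ≤ F p c) ∧
  (∀ ε > (0:ℝ), ∃ c ∈ Ioo (0:ℝ) 1, F p c < F p 0 - (π - ε) * c) ∧
  (∀ ε > (0:ℝ), ∃ c ∈ Ioo (0:ℝ) 1, F p c < (2 * π / √(p * cq p) + ε) * (1 - c))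

/-- special values -/
def S_NUM : Prop :=
  (∀ p : ℝ, 2 < p → F p 0 = 2 * π * (p - 1) ^ (1 / p) / (p * sin (π / p))) ∧
  (∀ p : ℝ, 2 < p → ∀ c ∈ Icc (0:ℝ) 1, 2 * (√(1 - c ^ 2) - c * arccos c) ≤ F p c)

/-- numerical consequences -/
def S_NUM2 : Prop :=
  (∀ p ∈ Icc (9:ℝ) 10, 25 * p ^ 2 = 256 * (p - 1) → 25 / 31 * π < F p 0) ∧
  F 1000 0 < 2.03 ∧
  (∀ c ∈ Icc (0:ℝ) 1, 32 * sin (5 * π / 16) ≤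
      16 * (2 * (√(1 - c ^ 2) - c * arccos c)) + 10 * π * c) ∧
  (26.5 : ℝ) < 32 * sin (5 * π / 16)

/-! ### the original problem -/

/-- the plane with the Euclidean norm -/
abbrev E2 := EuclideanSpace ℝ (Fin 2)

/-- `φ_p(z) = ‖z‖^{p-2} z` -/
def phi (p : ℝ) (z : E2) : E2 := ‖z‖ ^ (p - 2) • z

/-- `x` is an eigenfunction for `Λ`: a nonzero 1-periodic `C¹` function with `φ_p(x')` of class `C¹`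
and `(φ_p(x'))' + Λ φ_p(x) = 0` -/
structure IsEig (p Λ : ℝ) (x : ℝ → E2) : Prop where
  nonzero : ∃ t, x t ≠ 0
  periodic : ∀ t, x (t + 1) = x t
  smooth : ContDiff ℝ 1 x
  smooth' : ContDiff ℝ 1 (fun t => phi p (deriv x t))
  eq : ∀ t, deriv (fun s => phi p (deriv x s)) t + Λ • phi p (x t) = 0

/-- the energy `λ^p ‖x‖^p/p + ‖y‖^q/q` at time `t`, `y = φ_p(x')` -/
def energy (p lam : ℝ) (x : ℝ → E2) (t : ℝ) : ℝ :=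
  lam ^ p * ‖x t‖ ^ p / p + ‖phi p (deriv x t)‖ ^ (cq p) / cq p

/-- the angular momentum `x₁ y₂ - x₂ y₁` at time `t`, `y = φ_p(x')` -/
def angMom (p : ℝ) (x : ℝ → E2) (t : ℝ) : ℝ :=
  x t 0 * phi p (deriv x t) 1 - x t 1 * phi p (deriv x t) 0

/-- the scaling momentum `|μ| λ / h` -/
def scalMom (p lam : ℝ) (x : ℝ → E2) (t : ℝ) : ℝ := |angMom p x t| * lam / energy p lam x t

/-- from eigenfunctions to normalised solutions -/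
def S_TR1 : Prop := ∀ (p lam : ℝ) (x : ℝ → E2), 2 < p → 0 < lam → IsEig p (lam ^ p) x →
  ∃ (c : ℝ) (X Y : ℝ → ℂ), IsSol p c X Y ∧ (∀ t, X (t + lam) = X t) ∧
    ∀ t, scalMom p lam x t = |c|

/-- from normalised solutions to eigenfunctions -/
def S_TR2 : Prop := ∀ (p lam c : ℝ) (X Y : ℝ → ℂ), 2 < p → 0 < lam → IsSol p c X Y →
  (∀ t, X (t + lam) = X t) →
  ∃ x : ℝ → E2, IsEig p (lam ^ p) x ∧ ∀ t, scalMom p lam x t = |c|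

end Pool.Agent.NH65.PL
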