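import Mathlib
import Pool.Agent.NH65.PL.Stm

/-!
# Joint continuity of the radial action `F`
-/

set_option autoImplicit false

noncomputable section

namespace Pool.Agent.NH65.PL.Cont

open Real Set MeasureTheory Filter Topology
open Pool.Agent.NH65.PL

lemma cq_bounds {p : ℝ} (hp : 3 ≤ p) : 1 < cq p ∧ cq p ≤ 3 / 2 := by
  unfold cq
  constructor
  · rw [lt_div_iff₀ (by linarith)]; linarith
  · rw [div_le_iff₀ (by linarith)]; linarith

lemma bound {p c z : ℝ} (hp : 3 ≤ p) (hp' : p ≤ 1000) (hz : 0 < z) (hz1 : z ≤ 1) :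
    ‖√((G p z) ^ 2 - c ^ 2) / (p * z)‖ ≤ 2 * z ^ (1 / 1000 - 1 : ℝ) := by
  obtain ⟨hq1, hq2⟩ := cq_bounds hp
  have hpz : 0 < p * z := by positivity
  have hG0 : 0 ≤ G p z := by
    unfold G
    exact mul_nonneg (rpow_nonneg hpz.le _) (rpow_nonneg (mul_nonneg (by linarith) (by linarith)) _)
  rw [norm_of_nonneg (div_nonneg (sqrt_nonneg _) hpz.le)]
  have h1 : √((G p z) ^ 2 - c ^ 2) ≤ G p z := by
    rw [sqrt_le_left hG0]
    nlinarith [sq_nonneg c]
  have h2 : (cq p * (1 - z)) ^ (1 / cq p) ≤ 2 := by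
    have h3 : (cq p * (1 - z)) ^ (1 / cq p) ≤ (2 : ℝ) ^ (1 / cq p) := by
      apply rpow_le_rpow (mul_nonneg (by linarith) (by linarith)) _ (by positivity)
      nlinarith
    have h4 : (2 : ℝ) ^ (1 / cq p) ≤ (2 : ℝ) ^ (1 : ℝ) := by
      apply rpow_le_rpow_of_exponent_le (by norm_num)
      rw [div_le_one (by linarith)]
      exact hq1.le
    calc _ ≤ _ := h3
      _ ≤ _ := h4
      _ = 2 := by norm_num
  have h5 : (p * z) ^ (1 / p) / (p * z) ≤ z ^ (1 / 1000 - 1 : ℝ) := by
    have h6 : (p * z) ^ (1 / p) / (p * z) = (p * z) ^ (1 / p - 1) := by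
      rw [rpow_sub hpz, rpow_one]
    rw [h6, mul_rpow (by linarith) hz.le]
    have h7 : p ^ (1 / p - 1) ≤ 1 := by
      apply rpow_le_one_of_one_le_of_nonpos (by linarith)
      have : 1 / p ≤ 1 := by rw [div_le_one (by linarith)]; linarith
      linarith
    have h8 : z ^ (1 / p - 1) ≤ z ^ (1 / 1000 - 1 : ℝ) := by
      apply rpow_le_rpow_of_exponent_ge hz hz1
      have : 1 / 1000 ≤ 1 / p := by
        apply one_div_le_one_div_of_le (by linarith) hp'
      linarith
    calc p ^ (1 / p - 1) * z ^ (1 / p - 1) ≤ 1 * z ^ (1 / 1000 - 1 : ℝ) := by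
          apply mul_le_mul h7 h8 (rpow_nonneg hz.le _) (by norm_num)
      _ = _ := one_mul _
  calc √((G p z) ^ 2 - c ^ 2) / (p * z) ≤ G p z / (p * z) := by
        apply div_le_div_of_nonneg_right h1 hpz.le
    _ = (cq p * (1 - z)) ^ (1 / cq p) * ((p * z) ^ (1 / p) / (p * z)) := by
        unfold G; ring
    _ ≤ 2 * z ^ (1 / 1000 - 1 : ℝ) := by
        apply mul_le_mul h2 h5 (div_nonneg (rpow_nonneg hpz.le _) hpz.le) (by norm_num)

theorem cont : S_CONT := by
  unfold S_CONT
  have key : ContinuousOn (fun x : ℝ × ℝ => ∫ z in Ioc (0:ℝ) 1,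
      √((G x.1 z) ^ 2 - x.2 ^ 2) / (x.1 * z)) (Icc (3:ℝ) 1000 ×ˢ Icc (0:ℝ) 1) := by
    apply continuousOn_of_dominated (bound := fun z => 2 * z ^ (1 / 1000 - 1 : ℝ))
    · intro x _
      apply Measurable.aestronglyMeasurable
      unfold G
      fun_prop
    · intro x hx
      rw [ae_restrict_iff' measurableSet_Ioc]
      refine Eventually.of_forall fun z hz => ?_
      exact bound hx.1.1 hx.1.2 hz.1 hz.2
    · apply Integrable.const_mul
      have h := (intervalIntegral.intervalIntegrable_rpow' (a := 0) (b := 1)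
        (r := (1 / 1000 - 1 : ℝ)) (by norm_num))
      exact (intervalIntegrable_iff_integrableOn_Ioc_of_le (by norm_num)).1 h
    · rw [ae_restrict_iff' measurableSet_Ioc]
      refine Eventually.of_forall fun z hz => ?_
      have hp0 : ∀ x ∈ (Icc (3:ℝ) 1000 ×ˢ Icc (0:ℝ) 1), x.1 ≠ 0 := by
        intro x hx
        have := hx.1.1
        linarith
      have hp1 : ∀ x ∈ (Icc (3:ℝ) 1000 ×ˢ Icc (0:ℝ) 1), x.1 - 1 ≠ 0 := by
        intro x hx
        have := hx.1.1
        intro h
        linarith
      have hq0 : ∀ x ∈ (Icc (3:ℝ) 1000 ×ˢ Icc (0:ℝ) 1), cq x.1 ≠ 0 := by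
        intro x hx
        have := (cq_bounds hx.1.1).1
        linarith
      have hcq : ContinuousOn (fun x : ℝ × ℝ => cq x.1) (Icc (3:ℝ) 1000 ×ˢ Icc (0:ℝ) 1) := by
        unfold cq
        exact continuousOn_fst.div (continuousOn_fst.sub continuousOn_const) hp1
      have hG : ContinuousOn (fun x : ℝ × ℝ => G x.1 z) (Icc (3:ℝ) 1000 ×ˢ Icc (0:ℝ) 1) := by
        unfold G
        apply ContinuousOn.mul
        · apply ContinuousOn.rpow
          · exact continuousOn_fst.mul continuousOn_const
          · exact continuousOn_const.div continuousOn_fst hp0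
          · intro x hx
            left
            have := hx.1.1
            have := hz.1
            positivity
        · apply ContinuousOn.rpow
          · exact hcq.mul continuousOn_const
          · exact continuousOn_const.div hcq hq0
          · intro x hx
            right
            have := (cq_bounds hx.1.1).1
            positivity
      apply ContinuousOn.div
      · apply ContinuousOn.sqrt
        exact (hG.pow 2).sub (continuousOn_snd.pow 2)
      · exact continuousOn_fst.mul continuousOn_const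
      · intro x hx
        have := hx.1.1
        have := hz.1
        positivity
  have h2 : ∀ x : ℝ × ℝ, F x.1 x.2 = 2 * ∫ z in Ioc (0:ℝ) 1,
      √((G x.1 z) ^ 2 - x.2 ^ 2) / (x.1 * z) := by
    intro x
    unfold F
    rw [intervalIntegral.integral_of_le (by norm_num)]
  simp only [h2]
  exact key.const_smul (2:ℝ) |>.congr (fun x _ => by simp)

end Pool.Agent.NH65.PL.Cont
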