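import Pool.Agent.NH65.PL.Stm

/-!
# Project PL, module PL4: counting periods
-/

set_option autoImplicit false

noncomputable section

namespace Pool.Agent.NH65.PL.Count

open Real Set MeasureTheory Filter Topology Pool.Agent.NH65.PL

theorem mem_kcos {k : ℝ} (hk : k ∈ Ioc (0:ℝ) 1) (s : ℝ) : k * cos s ∈ Icc (-1:ℝ) 1 := by
  have h1 : |k * cos s| ≤ 1 := by
    rw [abs_mul, abs_of_pos hk.1]
    exact mul_le_one₀ hk.2 (abs_nonneg _) (abs_cos_le_one s)
  exact abs_le.1 h1

theorem cont_kcos {H : ℝ → ℝ} (hH : ContinuousOn H (Icc (-1) 1)) {k : ℝ} (hk : k ∈ Ioc (0:ℝ) 1) :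
    Continuous (fun s => H (k * cos s)) :=
  hH.comp_continuous (continuous_const.mul continuous_cos) (mem_kcos hk)

theorem count : S_COUNT := by
  intro H hH hpos k hk ψ hψ P hP hcos hsin
  have hcont : Continuous (fun s => H (k * cos s)) := cont_kcos hH hk
  have hp : ∀ s, 0 < H (k * cos s) := fun s => hpos _ (mem_kcos hk s)
  have hmono : StrictMono ψ := strictMono_of_deriv_pos (fun t => by
    rw [(hψ t).deriv]
    exact hp _)
  -- the difference is constant
  have hconst : ∀ t, ψ (t + P) - ψ t = ψ (0 + P) - ψ 0 := by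
    intro t
    have hd : ∀ t, HasDerivAt (fun t => ψ (t + P) - ψ t) 0 t := by
      intro t
      have h1 : HasDerivAt (fun t => ψ (t + P)) (H (k * cos (ψ (t + P)))) t :=
        (hψ (t + P)).comp_add_const t P
      have h2 := h1.sub (hψ t)
      rw [hcos t, sub_self] at h2
      exact h2
    exact is_const_of_deriv_eq_zero (fun t => (hd t).differentiableAt) (fun t => (hd t).deriv) t 0
  obtain ⟨n, hn⟩ : ∃ n : ℤ, ψ (0 + P) - ψ 0 = 2 * π * n := by
    have h1 : ((ψ (0 + P) : ℝ) : Real.Angle) = ((ψ 0 : ℝ) : Real.Angle) :=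
      Real.Angle.cos_sin_inj (hcos 0) (hsin 0)
    exact Real.Angle.angle_eq_iff_two_pi_dvd_sub.1 h1
  have hn0 : 0 < n := by
    have h1 : ψ 0 < ψ (0 + P) := hmono (by linarith)
    have h2 : 0 < 2 * π * n := by rw [← hn]; linarith
    have h3 : (0:ℝ) < n := pos_of_mul_pos_right h2 (by positivity)
    exact_mod_cast h3
  obtain ⟨N, rfl⟩ : ∃ N : ℕ, n = (N : ℤ) := ⟨n.toNat, (Int.toNat_of_nonneg hn0.le).symm⟩
  have hN : 0 < N := by exact_mod_cast hn0
  have hall : ∀ t, ψ (t + P) = ψ t + 2 * π * N := by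
    intro t
    have h1 := hconst t
    rw [hn] at h1
    push_cast at h1
    linarith
  refine ⟨N, hN, hall, ?_⟩
  intro f hf hper
  set g : ℝ → ℝ := fun s => f s / H (k * cos s) with hg
  have hgc : Continuous g := hf.div hcont (fun s => (hp s).ne')
  have hgp : Function.Periodic g (2 * π) := by
    intro s
    show f (s + 2 * π) / H (k * cos (s + 2 * π)) = f s / H (k * cos s)
    rw [hper, cos_add_two_pi]
  have hψc : Continuous ψ := continuous_iff_continuousAt.2 (fun t => (hψ t).continuousAt)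
  have h1 : ∫ t in (0:ℝ)..P, f (ψ t) = ∫ t in (0:ℝ)..P, (g ∘ ψ) t * H (k * cos (ψ t)) := by
    refine intervalIntegral.integral_congr (fun t _ => ?_)
    show f (ψ t) = f (ψ t) / H (k * cos (ψ t)) * H (k * cos (ψ t))
    rw [div_mul_cancel₀ _ (hp _).ne']
  have h2 : ∫ t in (0:ℝ)..P, (g ∘ ψ) t * H (k * cos (ψ t)) = ∫ u in ψ 0..ψ P, g u :=
    intervalIntegral.integral_comp_mul_deriv (fun t _ => hψ t)
      (hcont.comp hψc).continuousOn hgc
  have h3 : ψ P = ψ 0 + (N : ℤ) • (2 * π) := by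
    have h4 := hall 0
    rw [zero_add] at h4
    rw [h4, zsmul_eq_mul]
    push_cast
    ring
  rw [h1, h2, h3, hgp.intervalIntegral_add_zsmul_eq (N : ℤ) (ψ 0)
    (fun a b => hgc.intervalIntegrable a b), hgp.intervalIntegral_add_eq (ψ 0) 0, zero_add,
    zsmul_eq_mul]
  push_cast
  rfl

end Pool.Agent.NH65.PL.Count
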