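import Pool.Agent.NH65.PL.Phase

/-!
PL7: `F = T - c Th` and `F' = -Th`.
-/

set_option autoImplicit false

noncomputable section

namespace Pool.Agent.NH65.PL.FTh

open Real Set MeasureTheory Filter Topology

variable {p : ℝ} {Z H : ℝ → ℝ}

/-! ### elementary facts -/

lemma kap_sq {c : ℝ} (h : c ∈ Icc (0 : ℝ) 1) : kap c ^ 2 = 1 - c ^ 2 :=
  Real.sq_sqrt (by nlinarith [h.1, h.2])

lemma kap_nonneg (c : ℝ) : 0 ≤ kap c := Real.sqrt_nonneg _

lemma kap_pos {c : ℝ} (h : c ∈ Ico (0 : ℝ) 1) : 0 < kap c :=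
  Real.sqrt_pos.2 (by nlinarith [h.1, h.2])

lemma kap_le_one (c : ℝ) : kap c ≤ 1 := by
  unfold kap
  rw [Real.sqrt_le_left (by norm_num)]
  nlinarith [sq_nonneg c]

lemma cont_kap : Continuous kap := by
  unfold kap
  fun_prop

lemma kcos_mem (c s : ℝ) : kap c * cos s ∈ Icc (-1 : ℝ) 1 := by
  have h1 := kap_nonneg c
  have h2 := kap_le_one c
  have h3 := Real.abs_cos_le_one s
  have h4 : |kap c * cos s| ≤ 1 := by
    rw [abs_mul, abs_of_nonneg h1]
    exact mul_le_one₀ h2 (abs_nonneg _) h3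
  exact abs_le.1 h4

lemma sin_pos' {s : ℝ} (hs : s ∈ Ioo (0 : ℝ) π) : 0 < sin s := Real.sin_pos_of_mem_Ioo hs

lemma kcos_mem' (c : ℝ) {s : ℝ} (hs : s ∈ Ioo (0 : ℝ) π) : kap c * cos s ∈ Ioo (-1 : ℝ) 1 := by
  have h1 := kap_nonneg c
  have h2 := kap_le_one c
  have h3 := sin_pos' hs
  have h5 : cos s ^ 2 < 1 := by
    have := Real.sin_sq_add_cos_sq s
    nlinarith
  have h4 : (kap c * cos s) ^ 2 < 1 := by
    have h6 : kap c ^ 2 ≤ 1 := by nlinarith
    rw [mul_pow]
    nlinarith [sq_nonneg (cos s), sq_nonneg (kap c)]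
  exact abs_lt.1 ((sq_lt_one_iff_abs_lt_one _).1 h4)

lemma one_sub_w {c : ℝ} (h : c ∈ Icc (0 : ℝ) 1) (s : ℝ) :
    1 - (kap c * cos s) ^ 2 = c ^ 2 + kap c ^ 2 * sin s ^ 2 := by
  have h1 := kap_sq h
  have h2 := Real.sin_sq_add_cos_sq s
  have h3 : cos s ^ 2 = 1 - sin s ^ 2 := by linarith
  rw [mul_pow, h3]
  linear_combination -h1

lemma Z_mem (hP : IsPhase p Z H) {w : ℝ} (hw : w ∈ Ioo (-1 : ℝ) 1) : Z w ∈ Ioo (0 : ℝ) 1 := by
  have hw' : w ∈ Icc (-1 : ℝ) 1 := ⟨hw.1.le, hw.2.le⟩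
  have h1 := hP.anti hw' (b := 1) ⟨by norm_num, le_rfl⟩ hw.2
  have h2 := hP.anti (a := -1) ⟨le_rfl, by norm_num⟩ hw' hw.1
  rw [hP.Z1] at h1
  rw [hP.Zm1] at h2
  exact ⟨h1, h2⟩

lemma Z_surj (hP : IsPhase p Z H) {z : ℝ} (hz : z ∈ Icc (0 : ℝ) 1) :
    ∃ w ∈ Icc (-1 : ℝ) 1, Z w = z := by
  have h := intermediate_value_Icc' (by norm_num : (-1 : ℝ) ≤ 1) hP.contZ
  rw [hP.Z1, hP.Zm1] at h
  exact h hz

/-- `q (1 - Z) / H = 1/H + w/p` -/
lemma q_id (hp : 2 < p) (hP : IsPhase p Z H) {w : ℝ} (hw : w ∈ Icc (-1 : ℝ) 1) :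
    cq p * (1 - Z w) / H w = 1 / H w + w / p := by
  have h1 := hP.eqH w hw
  have h2 := (hP.posH w hw).ne'
  have h3 : p ≠ 0 := by linarith
  have h4 := Phase.p_add hp
  have h5 : cq p * (1 - Z w) * p = p + w * H w := by
    rw [h1]
    linear_combination -h4
  field_simp
  linear_combination h5

/-! ### the substitution -/

/-- the derivative of `s ↦ Z (k cos s)` -/
def D (p : ℝ) (Z H : ℝ → ℝ) (c s : ℝ) : ℝ :=
  -(p * cq p * Z (kap c * cos s) * (1 - Z (kap c * cos s))) /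
    ((1 - (kap c * cos s) ^ 2) * H (kap c * cos s)) * (-(kap c * sin s))

lemma hasDeriv_phi (hP : IsPhase p Z H) (c : ℝ) {s : ℝ} (hs : s ∈ Ioo (0 : ℝ) π) :
    HasDerivAt (fun s => Z (kap c * cos s)) (D p Z H c s) s := by
  have h1 := hP.deriv _ (kcos_mem' c hs)
  have h2 : HasDerivAt (fun s => kap c * cos s) (-(kap c * sin s)) s := by
    have := (Real.hasDerivAt_cos s).const_mul (kap c)
    refine this.congr_deriv ?_
    ring
  exact h1.comp s h2

lemma injOn_phi (hP : IsPhase p Z H) {c : ℝ} (hc : c ∈ Ico (0 : ℝ) 1) :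
    InjOn (fun s => Z (kap c * cos s)) (Ioo (0 : ℝ) π) := by
  intro x hx y hy hxy
  have h1 := hP.anti.injOn (kcos_mem c x) (kcos_mem c y) hxy
  have h2 := mul_left_cancel₀ (kap_pos hc).ne' h1
  exact Real.injOn_cos ⟨hx.1.le, hx.2.le⟩ ⟨hy.1.le, hy.2.le⟩ h2

lemma image_phi (hP : IsPhase p Z H) {c : ℝ} (hc : c ∈ Ico (0 : ℝ) 1) :
    (fun s => Z (kap c * cos s)) '' Ioo (0 : ℝ) π = Ioo (Z (kap c)) (Z (-kap c)) := by
  have hk := kap_pos hc
  have e0 : kap c * cos 0 = kap c := by rw [Real.cos_zero, mul_one]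
  have eπ : kap c * cos π = -kap c := by rw [Real.cos_pi]; ring
  have m0 : kap c ∈ Icc (-1 : ℝ) 1 := by have := kcos_mem c 0; rwa [e0] at this
  have mπ : -kap c ∈ Icc (-1 : ℝ) 1 := by have := kcos_mem c π; rwa [eπ] at this
  apply Subset.antisymm
  · rintro _ ⟨s, hs, rfl⟩
    have h1 : cos s < 1 := by
      have := Real.strictAntiOn_cos (a := 0) (b := s) ⟨le_rfl, Real.pi_pos.le⟩
        ⟨hs.1.le, hs.2.le⟩ hs.1
      rwa [Real.cos_zero] at this
    have h2 : -1 < cos s := by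
      have := Real.strictAntiOn_cos (a := s) (b := π) ⟨hs.1.le, hs.2.le⟩
        ⟨Real.pi_pos.le, le_rfl⟩ hs.2
      rwa [Real.cos_pi] at this
    constructor
    · exact hP.anti (kcos_mem c s) m0 (by nlinarith)
    · exact hP.anti mπ (kcos_mem c s) (by nlinarith)
  · have hcont : ContinuousOn (fun s => Z (kap c * cos s)) (Icc 0 π) := by
      refine hP.contZ.comp (by fun_prop) ?_
      intro s _
      exact kcos_mem c s
    have h := intermediate_value_Ioo Real.pi_pos.le hcont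
    simp only [e0, eπ] at h
    exact h

lemma subst (hP : IsPhase p Z H) {c : ℝ} (hc : c ∈ Ico (0 : ℝ) 1) (g : ℝ → ℝ) :
    ∫ z in Ioo (Z (kap c)) (Z (-kap c)), g z =
      ∫ s in Ioo (0 : ℝ) π, |D p Z H c s| * g (Z (kap c * cos s)) := by
  rw [← image_phi hP hc]
  exact integral_image_eq_integral_abs_deriv_smul measurableSet_Ioo
    (fun s hs => (hasDeriv_phi hP c hs).hasDerivWithinAt) (injOn_phi hP hc) g

lemma subst_int (hP : IsPhase p Z H) {c : ℝ} (hc : c ∈ Ico (0 : ℝ) 1) (g : ℝ → ℝ) :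
    IntegrableOn g (Ioo (Z (kap c)) (Z (-kap c))) ↔
      IntegrableOn (fun s => |D p Z H c s| * g (Z (kap c * cos s))) (Ioo (0 : ℝ) π) := by
  rw [← image_phi hP hc]
  exact integrableOn_image_iff_integrableOn_abs_deriv_smul measurableSet_Ioo
    (fun s hs => (hasDeriv_phi hP c hs).hasDerivWithinAt) (injOn_phi hP hc) g

/-- `E(s) = 1/H + w/p` -/
def E (p : ℝ) (H : ℝ → ℝ) (c s : ℝ) : ℝ := 1 / H (kap c * cos s) + kap c * cos s / p

lemma abs_D (hp : 2 < p) (hP : IsPhase p Z H) {c : ℝ} (hc : c ∈ Ico (0 : ℝ) 1) {s : ℝ}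
    (hs : s ∈ Ioo (0 : ℝ) π) : |D p Z H c s| =
      p * Z (kap c * cos s) * E p H c s * (kap c * sin s) / (c ^ 2 + kap c ^ 2 * sin s ^ 2) := by
  have hc' : c ∈ Icc (0 : ℝ) 1 := ⟨hc.1, hc.2.le⟩
  have hw := kcos_mem' c hs
  have hw' := kcos_mem c s
  have hZ := Z_mem hP hw
  have hk := kap_pos hc
  have hsin := sin_pos' hs
  have hH := hP.posH _ hw'
  have hq := Phase.cq_pos hp
  have h1 : 0 < 1 - (kap c * cos s) ^ 2 := by nlinarith [hw.1, hw.2]
  rw [E, ← q_id hp hP hw', ← one_sub_w hc' s]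
  set w := kap c * cos s with hwdef
  have hD : D p Z H c s = p * Z w * (cq p * (1 - Z w) / H w) * (kap c * sin s) / (1 - w ^ 2) := by
    unfold D
    rw [← hwdef]
    field_simp
  rw [hD]
  refine abs_of_nonneg ?_
  have h2 : 0 < 1 - Z w := by linarith [hZ.2]
  have h3 : 0 < Z w := hZ.1
  positivity

/-! ### the region of integration -/

lemma region (hP : IsPhase p Z H) {c : ℝ} (hc : c ∈ Ico (0 : ℝ) 1) {z : ℝ}
    (hz : z ∈ Ioo (0 : ℝ) 1 \ Ioo (Z (kap c)) (Z (-kap c))) : √(G p z ^ 2 - c ^ 2) = 0 := by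
  obtain ⟨w, hw, rfl⟩ := Z_surj hP ⟨hz.1.1.le, hz.1.2.le⟩
  have hG := hP.eqG w hw
  have hk := kap_pos hc
  have hk2 := kap_sq (c := c) ⟨hc.1, hc.2.le⟩
  have hk1 := kap_le_one c
  refine Real.sqrt_eq_zero_of_nonpos ?_
  rw [hG]
  have h2 : ¬ (w < kap c ∧ -kap c < w) := by
    rintro ⟨h3, h4⟩
    apply hz.2
    exact ⟨hP.anti hw ⟨by linarith, hk1⟩ h3, hP.anti ⟨by linarith, by linarith⟩ hw h4⟩
  by_contra h5
  apply h2
  have h6 : w ^ 2 < kap c ^ 2 := by linarith
  have h7 := abs_lt_of_sq_lt_sq h6 hk.le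
  rw [abs_lt] at h7
  exact ⟨h7.2, h7.1⟩

lemma region_sub (hP : IsPhase p Z H) {c : ℝ} (hc : c ∈ Ico (0 : ℝ) 1) :
    Ioo (Z (kap c)) (Z (-kap c)) ⊆ Ioo (0 : ℝ) 1 := by
  rw [← image_phi hP hc]
  rintro _ ⟨s, hs, rfl⟩
  exact Z_mem hP (kcos_mem' c hs)

/-- for `s` in `(0,π)`: `√(G² - c²) = k sin s` -/
lemma sqrt_eq (hP : IsPhase p Z H) {c : ℝ} (hc : c ∈ Ico (0 : ℝ) 1) {s : ℝ}
    (hs : s ∈ Ioo (0 : ℝ) π) : √(G p (Z (kap c * cos s)) ^ 2 - c ^ 2) = kap c * sin s := by
  have hc' : c ∈ Icc (0 : ℝ) 1 := ⟨hc.1, hc.2.le⟩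
  rw [hP.eqG _ (kcos_mem c s), one_sub_w hc']
  have h1 : c ^ 2 + kap c ^ 2 * sin s ^ 2 - c ^ 2 = (kap c * sin s) ^ 2 := by ring
  rw [h1, Real.sqrt_sq (mul_nonneg (kap_nonneg c) (sin_pos' hs).le)]

/-! ### symmetrisation -/

lemma cont_Hk (hP : IsPhase p Z H) (c : ℝ) : Continuous fun s => H (kap c * cos s) := by
  have : Continuous fun s : ℝ => kap c * cos s := by fun_prop
  exact hP.contH.comp_continuous this fun s => kcos_mem c s

lemma cont_invH (hP : IsPhase p Z H) (c : ℝ) : Continuous fun s => 1 / H (kap c * cos s) :=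
  continuous_const.div (cont_Hk hP c) fun s => (hP.posH _ (kcos_mem c s)).ne'

lemma sym (hP : IsPhase p Z H) (c : ℝ) {r : ℝ → ℝ} (hr : Continuous r)
    (h1 : ∀ s, r (π - s) = r s) (h2 : ∀ s, r (2 * π - s) = r s) :
    2 * ∫ s in Ioo (0 : ℝ) π, r s * E p H c s =
      ∫ s in (0 : ℝ)..(2 * π), r s / H (kap c * cos s) := by
  have hπ := Real.pi_pos
  have cH := cont_invH hP c
  rw [← integral_Ioc_eq_integral_Ioo, ← intervalIntegral.integral_of_le hπ.le]
  have e1 : ∫ s in (0 : ℝ)..π, r s * E p H c s =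
      (∫ s in (0 : ℝ)..π, r s / H (kap c * cos s)) + ∫ s in (0 : ℝ)..π, r s * (kap c * cos s / p) := by
    rw [← intervalIntegral.integral_add]
    · refine intervalIntegral.integral_congr fun s _ => ?_
      simp only [E]
      ring
    · have : Continuous fun s => r s / H (kap c * cos s) :=
        hr.div (cont_Hk hP c) fun s => (hP.posH _ (kcos_mem c s)).ne'
      exact this.intervalIntegrable _ _
    · exact (hr.mul (by fun_prop)).intervalIntegrable _ _
  have e2 : ∫ s in (0 : ℝ)..π, r s * (kap c * cos s / p) = 0 := by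
    have h := intervalIntegral.integral_comp_sub_left (a := 0) (b := π)
      (fun s => r s * (kap c * cos s / p)) π
    simp only [h1, Real.cos_pi_sub, sub_self, sub_zero] at h
    have h3 : ∫ s in (0 : ℝ)..π, r s * (kap c * -cos s / p) =
        -∫ s in (0 : ℝ)..π, r s * (kap c * cos s / p) := by
      rw [← intervalIntegral.integral_neg]
      refine intervalIntegral.integral_congr fun s _ => ?_
      ring
    rw [h3] at h
    linarith
  have hc : Continuous fun s => r s / H (kap c * cos s) :=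
    hr.div (cont_Hk hP c) fun s => (hP.posH _ (kcos_mem c s)).ne'
  have e3 : ∫ s in π..(2 * π), r s / H (kap c * cos s) =
      ∫ s in (0 : ℝ)..π, r s / H (kap c * cos s) := by
    have h := intervalIntegral.integral_comp_sub_left (a := π) (b := 2 * π)
      (fun s => r s / H (kap c * cos s)) (2 * π)
    simp only [h2, Real.cos_two_pi_sub] at h
    rw [h]
    have a1 : 2 * π - 2 * π = 0 := by ring
    have a2 : 2 * π - π = π := by ring
    rw [a1, a2]
  rw [← intervalIntegral.integral_add_adjacent_intervals (hc.intervalIntegrable 0 π)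
    (hc.intervalIntegrable π (2 * π)), e3, e1, e2]
  ring

/-! ### `F = T - c Th` -/

/-- the weight `1 - c²/(c² + k² sin²)` -/
def rho (c s : ℝ) : ℝ := 1 - c * (c / (c ^ 2 + kap c ^ 2 * sin s ^ 2))

lemma den_pos {c : ℝ} (hc : 0 < c) (s : ℝ) : 0 < c ^ 2 + kap c ^ 2 * sin s ^ 2 := by positivity

lemma cont_tau {c : ℝ} (hc : 0 < c) :
    Continuous fun s : ℝ => c / (c ^ 2 + kap c ^ 2 * sin s ^ 2) :=
  continuous_const.div (by fun_prop) fun s => (den_pos hc s).ne'

lemma cont_rho {c : ℝ} (hc : c ∈ Ico (0 : ℝ) 1) : Continuous (rho c) := by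
  unfold rho
  rcases hc.1.eq_or_lt with h | h
  · subst h
    simp only [zero_mul]
    fun_prop
  · exact continuous_const.sub (continuous_const.mul (cont_tau h))

lemma F_eq (hp : 2 < p) (hP : IsPhase p Z H) {c : ℝ} (hc : c ∈ Ico (0 : ℝ) 1) :
    F p c = 2 * ∫ s in Ioo (0 : ℝ) π, rho c s * E p H c s := by
  unfold F
  congr 1
  rw [intervalIntegral.integral_of_le zero_le_one, integral_Ioc_eq_integral_Ioo,
    setIntegral_eq_of_subset_of_forall_sdiff_eq_zero measurableSet_Ioo (region_sub hP hc)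
      (fun z hz => by rw [region hP hc hz, zero_div]), subst hP hc]
  refine setIntegral_congr_fun measurableSet_Ioo fun s hs => ?_
  show |D p Z H c s| * (√(G p (Z (kap c * cos s)) ^ 2 - c ^ 2) / (p * Z (kap c * cos s))) =
    rho c s * E p H c s
  rw [sqrt_eq hP hc hs, abs_D hp hP hc hs]
  have hZ := (Z_mem hP (kcos_mem' c hs)).1.ne'
  have hk := kap_pos hc
  have hsin := sin_pos' hs
  have hd : c ^ 2 + kap c ^ 2 * sin s ^ 2 ≠ 0 := by positivity
  have hp0 : p ≠ 0 := by linarith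
  unfold rho
  field_simp
  ring

theorem ft : S_FT := by
  intro p hp Z H hP c hc
  rw [F_eq hp hP hc, sym hP c (cont_rho hc)]
  · have e1 : ∀ s, rho c s / H (kap c * cos s) = 1 / H (kap c * cos s) -
        c * (c / (c ^ 2 + (kap c) ^ 2 * (sin s) ^ 2) / H (kap c * cos s)) := by
      intro s
      unfold rho
      ring
    simp only [e1]
    unfold T Th
    rw [intervalIntegral.integral_sub, intervalIntegral.integral_const_mul]
    · exact (cont_invH hP c).intervalIntegrable _ _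
    · rcases hc.1.eq_or_lt with h | h
      · subst h
        simp
      · have h3 : Continuous fun s => c / (c ^ 2 + (kap c) ^ 2 * (sin s) ^ 2) /
            H (kap c * cos s) :=
          (cont_tau h).div (cont_Hk hP c) fun s => (hP.posH _ (kcos_mem c s)).ne'
        have h2 : Continuous fun s => c * (c / (c ^ 2 + (kap c) ^ 2 * (sin s) ^ 2) /
            H (kap c * cos s)) := continuous_const.mul h3
        exact h2.intervalIntegrable _ _
  · intro s
    unfold rho
    rw [Real.sin_pi_sub]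
  · intro s
    unfold rho
    rw [Real.sin_two_pi_sub, neg_sq]

/-! ### the derivative -/

/-- the primitive of `c/√(g²-c²)` -/
lemma prim {g a b : ℝ} (hg : 0 ≤ g) (ha : 0 < a) (hab : a ≤ b) :
    ∫ c in a..b, c / √(g ^ 2 - c ^ 2) = √(g ^ 2 - a ^ 2) - √(g ^ 2 - b ^ 2) := by
  -- the case `b ≤ g`
  have case1 : ∀ b, a ≤ b → b ≤ g → IntervalIntegrable (fun c => c / √(g ^ 2 - c ^ 2)) volume a b ∧
      ∫ c in a..b, c / √(g ^ 2 - c ^ 2) = √(g ^ 2 - a ^ 2) - √(g ^ 2 - b ^ 2) := by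
    intro b hab hbg
    have hc : Continuous fun c : ℝ => -√(g ^ 2 - c ^ 2) := by fun_prop
    have hd : ∀ c ∈ Ioo a b, HasDerivAt (fun c : ℝ => -√(g ^ 2 - c ^ 2))
        (c / √(g ^ 2 - c ^ 2)) c := by
      intro c hc
      have h1 : g ^ 2 - c ^ 2 ≠ 0 := by
        have : c < g := hc.2.trans_le hbg
        have : 0 < c := ha.trans hc.1
        nlinarith
      have h2 := ((((hasDerivAt_id c).pow 2).const_sub (g ^ 2)).sqrt h1).neg
      refine h2.congr_deriv ?_
      have h3 : √(g ^ 2 - c ^ 2) ≠ 0 := by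
        have h4 : 0 < g ^ 2 - c ^ 2 := by
          have : c < g := hc.2.trans_le hbg
          have : 0 < c := ha.trans hc.1
          nlinarith
        exact (Real.sqrt_pos.2 h4).ne'
      simp only [id]
      norm_num
      field_simp
    have hi : IntervalIntegrable (fun c => c / √(g ^ 2 - c ^ 2)) volume a b := by
      refine intervalIntegral.intervalIntegrable_deriv_of_nonneg hc.continuousOn ?_ ?_
      · rw [min_eq_left hab, max_eq_right hab]
        exact hd
      · rw [min_eq_left hab, max_eq_right hab]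
        intro c hc
        exact div_nonneg (ha.trans hc.1).le (Real.sqrt_nonneg _)
    refine ⟨hi, ?_⟩
    rw [intervalIntegral.integral_eq_sub_of_hasDerivAt_of_le hab hc.continuousOn hd hi]
    ring
  have case2 : ∀ a b, g ≤ a → a ≤ b → (∀ c ∈ Icc a b, c / √(g ^ 2 - c ^ 2) = 0) := by
    intro a b hga hab c hc
    have : g ^ 2 - c ^ 2 ≤ 0 := by
      have : g ≤ c := hga.trans hc.1
      nlinarith
    rw [Real.sqrt_eq_zero_of_nonpos this, div_zero]
  have case2' : ∀ a b, g ≤ a → a ≤ b → ∫ c in a..b, c / √(g ^ 2 - c ^ 2) = 0 := by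
    intro a b hga hab
    rw [intervalIntegral.integral_congr (g := fun _ => (0 : ℝ)), intervalIntegral.integral_zero]
    intro c hc
    rw [uIcc_of_le hab] at hc
    exact case2 a b hga hab c hc
  rcases le_total b g with h | h
  · exact (case1 b hab h).2
  · have hb0 : √(g ^ 2 - b ^ 2) = 0 := Real.sqrt_eq_zero_of_nonpos (by nlinarith)
    rcases le_total g a with h' | h'
    · have ha0 : √(g ^ 2 - a ^ 2) = 0 := Real.sqrt_eq_zero_of_nonpos (by nlinarith)
      rw [case2' a b h' hab, ha0, hb0, sub_zero]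
    · have c1 := case1 g h' le_rfl
      have hi : IntervalIntegrable (fun c => c / √(g ^ 2 - c ^ 2)) volume g b := by
        have : IntervalIntegrable (fun _ => (0 : ℝ)) volume g b := by simp
        refine this.congr ?_
        rw [uIoc_of_le h]
        intro c hc
        exact (case2 g b le_rfl h c ⟨hc.1.le, hc.2⟩).symm
      rw [← intervalIntegral.integral_add_adjacent_intervals c1.1 hi, c1.2,
        case2' g b le_rfl h, hb0, sub_self, Real.sqrt_zero]
      ring

/-- the kernel -/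
def Kf (p : ℝ) (x : ℝ × ℝ) : ℝ := x.1 / (p * x.2 * √(G p x.2 ^ 2 - x.1 ^ 2))

lemma meas_Kf (hp : 2 < p) : Measurable (Kf p) := by
  unfold Kf
  have h1 : Measurable fun x : ℝ × ℝ => G p x.2 := (Phase.cont_G hp).measurable.comp measurable_snd
  have h2 : Measurable fun x : ℝ × ℝ => √(G p x.2 ^ 2 - x.1 ^ 2) :=
    ((h1.pow_const 2).sub (measurable_fst.pow_const 2)).sqrt
  exact measurable_fst.div ((measurable_snd.const_mul p).mul h2)

lemma Kf_nonneg (hp : 2 < p) {c z : ℝ} (hc : 0 ≤ c) (hz : 0 < z) : 0 ≤ Kf p (c, z) := by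
  unfold Kf
  have : 0 < p := by linarith
  positivity

lemma Kf_subst (hp : 2 < p) (hP : IsPhase p Z H) {c : ℝ} (hc : c ∈ Ioo (0 : ℝ) 1) {s : ℝ}
    (hs : s ∈ Ioo (0 : ℝ) π) : |D p Z H c s| * Kf p (c, Z (kap c * cos s)) =
      c / (c ^ 2 + kap c ^ 2 * sin s ^ 2) * E p H c s := by
  have hc' : c ∈ Ico (0 : ℝ) 1 := ⟨hc.1.le, hc.2⟩
  show |D p Z H c s| * (c / (p * Z (kap c * cos s) *
    √(G p (Z (kap c * cos s)) ^ 2 - c ^ 2))) = _
  rw [sqrt_eq hP hc' hs, abs_D hp hP hc' hs]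
  have hZ := (Z_mem hP (kcos_mem' c hs)).1.ne'
  have hk := kap_pos hc'
  have hsin := sin_pos' hs
  have hd : c ^ 2 + kap c ^ 2 * sin s ^ 2 ≠ 0 := by positivity
  have hp0 : p ≠ 0 := by linarith
  field_simp

lemma cont_E (hP : IsPhase p Z H) (c : ℝ) : Continuous (E p H c) := by
  unfold E
  exact (cont_invH hP c).add (by fun_prop)

lemma Kf_int (hp : 2 < p) (hP : IsPhase p Z H) {c : ℝ} (hc : c ∈ Ioo (0 : ℝ) 1) :
    IntegrableOn (fun z => Kf p (c, z)) (Ioo 0 1) ∧ 2 * ∫ z in Ioo (0 : ℝ) 1, Kf p (c, z) = Th H c := by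
  have hc' : c ∈ Ico (0 : ℝ) 1 := ⟨hc.1.le, hc.2⟩
  have hzero : ∀ z ∈ Ioo (0 : ℝ) 1 \ Ioo (Z (kap c)) (Z (-kap c)), Kf p (c, z) = 0 := by
    intro z hz
    show c / (p * z * √(G p z ^ 2 - c ^ 2)) = 0
    rw [region hP hc' hz, mul_zero, div_zero]
  have hcE : Continuous fun s => c / (c ^ 2 + kap c ^ 2 * sin s ^ 2) * E p H c s :=
    (cont_tau hc.1).mul (cont_E hP c)
  constructor
  · have h1 : IntegrableOn (fun z => Kf p (c, z)) (Ioo (Z (kap c)) (Z (-kap c))) := by
      rw [subst_int hP hc']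
      have h2 : IntegrableOn (fun s => c / (c ^ 2 + kap c ^ 2 * sin s ^ 2) * E p H c s)
          (Ioo 0 π) := (hcE.integrableOn_Icc (a := 0) (b := π)).mono_set Ioo_subset_Icc_self
      refine h2.congr_fun (fun s hs => ?_) measurableSet_Ioo
      exact (Kf_subst hp hP hc hs).symm
    exact h1.of_forall_sdiff_eq_zero measurableSet_Ioo hzero
  · rw [setIntegral_eq_of_subset_of_forall_sdiff_eq_zero measurableSet_Ioo (region_sub hP hc')
      hzero, subst hP hc' (fun z => Kf p (c, z))]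
    have h3 : ∫ s in Ioo (0 : ℝ) π, |D p Z H c s| * Kf p (c, Z (kap c * cos s)) =
        ∫ s in Ioo (0 : ℝ) π, c / (c ^ 2 + kap c ^ 2 * sin s ^ 2) * E p H c s :=
      setIntegral_congr_fun measurableSet_Ioo fun s hs => Kf_subst hp hP hc hs
    rw [h3, sym hP c (cont_tau hc.1)]
    · rfl
    · intro s
      rw [Real.sin_pi_sub]
    · intro s
      rw [Real.sin_two_pi_sub, neg_sq]

lemma F_int (hp : 2 < p) (hP : IsPhase p Z H) {c : ℝ} (hc : c ∈ Ico (0 : ℝ) 1) :
    IntegrableOn (fun z => √(G p z ^ 2 - c ^ 2) / (p * z)) (Ioo 0 1) := by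
  have hzero : ∀ z ∈ Ioo (0 : ℝ) 1 \ Ioo (Z (kap c)) (Z (-kap c)),
      √(G p z ^ 2 - c ^ 2) / (p * z) = 0 := by
    intro z hz
    rw [region hP hc hz, zero_div]
  have h1 : IntegrableOn (fun z => √(G p z ^ 2 - c ^ 2) / (p * z))
      (Ioo (Z (kap c)) (Z (-kap c))) := by
    rw [subst_int hP hc]
    have hcE : Continuous fun s => rho c s * E p H c s := (cont_rho hc).mul (cont_E hP c)
    have h2 : IntegrableOn (fun s => rho c s * E p H c s) (Ioo 0 π) :=
      (hcE.integrableOn_Icc (a := 0) (b := π)).mono_set Ioo_subset_Icc_self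
    refine h2.congr_fun (fun s hs => ?_) measurableSet_Ioo
    show rho c s * E p H c s =
      |D p Z H c s| * (√(G p (Z (kap c * cos s)) ^ 2 - c ^ 2) / (p * Z (kap c * cos s)))
    rw [sqrt_eq hP hc hs, abs_D hp hP hc hs]
    have hZ := (Z_mem hP (kcos_mem' c hs)).1.ne'
    have hk := kap_pos hc
    have hsin := sin_pos' hs
    have hd : c ^ 2 + kap c ^ 2 * sin s ^ 2 ≠ 0 := by positivity
    have hp0 : p ≠ 0 := by linarith
    unfold rho
    field_simp
    ring
  exact h1.of_forall_sdiff_eq_zero measurableSet_Ioo hzero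

lemma cont_Th (hP : IsPhase p Z H) : ContinuousOn (Th H) (Ioo 0 1) := by
  rw [continuousOn_iff_continuous_domRestrict]
  show Continuous fun c : Ioo (0 : ℝ) 1 => Th H c
  unfold Th
  refine intervalIntegral.continuous_parametric_intervalIntegral_of_continuous' ?_ 0 (2 * π)
  show Continuous fun x : Ioo (0 : ℝ) 1 × ℝ => (x.1 : ℝ) / ((x.1 : ℝ) ^ 2 +
    (kap x.1) ^ 2 * (sin x.2) ^ 2) / H (kap x.1 * cos x.2)
  have hk : Continuous fun x : Ioo (0 : ℝ) 1 × ℝ => kap x.1 :=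
    cont_kap.comp (continuous_subtype_val.comp continuous_fst)
  have hx : Continuous fun x : Ioo (0 : ℝ) 1 × ℝ => (x.1 : ℝ) :=
    continuous_subtype_val.comp continuous_fst
  refine Continuous.div ?_ ?_ ?_
  · refine hx.div ?_ ?_
    · exact (hx.pow 2).add ((hk.pow 2).mul ((Real.continuous_sin.comp continuous_snd).pow 2))
    · intro x
      exact (den_pos x.1.2.1 _).ne'
  · exact hP.contH.comp_continuous (hk.mul (Real.continuous_cos.comp continuous_snd))
      fun x => kcos_mem _ _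
  · intro x
    exact (hP.posH _ (kcos_mem _ _)).ne'

lemma F_diff (hp : 2 < p) (hP : IsPhase p Z H) {a b : ℝ} (ha : 0 < a) (hab : a < b) (hb : b < 1) :
    F p a - F p b = ∫ c in a..b, Th H c := by
  have hF : ∀ c, F p c = 2 * ∫ z in Ioo (0 : ℝ) 1, √(G p z ^ 2 - c ^ 2) / (p * z) := by
    intro c
    unfold F
    rw [intervalIntegral.integral_of_le zero_le_one, integral_Ioc_eq_integral_Ioo]
  have i1 := F_int hp hP (c := a) ⟨ha.le, hab.trans hb⟩
  have i2 := F_int hp hP (c := b) ⟨(ha.trans hab).le, hb⟩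
  rw [hF, hF, ← mul_sub, ← integral_sub i1 i2]
  have e1 : ∫ z in Ioo (0 : ℝ) 1, (√(G p z ^ 2 - a ^ 2) / (p * z) - √(G p z ^ 2 - b ^ 2) / (p * z)) =
      ∫ z in Ioo (0 : ℝ) 1, ∫ c in Ioc a b, Kf p (c, z) := by
    refine setIntegral_congr_fun measurableSet_Ioo fun z hz => ?_
    have hg := Phase.G_nonneg hp ⟨hz.1.le, hz.2.le⟩
    have h1 := prim hg ha hab.le
    rw [intervalIntegral.integral_of_le hab.le] at h1
    show √(G p z ^ 2 - a ^ 2) / (p * z) - √(G p z ^ 2 - b ^ 2) / (p * z) = _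
    rw [← sub_div, ← h1, ← integral_div]
    refine setIntegral_congr_fun measurableSet_Ioc fun c _ => ?_
    show c / √(G p z ^ 2 - c ^ 2) / (p * z) = c / (p * z * √(G p z ^ 2 - c ^ 2))
    rw [div_div, mul_comm (√(G p z ^ 2 - c ^ 2))]
  have hTi : IntegrableOn (Th H) (Ioc a b) := by
    have h1 : ContinuousOn (Th H) (Icc a b) := (cont_Th hP).mono fun c hc =>
      ⟨ha.trans_le hc.1, hc.2.trans_lt hb⟩
    exact (h1.integrableOn_Icc).mono_set Ioc_subset_Icc_self
  have hint : Integrable (Kf p) ((volume.restrict (Ioc a b)).prod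
      (volume.restrict (Ioo (0 : ℝ) 1))) := by
    rw [integrable_prod_iff (meas_Kf hp).aestronglyMeasurable]
    constructor
    · filter_upwards [ae_restrict_mem measurableSet_Ioc] with c hc
      exact (Kf_int hp hP (c := c) ⟨ha.trans hc.1, hc.2.trans_lt hb⟩).1
    · have h2 : IntegrableOn (fun c => Th H c / 2) (Ioc a b) := hTi.div_const 2
      refine h2.congr ?_
      filter_upwards [ae_restrict_mem measurableSet_Ioc] with c hc
      have h3 := (Kf_int hp hP (c := c) ⟨ha.trans hc.1, hc.2.trans_lt hb⟩).2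
      have h4 : ∫ z in Ioo (0 : ℝ) 1, ‖Kf p (c, z)‖ = ∫ z in Ioo (0 : ℝ) 1, Kf p (c, z) := by
        refine setIntegral_congr_fun measurableSet_Ioo fun z hz => ?_
        exact Real.norm_of_nonneg (Kf_nonneg hp (ha.trans hc.1).le hz.1)
      show Th H c / 2 = ∫ z in Ioo (0 : ℝ) 1, ‖Kf p (c, z)‖
      rw [h4, ← h3]
      ring
  rw [e1, ← integral_integral_swap (f := fun c z => Kf p (c, z)) hint,
    intervalIntegral.integral_of_le hab.le, ← integral_const_mul]
  refine setIntegral_congr_fun measurableSet_Ioc fun c hc => ?_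
  exact (Kf_int hp hP (c := c) ⟨ha.trans hc.1, hc.2.trans_lt hb⟩).2

theorem fd : S_FD := by
  intro p hp Z H hP c hc
  set a := c / 2 with hadef
  have ha : 0 < a := by have := hc.1; positivity
  have hac : a < c := by have := hc.1; linarith
  have hcont : ContinuousOn (Th H) (Icc a c) := (cont_Th hP).mono fun x hx =>
    ⟨ha.trans_le hx.1, hx.2.trans_lt hc.2⟩
  have hca : ContinuousAt (Th H) c := (cont_Th hP).continuousAt (Ioo_mem_nhds hc.1 hc.2)
  have hi : IntervalIntegrable (Th H) volume a c := by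
    rw [intervalIntegrable_iff_integrableOn_Icc_of_le hac.le]
    exact hcont.integrableOn_Icc
  have hm : StronglyMeasurableAtFilter (Th H) (𝓝 c) :=
    (cont_Th hP).stronglyMeasurableAtFilter isOpen_Ioo c hc
  have hd := intervalIntegral.integral_hasDerivAt_right hi hm hca
  have hd' := hd.const_sub (F p a)
  refine hd'.congr_of_eventuallyEq ?_
  filter_upwards [Ioo_mem_nhds hac hc.2] with x hx
  have := F_diff hp hP ha hx.1 hx.2
  rw [← this]
  ring

end Pool.Agent.NH65.PL.FTh
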