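import Pool.Agent.NH65.PL.Stm

/-!
# Project PL: final assembly
-/

set_option autoImplicit false

noncomputable section

namespace Pool.Agent.NH65.PL.Final

open Pool.Agent.NH65.PL Real Set MeasureTheory Filter Topology

/-- `Λ` is in the periodic spectral set -/
def InSpec (p Λ : ℝ) : Prop := 0 < Λ ∧ ∃ x : ℝ → E2, IsEig p Λ x

/-- `Λ` is a basic periodic eigenvalue -/
def IsBasic (p Λ : ℝ) : Prop := InSpec p Λ ∧ ∀ k : ℕ, 2 ≤ k → ¬ InSpec p (Λ / (k:ℝ) ^ p)

/-- tangent inequality -/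
theorem tangent {f : ℝ → ℝ} (hf : ConvexOn ℝ (Icc (0:ℝ) 1) f) {c D : ℝ} (hc : c ∈ Ioo (0:ℝ) 1)
    (hD : HasDerivAt f D c) {y : ℝ} (hy : y ∈ Icc (0:ℝ) 1) : f c + D * (y - c) ≤ f y := by
  have hcI : c ∈ Icc (0:ℝ) 1 := ⟨hc.1.le, hc.2.le⟩
  rcases lt_trichotomy c y with h | h | h
  · have := hf.le_slope_of_hasDerivAt hcI hy h hD
    rw [slope_def_field, le_div_iff₀ (by linarith)] at this
    linarith
  · subst h; simp
  · have := hf.slope_le_of_hasDerivAt hy hcI h hD
    rw [slope_def_field, div_le_iff₀ (by linarith)] at this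
    linarith

theorem cq_pos {p : ℝ} (hp : 2 < p) : 0 < cq p := by
  unfold cq; exact div_pos (by linarith) (by linarith)

/-- the critical action -/
def act (N M : ℕ) (p c : ℝ) : ℝ := N * F p c + 2 * π * M * c

/-- the minimal action -/
def mn (N M : ℕ) (p : ℝ) : ℝ := sInf ((fun c => act N M p c) '' Icc (0:ℝ) 1)

theorem contF (h : S_CONT) {p : ℝ} (hp : p ∈ Icc (3:ℝ) 1000) : ContinuousOn (F p) (Icc 0 1) := by
  have h2 : ContinuousOn (fun c : ℝ => ((p, c) : ℝ × ℝ)) (Icc 0 1) := by fun_prop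
  exact (h.comp h2 (fun c hc => ⟨hp, hc⟩) : _)

theorem cont_act (h : S_CONT) (N M : ℕ) {p : ℝ} (hp : p ∈ Icc (3:ℝ) 1000) :
    ContinuousOn (fun c => act N M p c) (Icc 0 1) := by
  unfold act
  exact (continuousOn_const.mul (contF h hp)).add (by fun_prop)

theorem cont_mn (h : S_CONT) (N M : ℕ) : ContinuousOn (mn N M) (Icc (3:ℝ) 1000) := by
  have hA : ContinuousOn (fun x : ℝ × ℝ => (N:ℝ) * F x.1 x.2 + 2 * π * M * x.2)
      (Icc (3:ℝ) 1000 ×ˢ Icc (0:ℝ) 1) := (continuousOn_const.mul h).add (by fun_prop)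
  have hB : Continuous (fun x : ℝ × ℝ => ((projIcc (3:ℝ) 1000 (by norm_num) x.1 : ℝ),
      (projIcc (0:ℝ) 1 (by norm_num) x.2 : ℝ))) :=
    (continuous_subtype_val.comp (continuous_projIcc.comp continuous_fst)).prodMk
        (continuous_subtype_val.comp (continuous_projIcc.comp continuous_snd))
  have key : Continuous (fun x : ℝ × ℝ =>
      (fun x : ℝ × ℝ => (N:ℝ) * F x.1 x.2 + 2 * π * M * x.2)
        ((projIcc (3:ℝ) 1000 (by norm_num) x.1 : ℝ), (projIcc (0:ℝ) 1 (by norm_num) x.2 : ℝ))) :=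
    hA.comp_continuous hB (fun x => ⟨Subtype.coe_prop _, Subtype.coe_prop _⟩)
  have k2 := (isCompact_Icc (a := (0:ℝ)) (b := 1)).continuous_sInf
    (f := fun p c => (N:ℝ) * F (projIcc (3:ℝ) 1000 (by norm_num) p : ℝ)
      (projIcc (0:ℝ) 1 (by norm_num) c : ℝ) + 2 * π * M * (projIcc (0:ℝ) 1 (by norm_num) c : ℝ)) key
  refine k2.continuousOn.congr ?_
  intro p hp
  unfold mn act
  congr 1
  apply image_congr
  intro c hc
  simp only [projIcc_of_mem (by norm_num : (3:ℝ) ≤ 1000) hp,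
    projIcc_of_mem (by norm_num : (0:ℝ) ≤ 1) hc]

theorem mn_le (h : S_CONT) (N M : ℕ) {p : ℝ} (hp : p ∈ Icc (3:ℝ) 1000) {c : ℝ}
    (hc : c ∈ Icc (0:ℝ) 1) : mn N M p ≤ act N M p c := by
  apply csInf_le
  · exact (isCompact_Icc.image_of_continuousOn (cont_act h N M hp)).bddBelow
  · exact ⟨c, hc, rfl⟩

theorem mn_attained (h : S_CONT) (N M : ℕ) {p : ℝ} (hp : p ∈ Icc (3:ℝ) 1000) :
    ∃ c ∈ Icc (0:ℝ) 1, act N M p c = mn N M p := by
  have hK := isCompact_Icc.image_of_continuousOn (cont_act h N M hp)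
  have hne : ((fun c => act N M p c) '' Icc (0:ℝ) 1).Nonempty := ⟨_, 0, by simp, rfl⟩
  obtain ⟨c, hc, he⟩ := hK.sInf_mem hne
  exact ⟨c, hc, he⟩

/-- weighted AM-GM: `G ≤ 1` -/
theorem G_le_one {p z : ℝ} (hp : 2 < p) (hz : z ∈ Icc (0:ℝ) 1) : G p z ≤ 1 := by
  unfold G
  have hq : 0 < cq p := cq_pos hp
  have h1 : 1 / p + 1 / cq p = 1 := by
    unfold cq; field_simp; ring
  have h := Real.geom_mean_le_arith_mean2_weighted (w₁ := 1 / p) (w₂ := 1 / cq p)
    (p₁ := p * z) (p₂ := cq p * (1 - z)) (by positivity) (by positivity)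
    (mul_nonneg (by linarith) hz.1) (mul_nonneg hq.le (by linarith [hz.2])) h1
  refine h.trans (le_of_eq ?_)
  have hp0 : p ≠ 0 := by linarith
  field_simp
  ring

theorem F_one {p : ℝ} (hp : 2 < p) : F p 1 = 0 := by
  unfold F
  have : ∫ z in (0:ℝ)..1, √((G p z) ^ 2 - 1 ^ 2) / (p * z) = ∫ z in (0:ℝ)..1, (0:ℝ) := by
    apply intervalIntegral.integral_congr
    intro z hz
    rw [uIcc_of_le (by norm_num : (0:ℝ) ≤ 1)] at hz
    have h1 := G_le_one hp hz
    have h0 : 0 ≤ G p z := by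
      unfold G
      have hq : 0 < cq p := cq_pos hp
      have := hz.1
      have := hz.2
      apply mul_nonneg <;> apply Real.rpow_nonneg
      · exact mul_nonneg (by linarith) (by linarith)
      · exact mul_nonneg hq.le (by linarith)
    have : (G p z) ^ 2 - 1 ^ 2 ≤ 0 := by nlinarith
    simp only [Real.sqrt_eq_zero_of_nonpos this, zero_div]
  rw [this]; simp

/-- all facts about one exponent `p` -/
theorem fixed_p (hREP : S_REP) (hCONT : S_CONT) (hFD : S_FD) (hFT : S_FT)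
    (hORB : S_ORBIT) (hCLS : S_CLASS) (hLINE : S_LINE) (hCIRC : S_CIRC) (hTR1 : S_TR1)
    (hTR2 : S_TR2) (hNUM : S_NUM) (hNUM2 : S_NUM2) (hPH : S_PHASE)
    {p : ℝ} (hp : p ∈ Icc (3:ℝ) 1000) (hC0 : 2 * π / √(p * cq p) < 5 / 8 * π)
    (hL : mn 16 5 p = mn 13 6 p) :
    ∃ Λ, IsBasic p Λ ∧ ∃ x y : ℝ → E2, IsEig p Λ x ∧ IsEig p Λ y ∧
      ∃ mx my : ℝ, (∀ t, scalMom p (Λ ^ (1 / p)) x t = mx) ∧
        (∀ t, scalMom p (Λ ^ (1 / p)) y t = my) ∧ mx ≠ my := by
  have hp2 : 2 < p := by linarith [hp.1]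
  have hpi := Real.pi_pos
  obtain ⟨Z, H, hZH⟩ := hPH p hp2
  obtain ⟨hconv, hlow, hlow0, hup0, hup1⟩ := hREP p hp
  have hFd := hFD p hp2 Z H hZH
  have hFt := hFT p hp2 Z H hZH
  set C0 := 2 * π / √(p * cq p) with hC0def
  have hC0pos : 0 < C0 := by
    rw [hC0def]
    have : 0 < p * cq p := mul_pos (by linarith) (cq_pos hp2)
    positivity
  have hFpos : ∀ c ∈ Ico (0:ℝ) 1, 0 < F p c := by
    intro c hc
    have := hlow c ⟨hc.1, hc.2.le⟩
    have h2 : 0 < C0 * (1 - c) := mul_pos hC0pos (by linarith [hc.2])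
    linarith
  have hF1 : F p 1 = 0 := F_one hp2
  -- lower bound for L
  set L := mn 13 6 p with hLdef
  have hLlow : 26.5 < L := by
    obtain ⟨c, hc, he⟩ := mn_attained hCONT 16 5 hp
    rw [← hL, ← he]
    have h1 := hNUM.2 p hp2 c hc
    have h2 := hNUM2.2.2.1 c hc
    have h3 := hNUM2.2.2.2
    unfold act
    push_cast
    linarith
  have hpi4 : π < 3.1416 := Real.pi_lt_d4
  have hpi3 : 3.1415 < π := Real.pi_gt_d4
  have hL8 : 8 * π < L := by linarith
  -- minimisers
  obtain ⟨c1, hc1, he1⟩ := mn_attained hCONT 16 5 hp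
  obtain ⟨c2, hc2, he2⟩ := mn_attained hCONT 13 6 hp
  have hm1 := fun c (hc : c ∈ Icc (0:ℝ) 1) => mn_le hCONT 16 5 hp hc
  have hm2 := fun c (hc : c ∈ Icc (0:ℝ) 1) => mn_le hCONT 13 6 hp hc
  rw [hL] at he1 hm1
  rw [← hLdef] at he2 hm2
  simp only [act] at he1 he2 hm1 hm2
  push_cast at he1 he2 hm1 hm2
  -- strict inequalities at the ends
  have hL10 : L < 10 * π := by
    obtain ⟨c, hc, h⟩ := hup1 (5 / 8 * π - C0) (by linarith)
    have := hm1 c ⟨hc.1.le, hc.2.le⟩
    nlinarith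
  have hL12 : L < 12 * π := by linarith
  have hL16 : L < 16 * F p 0 := by
    obtain ⟨c, hc, h⟩ := hup0 (π / 4) (by linarith)
    have := hm1 c ⟨hc.1.le, hc.2.le⟩
    have := mul_pos hpi hc.1
    nlinarith
  have hL13 : L < 13 * F p 0 := by
    obtain ⟨c, hc, h⟩ := hup0 (π / 26) (by linarith)
    have := hm2 c ⟨hc.1.le, hc.2.le⟩
    have := mul_pos hpi hc.1
    nlinarith
  have hc1' : c1 ∈ Ioo (0:ℝ) 1 := by
    refine ⟨lt_of_le_of_ne hc1.1 ?_, lt_of_le_of_ne hc1.2 ?_⟩
    · rintro rfl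
      linarith
    · rintro rfl
      rw [hF1] at he1
      linarith
  have hc2' : c2 ∈ Ioo (0:ℝ) 1 := by
    refine ⟨lt_of_le_of_ne hc2.1 ?_, lt_of_le_of_ne hc2.2 ?_⟩
    · rintro rfl
      linarith
    · rintro rfl
      rw [hF1] at he2
      linarith
  -- critical points
  have hT1 : 16 * Th H c1 = 10 * π := by
    have hd : HasDerivAt (fun c => 16 * F p c + 2 * π * 5 * c) (16 * (-Th H c1) + 2 * π * 5) c1 := by
      have := ((hFd c1 hc1').const_mul (16:ℝ)).fun_add ((hasDerivAt_id' c1).const_mul (2 * π * 5))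
      simpa using this
    have hmin : IsLocalMin (fun c => 16 * F p c + 2 * π * 5 * c) c1 := by
      have : Icc (0:ℝ) 1 ∈ 𝓝 c1 := Icc_mem_nhds hc1'.1 hc1'.2
      filter_upwards [this] with c hc
      have := hm1 c hc
      linarith
    have := hmin.hasDerivAt_eq_zero hd
    linarith
  have hT2 : 13 * Th H c2 = 12 * π := by
    have hd : HasDerivAt (fun c => 13 * F p c + 2 * π * 6 * c) (13 * (-Th H c2) + 2 * π * 6) c2 := by
      have := ((hFd c2 hc2').const_mul (13:ℝ)).fun_add ((hasDerivAt_id' c2).const_mul (2 * π * 6))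
      simpa using this
    have hmin : IsLocalMin (fun c => 13 * F p c + 2 * π * 6 * c) c2 := by
      have : Icc (0:ℝ) 1 ∈ 𝓝 c2 := Icc_mem_nhds hc2'.1 hc2'.2
      filter_upwards [this] with c hc
      have := hm2 c hc
      linarith
    have := hmin.hasDerivAt_eq_zero hd
    linarith
  have hper1 : ((16:ℕ):ℝ) * T H c1 = L := by
    have := hFt c1 ⟨hc1.1, hc1'.2⟩
    have e1 : 16 * F p c1 = 16 * T H c1 - c1 * (16 * Th H c1) := by rw [this]; ring
    rw [hT1] at e1
    push_cast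
    linarith
  have hper2 : ((13:ℕ):ℝ) * T H c2 = L := by
    have := hFt c2 ⟨hc2.1, hc2'.2⟩
    have e1 : 13 * F p c2 = 13 * T H c2 - c2 * (13 * Th H c2) := by rw [this]; ring
    rw [hT2] at e1
    push_cast
    linarith
  have hLpos : 0 < L := by linarith
  -- the two eigenfunctions
  obtain ⟨X1, Y1, hs1, hX1⟩ := hORB p hp2 Z H hZH c1 hc1' 16 5 (by norm_num)
    (by push_cast; linarith)
  obtain ⟨X2, Y2, hs2, hX2⟩ := hORB p hp2 Z H hZH c2 hc2' 13 6 (by norm_num)
    (by push_cast; linarith)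
  rw [hper1] at hX1
  rw [hper2] at hX2
  obtain ⟨x1, hx1, hsc1⟩ := hTR2 p L c1 X1 Y1 hp2 hLpos hs1 hX1
  obtain ⟨x2, hx2, hsc2⟩ := hTR2 p L c2 X2 Y2 hp2 hLpos hs2 hX2
  have hroot : (L ^ p) ^ (1 / p) = L := by
    rw [← Real.rpow_mul hLpos.le, mul_one_div_cancel (by linarith), Real.rpow_one]
  refine ⟨L ^ p, ⟨⟨Real.rpow_pos_of_pos hLpos p, x1, hx1⟩, ?_⟩, x1, x2, hx1, hx2, |c1|, |c2|, ?_, ?_, ?_⟩
  · -- basicness
    rintro k hk ⟨-, x, hx⟩
    have hk0 : (0:ℝ) < k := by
      have : 0 < k := by omega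
      exact_mod_cast this
    have hk2 : (2:ℝ) ≤ k := by exact_mod_cast hk
    rw [← Real.div_rpow hLpos.le hk0.le] at hx
    have hlam : 0 < L / k := div_pos hLpos hk0
    obtain ⟨c', X', Y', hs', hX', -⟩ := hTR1 p (L / k) x hp2 hlam hx
    obtain ⟨hyoung, hconj, hcirc⟩ := hCIRC p hp2
    -- make the momentum nonnegative
    obtain ⟨c, X, Y, hs, hX, hc0⟩ : ∃ (c : ℝ) (X Y : ℝ → ℂ), IsSol p c X Y ∧
        (∀ t, X (t + L / k) = X t) ∧ 0 ≤ c := by
      rcases le_or_gt 0 c' with h | h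
      · exact ⟨c', X', Y', hs', hX', h⟩
      · exact ⟨-c', _, _, hconj c' X' Y' hs', fun t => by simp only [hX' t], by linarith⟩
    have hcle : c ≤ 1 := (le_abs_self c).trans (hyoung c X Y hs)
    have hkL : k * (L / k) = L := by field_simp
    have hF0 : ∀ c ∈ Icc (0:ℝ) 1, F p 0 - π * c ≤ F p c := hlow0
    rcases hc0.eq_or_lt with h0 | h0
    · -- line
      subst h0
      obtain ⟨N, hN, hP⟩ := hLINE p hp2 Z H hZH X Y hs (L / k) hlam hX
      have hFT0 := hFt 0 (by simp)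
      simp only [zero_mul, sub_zero] at hFT0
      rw [← hFT0] at hP
      have hLN : L = ((k * N : ℕ) : ℝ) * F p 0 := by
        push_cast
        rw [← hkL, hP]; ring
      have hFp0 := hFpos 0 (by simp)
      have h13 : ((k * N : ℕ) : ℝ) < 13 := by
        by_contra hcon
        push Not at hcon
        have := mul_le_mul_of_nonneg_right hcon hFp0.le
        linarith
      have h12 : (12:ℝ) < ((k * N : ℕ) : ℝ) := by
        by_contra hcon
        push Not at hcon
        have h1 := mul_le_mul_of_nonneg_right hcon hFp0.le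
        have h2 := hF0 c2 hc2
        have h3 := hFpos c2 ⟨hc2.1, hc2'.2⟩
        linarith
      have h13' : k * N < 13 := by exact_mod_cast h13
      have h12' : 12 < k * N := by exact_mod_cast h12
      omega
    rcases hcle.eq_or_lt with h1 | h1
    · -- circle
      subst h1
      obtain ⟨N, hN, hP⟩ := hcirc X Y hs (L / k) hlam hX
      have hLN : L = ((k * N : ℕ) : ℝ) * (2 * π) := by
        push_cast
        rw [← hkL, hP]; ring
      have h5 : ((k * N : ℕ) : ℝ) < 5 := by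
        by_contra hcon
        push Not at hcon
        have := mul_le_mul_of_nonneg_right hcon (by positivity : 0 ≤ 2 * π)
        linarith
      have h4 : (4:ℝ) < ((k * N : ℕ) : ℝ) := by
        by_contra hcon
        push Not at hcon
        have := mul_le_mul_of_nonneg_right hcon (by positivity : 0 ≤ 2 * π)
        linarith
      have h5' : k * N < 5 := by exact_mod_cast h5
      have h4' : 4 < k * N := by exact_mod_cast h4
      omega
    · -- generic momentum
      have hcI : c ∈ Ioo (0:ℝ) 1 := ⟨h0, h1⟩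
      have hcI' : c ∈ Icc (0:ℝ) 1 := ⟨h0.le, h1.le⟩
      obtain ⟨N, M, hN, hM, hNM, hP⟩ := hCLS p hp2 Z H hZH c hcI X Y hs (L / k) hlam hX
      have hFc := hFpos c ⟨h0.le, h1⟩
      have hFTc := hFt c ⟨h0.le, h1⟩
      obtain ⟨N', hN'⟩ : ∃ N' : ℕ, N' = k * N := ⟨_, rfl⟩
      obtain ⟨M', hM'⟩ : ∃ M' : ℕ, M' = k * M := ⟨_, rfl⟩
      have hN'r : (N':ℝ) = k * N := by rw [hN']; push_cast; ring
      have hM'r : (M':ℝ) = k * M := by rw [hM']; push_cast; ring
      have hNM' : (N':ℝ) * Th H c = 2 * π * M' := by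
        rw [hN'r, hM'r, mul_assoc, hNM]; ring
      have hLT : L = N' * T H c := by
        rw [hN'r, ← hkL, hP]; ring
      have hLact : L = N' * F p c + 2 * π * M' * c := by
        rw [hFTc]
        have : (N':ℝ) * (T H c - c * Th H c) = N' * T H c - c * (N' * Th H c) := by ring
        rw [this, hNM', ← hLT]; ring
      -- tangent inequality
      have htan : ∀ y ∈ Icc (0:ℝ) 1, L ≤ N' * F p y + 2 * π * M' * y := by
        intro y hy
        have h := tangent hconv hcI (hFd c hcI) hy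
        have h2 := mul_le_mul_of_nonneg_left h (Nat.cast_nonneg (α := ℝ) N')
        have h3 : (N':ℝ) * (F p c + -Th H c * (y - c)) =
            N' * F p c - (N' * Th H c) * (y - c) := by ring
        rw [h3, hNM'] at h2
        rw [hLact]
        linarith
      have hThpi : Th H c ≤ π := by
        have h := tangent hconv hcI (hFd c hcI) (y := 0) (by simp)
        have h2 := hF0 c hcI'
        have h3 : (Th H c) * c ≤ π * c := by linarith
        exact le_of_mul_le_mul_right h3 h0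
      have hkN : k ∣ N' := ⟨N, hN'⟩
      have hkM : k ∣ M' := ⟨M, hM'⟩
      have hpc : 0 < π * c := mul_pos hpi h0
      have hF1c := hFpos c1 ⟨hc1.1, hc1'.2⟩
      have hF2c := hFpos c2 ⟨hc2.1, hc2'.2⟩
      have hpc1 : 0 < π * c1 := mul_pos hpi hc1'.1
      have hpc2 : 0 < π * c2 := mul_pos hpi hc2'.1
      -- (a)
      have ha : ¬ (5 ≤ M' ∧ 16 ≤ N') := by
        rintro ⟨hM5, hN16⟩
        have hM5r : (5:ℝ) ≤ M' := by exact_mod_cast hM5
        have hN16r : (16:ℝ) ≤ N' := by exact_mod_cast hN16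
        have hmin := hm1 c hcI'
        have e1 : ((N':ℝ) - 16) * F p c + 2 * ((M':ℝ) - 5) * (π * c) ≤ 0 := by
          nlinarith
        have e2 : 0 ≤ ((N':ℝ) - 16) * F p c := mul_nonneg (by linarith) hFc.le
        have e3 : 0 ≤ 2 * ((M':ℝ) - 5) * (π * c) := mul_nonneg (by linarith) hpc.le
        have e4 : ((N':ℝ) - 16) * F p c = 0 := by linarith
        have e5 : 2 * ((M':ℝ) - 5) * (π * c) = 0 := by linarith
        have e6 : (N':ℝ) = 16 := by
          rcases mul_eq_zero.1 e4 with h | h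
          · linarith
          · linarith
        have e7 : (M':ℝ) = 5 := by
          rcases mul_eq_zero.1 e5 with h | h
          · linarith
          · linarith
        have e8 : N' = 16 := by exact_mod_cast e6
        have e9 : M' = 5 := by exact_mod_cast e7
        rw [e8] at hkN
        rw [e9] at hkM
        have := Nat.dvd_gcd hkN hkM
        norm_num at this
        omega
      have hb : ¬ (6 ≤ M' ∧ 13 ≤ N') := by
        rintro ⟨hM5, hN16⟩
        have hM5r : (6:ℝ) ≤ M' := by exact_mod_cast hM5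
        have hN16r : (13:ℝ) ≤ N' := by exact_mod_cast hN16
        have hmin := hm2 c hcI'
        have e1 : ((N':ℝ) - 13) * F p c + 2 * ((M':ℝ) - 6) * (π * c) ≤ 0 := by
          nlinarith
        have e2 : 0 ≤ ((N':ℝ) - 13) * F p c := mul_nonneg (by linarith) hFc.le
        have e3 : 0 ≤ 2 * ((M':ℝ) - 6) * (π * c) := mul_nonneg (by linarith) hpc.le
        have e4 : ((N':ℝ) - 13) * F p c = 0 := by linarith
        have e5 : 2 * ((M':ℝ) - 6) * (π * c) = 0 := by linarith
        have e6 : (N':ℝ) = 13 := by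
          rcases mul_eq_zero.1 e4 with h | h
          · linarith
          · linarith
        have e7 : (M':ℝ) = 6 := by
          rcases mul_eq_zero.1 e5 with h | h
          · linarith
          · linarith
        have e8 : N' = 13 := by exact_mod_cast e6
        have e9 : M' = 6 := by exact_mod_cast e7
        rw [e8] at hkN
        rw [e9] at hkM
        have := Nat.dvd_gcd hkN hkM
        norm_num at this
        omega
      have hcc : ¬ (M' ≤ 5 ∧ N' ≤ 15) := by
        rintro ⟨hM5, hN15⟩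
        have hM5r : (M':ℝ) ≤ 5 := by exact_mod_cast hM5
        have hN15r : (N':ℝ) ≤ 15 := by exact_mod_cast hN15
        have h := htan c1 hc1
        have e1 := mul_le_mul_of_nonneg_right hN15r hF1c.le
        have e2 := mul_le_mul_of_nonneg_right hM5r hpc1.le
        nlinarith
      have hd : ¬ (M' ≤ 6 ∧ N' ≤ 12) := by
        rintro ⟨hM5, hN15⟩
        have hM5r : (M':ℝ) ≤ 6 := by exact_mod_cast hM5
        have hN15r : (N':ℝ) ≤ 12 := by exact_mod_cast hN15
        have h := htan c2 hc2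
        have e1 := mul_le_mul_of_nonneg_right hN15r hF2c.le
        have e2 := mul_le_mul_of_nonneg_right hM5r hpc2.le
        nlinarith
      have he : ¬ (M' ≤ 4) := by
        intro hM4
        have hM4r : (M':ℝ) ≤ 4 := by exact_mod_cast hM4
        have h := htan 1 (by simp)
        rw [hF1] at h
        have e2 := mul_le_mul_of_nonneg_right hM4r hpi.le
        linarith
      have hf : ¬ (7 ≤ M' ∧ N' ≤ 12) := by
        rintro ⟨hM7, hN12⟩
        have hM7r : (7:ℝ) ≤ M' := by exact_mod_cast hM7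
        have hN12r : (N':ℝ) ≤ 12 := by exact_mod_cast hN12
        have h1 : (N':ℝ) * Th H c ≤ N' * π := mul_le_mul_of_nonneg_left hThpi (Nat.cast_nonneg _)
        have h2 := mul_le_mul_of_nonneg_right hN12r hpi.le
        have h3 := mul_le_mul_of_nonneg_right hM7r hpi.le
        linarith
      omega
  · rw [hroot]; exact hsc1
  · rw [hroot]; exact hsc2
  · rw [abs_of_pos hc1'.1, abs_of_pos hc2'.1]
    rintro rfl
    have h : Th H c1 = 5 / 8 * π := by linarith
    rw [h] at hT2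
    linarith

/-- final assembly -/
theorem main (hREP : S_REP) (hCONT : S_CONT) (hFD : S_FD) (hFT : S_FT)
    (hORB : S_ORBIT) (hCLS : S_CLASS) (hLINE : S_LINE) (hCIRC : S_CIRC) (hTR1 : S_TR1)
    (hTR2 : S_TR2) (hNUM : S_NUM) (hNUM2 : S_NUM2) (hPH : S_PHASE) :
    ∃ p : ℝ, 2 < p ∧ ∃ Λ, IsBasic p Λ ∧ ∃ x y : ℝ → E2, IsEig p Λ x ∧ IsEig p Λ y ∧
      ∃ mx my : ℝ, (∀ t, scalMom p (Λ ^ (1 / p)) x t = mx) ∧
        (∀ t, scalMom p (Λ ^ (1 / p)) y t = my) ∧ mx ≠ my := by
  have hpi := Real.pi_pos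
  have hpi4 : π < 3.1416 := Real.pi_lt_d4
  have hpi3 : 3.1415 < π := Real.pi_gt_d4
  -- the starting exponent
  obtain ⟨s, hs0, hs⟩ : ∃ s : ℝ, 0 ≤ s ∧ s ^ 2 = 39936 := ⟨√39936, Real.sqrt_nonneg _, Real.sq_sqrt (by norm_num)⟩
  have hs1 : 199 < s := by nlinarith
  have hs2 : s < 200 := by nlinarith
  obtain ⟨p1, hp1⟩ : ∃ p1 : ℝ, p1 = (256 + s) / 50 := ⟨_, rfl⟩
  have hp1e : 25 * p1 ^ 2 = 256 * (p1 - 1) := by rw [hp1]; ring_nf; rw [hs]; ring
  have hp1a : 9 < p1 := by rw [hp1]; linarith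
  have hp1b : p1 < 10 := by rw [hp1]; linarith
  have hp1I : p1 ∈ Icc (3:ℝ) 1000 := ⟨by linarith, by linarith⟩
  have h1000 : (1000:ℝ) ∈ Icc (3:ℝ) 1000 := by constructor <;> norm_num
  -- g at p1
  have hC0p1 : 2 * π / √(p1 * cq p1) = 5 / 8 * π := by
    have h1 : p1 * cq p1 = (16 / 5) ^ 2 := by
      unfold cq
      have : p1 - 1 ≠ 0 := by linarith
      field_simp
      linarith
    rw [h1, Real.sqrt_sq (by norm_num)]
    ring
  have hg1 : mn 16 5 p1 < mn 13 6 p1 := by
    have hF1 : F p1 1 = 0 := F_one (by linarith)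
    have h1 : mn 16 5 p1 ≤ 10 * π := by
      have := mn_le hCONT 16 5 hp1I (c := 1) (by simp)
      simp only [act, hF1] at this
      push_cast at this
      linarith
    obtain ⟨c, hc, he⟩ := mn_attained hCONT 13 6 hp1I
    obtain ⟨-, hlow, hlow0, -, -⟩ := hREP p1 hp1I
    have a1 := hlow c hc
    rw [hC0p1] at a1
    have a2 := hlow0 c hc
    have a3 := hNUM2.1 p1 ⟨hp1a.le, hp1b.le⟩ hp1e
    have : 10 * π < mn 13 6 p1 := by
      rw [← he]
      simp only [act]
      push_cast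
      nlinarith
    linarith
  have hg2 : mn 13 6 1000 < mn 16 5 1000 := by
    have h1 : mn 13 6 1000 ≤ 13 * F 1000 0 := by
      have := mn_le hCONT 13 6 h1000 (c := 0) (by simp)
      simp only [act] at this
      push_cast at this
      linarith
    obtain ⟨c, hc, he⟩ := mn_attained hCONT 16 5 h1000
    have b1 := hNUM.2 1000 (by norm_num) c hc
    have b2 := hNUM2.2.1
    have b3 := hNUM2.2.2.1 c hc
    have b4 := hNUM2.2.2.2
    rw [← he]
    simp only [act]
    push_cast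
    linarith
  -- intermediate value theorem
  have hcont : ContinuousOn (fun p => mn 13 6 p - mn 16 5 p) (Icc p1 1000) := by
    apply ContinuousOn.mono _ (Icc_subset_Icc_left hp1I.1)
    exact (cont_mn hCONT 13 6).sub (cont_mn hCONT 16 5)
  have hivt := intermediate_value_Icc' (by linarith : p1 ≤ 1000) hcont
  obtain ⟨p, hp, hp0⟩ := hivt (show (0:ℝ) ∈ Icc _ _ from ⟨by linarith, by linarith⟩)
  have hp0' : mn 16 5 p = mn 13 6 p := by
    have : mn 13 6 p - mn 16 5 p = 0 := hp0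
    linarith
  have hpne : p ≠ p1 := by
    rintro rfl
    linarith
  have hpgt : p1 < p := lt_of_le_of_ne hp.1 (Ne.symm hpne)
  have hpI : p ∈ Icc (3:ℝ) 1000 := ⟨by linarith, hp.2⟩
  refine ⟨p, by linarith, fixed_p hREP hCONT hFD hFT hORB hCLS hLINE hCIRC hTR1 hTR2 hNUM hNUM2 hPH
    hpI ?_ hp0'⟩
  have hq : (16 / 5) ^ 2 < p * cq p := by
    unfold cq
    have hpm : 0 < p - 1 := by linarith
    rw [mul_div_assoc', lt_div_iff₀ hpm]
    nlinarith
  have hsq : 16 / 5 < √(p * cq p) := by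
    apply Real.lt_sqrt_of_sq_lt hq
  rw [div_lt_iff₀ (by linarith)]
  nlinarith

end Pool.Agent.NH65.PL.Final
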