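import Pool.Agent.NH65.PL.Stm

/-!
# Project PL, module PL3: phase of a solution
-/

set_option autoImplicit false

noncomputable section

namespace Pool.Agent.NH65.PL.Lift

open Real Set MeasureTheory Filter Topology Pool.Agent.NH65.PL
open scoped InnerProductSpace

theorem cq_gt {p : ℝ} (hp : 2 < p) : 1 < cq p := by
  unfold cq
  rw [lt_div_iff₀ (by linarith)]
  linarith

theorem cq_add {p : ℝ} (hp : 2 < p) : p + cq p = p * cq p := by
  unfold cq
  have h2 : p - 1 ≠ 0 := by linarith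
  field_simp
  ring

/-- A local version of `hasDerivAt_of_hasDerivAt_of_ne`. -/
theorem local_hasDeriv {f g : ℝ → ℝ} {x : ℝ} (h : ∀ᶠ y in 𝓝[≠] x, HasDerivAt f (g y) y)
    (hf : ContinuousAt f x) (hg : ContinuousAt g x) : HasDerivAt f (g x) x := by
  have hgt : ∀ᶠ y in 𝓝[>] x, HasDerivAt f (g y) y :=
    h.filter_mono (nhdsWithin_mono x (fun y hy => ne_of_gt hy))
  have hlt : ∀ᶠ y in 𝓝[<] x, HasDerivAt f (g y) y :=
    h.filter_mono (nhdsWithin_mono x (fun y hy => ne_of_lt hy))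
  have A : HasDerivWithinAt f (g x) (Ici x) x := by
    refine hasDerivWithinAt_Ici_of_tendsto_deriv (s := {y | HasDerivAt f (g y) y})
      (fun y hy => (HasDerivAt.differentiableAt hy).differentiableWithinAt)
      hf.continuousWithinAt hgt ?_
    refine Tendsto.congr' ?_ (hg.tendsto.mono_left nhdsWithin_le_nhds)
    filter_upwards [hgt] with y hy
    exact hy.deriv.symm
  have B : HasDerivWithinAt f (g x) (Iic x) x := by
    refine hasDerivWithinAt_Iic_of_tendsto_deriv (s := {y | HasDerivAt f (g y) y})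
      (fun y hy => (HasDerivAt.differentiableAt hy).differentiableWithinAt)
      hf.continuousWithinAt hlt ?_
    refine Tendsto.congr' ?_ (hg.tendsto.mono_left nhdsWithin_le_nhds)
    filter_upwards [hlt] with y hy
    exact hy.deriv.symm
  have C := B.union A
  rw [Iic_union_Ici] at C
  exact hasDerivWithinAt_univ.1 C

/-- The inverse of `Z`. -/
theorem exists_inv {p : ℝ} {Z H : ℝ → ℝ} (hZ : IsPhase p Z H) : ∃ g : ℝ → ℝ, Continuous g ∧
    (∀ y, g y ∈ Icc (-1:ℝ) 1) ∧ ∀ y ∈ Icc (0:ℝ) 1, Z (g y) = y := by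
  have hmaps : ∀ w ∈ Icc (-1:ℝ) 1, Z w ∈ Icc (0:ℝ) 1 := by
    intro w hw
    constructor
    · rw [← hZ.Z1]
      exact hZ.anti.antitoneOn hw (right_mem_Icc.2 (by norm_num)) hw.2
    · rw [← hZ.Zm1]
      exact hZ.anti.antitoneOn (left_mem_Icc.2 (by norm_num)) hw hw.1
  let f : Icc (-1:ℝ) 1 → Icc (0:ℝ) 1 := fun w => ⟨Z w, hmaps w w.2⟩
  have hfc : Continuous f := (continuousOn_iff_continuous_domRestrict.1 hZ.contZ).subtype_mk _
  have hfb : Function.Bijective f := by
    constructor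
    · intro a b hab
      have h1 : Z a = Z b := congrArg Subtype.val hab
      exact Subtype.ext (hZ.anti.injOn a.2 b.2 h1)
    · intro y
      have h1 : (y : ℝ) ∈ Icc (Z 1) (Z (-1)) := by
        rw [hZ.Z1, hZ.Zm1]
        exact y.2
      obtain ⟨w, hw, hwy⟩ := intermediate_value_Icc' (by norm_num : (-1:ℝ) ≤ 1) hZ.contZ h1
      exact ⟨⟨w, hw⟩, Subtype.ext hwy⟩
  let e := Continuous.homeoOfEquivCompactToT2 (f := Equiv.ofBijective f hfb) hfc
  have he : ∀ y, f (e.symm y) = y := fun y => e.apply_symm_apply y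
  refine ⟨IccExtend (zero_le_one' ℝ) (fun y => ((e.symm y : Icc (-1:ℝ) 1) : ℝ)), ?_, ?_, ?_⟩
  · exact (continuous_subtype_val.comp e.symm.continuous).Icc_extend'
  · intro y
    exact (e.symm (projIcc 0 1 (zero_le_one' ℝ) y)).2
  · intro y hy
    rw [IccExtend_of_mem _ _ hy]
    have h1 := he ⟨y, hy⟩
    exact congrArg Subtype.val h1

theorem rpow_sub_two {x r : ℝ} (hx : 0 ≤ x) (hr : 0 < r) : x ^ (r - 2) * x ^ 2 = x ^ r := by
  rcases hx.eq_or_lt with h0 | h0
  · rw [← h0, zero_rpow hr.ne']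
    simp
  · rw [← rpow_natCast x 2, ← rpow_add h0]
    congr 1
    push_cast
    ring

theorem lift : S_LIFT := by
  intro p hp Z H hZ c hc X Y h
  have hq1 := cq_gt hp
  have hpa := cq_add hp
  have hk2 : kap c ^ 2 = 1 - c ^ 2 := Real.sq_sqrt (by nlinarith [hc.1, hc.2])
  have hk : 0 < kap c := Real.sqrt_pos.2 (by nlinarith [hc.1, hc.2])
  obtain ⟨k, hkd⟩ : ∃ k, k = kap c := ⟨_, rfl⟩
  rw [← hkd] at hk2 hk ⊢
  have hXc : Continuous X := continuous_iff_continuousAt.2 (fun t => (h.dX t).continuousAt)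
  have hYc : Continuous Y := continuous_iff_continuousAt.2 (fun t => (h.dY t).continuousAt)
  obtain ⟨z, hz⟩ : ∃ z : ℝ → ℝ, ∀ t, z t = ‖X t‖ ^ p / p := ⟨_, fun _ => rfl⟩
  obtain ⟨u, hud⟩ : ∃ u : ℝ → ℝ, ∀ t, u t = ((starRingEnd ℂ) (X t) * Y t).re := ⟨_, fun _ => rfl⟩
  have hpz : ∀ t, p * z t = ‖X t‖ ^ p := by
    intro t
    rw [hz]
    have : p ≠ 0 := by linarith
    field_simp
  have hqz : ∀ t, cq p * (1 - z t) = ‖Y t‖ ^ cq p := by
    intro t
    have h1 := h.energy t
    rw [← hz] at h1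
    have h2 : 1 - z t = ‖Y t‖ ^ cq p / cq p := by linarith
    rw [h2]
    have : cq p ≠ 0 := by linarith
    field_simp
  have hz0 : ∀ t, 0 ≤ z t := fun t => by
    rw [hz]
    have : 0 < p := by linarith
    positivity
  have hz1 : ∀ t, z t ≤ 1 := by
    intro t
    have h1 : 0 ≤ cq p * (1 - z t) := by rw [hqz]; positivity
    have h2 := nonneg_of_mul_nonneg_right h1 (by linarith)
    linarith
  have hzm : ∀ t, z t ∈ Icc (0:ℝ) 1 := fun t => ⟨hz0 t, hz1 t⟩
  have hconj : ∀ t, (starRingEnd ℂ) (X t) * Y t = (u t : ℂ) + c * Complex.I := by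
    intro t
    apply Complex.ext
    · simp [hud]
    · rw [h.mom t]
      simp
  have hRS : ∀ t, ‖X t‖ ^ 2 * ‖Y t‖ ^ 2 = u t ^ 2 + c ^ 2 := by
    intro t
    have h1 : ‖(starRingEnd ℂ) (X t) * Y t‖ ^ 2 = u t ^ 2 + c ^ 2 := by
      rw [hconj, ← Complex.normSq_eq_norm_sq]
      rw [Complex.normSq_add_mul_I]
    rw [norm_mul, RCLike.norm_conj, mul_pow] at h1
    exact h1
  have hG : ∀ t, G p (z t) = ‖X t‖ * ‖Y t‖ := by
    intro t
    rw [G, hpz, hqz, ← rpow_mul (norm_nonneg _), ← rpow_mul (norm_nonneg _),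
      mul_one_div_cancel (by linarith), mul_one_div_cancel (by linarith), rpow_one, rpow_one]
  obtain ⟨g, hgc, hgm, hgZ⟩ := exists_inv hZ
  obtain ⟨w, hw⟩ : ∃ w : ℝ → ℝ, ∀ t, w t = g (z t) := ⟨_, fun _ => rfl⟩
  have hwm : ∀ t, w t ∈ Icc (-1:ℝ) 1 := fun t => by rw [hw]; exact hgm _
  have hZw : ∀ t, Z (w t) = z t := fun t => by rw [hw]; exact hgZ _ (hzm t)
  have hzc : Continuous z := by
    have : z = fun t => ‖X t‖ ^ p / p := funext hz
    rw [this]
    exact (hXc.norm.rpow_const (fun t => Or.inr (by linarith))).div_const p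
  have hwc : Continuous w := by
    have : w = fun t => g (z t) := funext hw
    rw [this]
    exact hgc.comp hzc
  have huc : Continuous u := by
    have : u = fun t => ((starRingEnd ℂ) (X t) * Y t).re := funext hud
    rw [this]
    exact Complex.continuous_re.comp ((Complex.continuous_conj.comp hXc).mul hYc)
  have hHwc : Continuous (fun t => H (w t)) := hZ.contH.comp_continuous hwc hwm
  have hwu : ∀ t, 1 - w t ^ 2 = u t ^ 2 + c ^ 2 := by
    intro t
    rw [← hZ.eqG _ (hwm t), hZw, hG, mul_pow, hRS]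
  have hwu2 : ∀ t, w t ^ 2 + u t ^ 2 = k ^ 2 := by
    intro t
    have := hwu t
    rw [hk2]
    linarith
  -- derivative of u
  have hdu : ∀ t, HasDerivAt u (w t * H (w t)) t := by
    intro t
    have hue : u = fun t => ((starRingEnd ℂ) (X t) * Y t).re := funext hud
    rw [hue]
    have h1 : HasDerivAt (fun t => (starRingEnd ℂ) (X t))
        ((starRingEnd ℂ) (((‖Y t‖ ^ (cq p - 2) : ℝ) : ℂ) * Y t)) t := by
      have := (Complex.conjCLE.toContinuousLinearMap.hasFDerivAt (x := X t)).comp_hasDerivAt t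
        (h.dX t)
      exact this
    have h2 := Complex.reCLM.hasFDerivAt.comp_hasDerivAt t (h1.mul (h.dY t))
    have h3 : ((starRingEnd ℂ) (((‖Y t‖ ^ (cq p - 2) : ℝ) : ℂ) * Y t) * Y t +
        (starRingEnd ℂ) (X t) * -(((‖X t‖ ^ (p - 2) : ℝ) : ℂ) * X t)).re =
        w t * H (w t) := by
      have e1 : (starRingEnd ℂ) (((‖Y t‖ ^ (cq p - 2) : ℝ) : ℂ) * Y t) * Y t =
          ((‖Y t‖ ^ (cq p - 2) * ‖Y t‖ ^ 2 : ℝ) : ℂ) := by
        rw [map_mul, Complex.conj_ofReal, mul_assoc, Complex.conj_mul']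
        push_cast
        ring
      have e2 : (starRingEnd ℂ) (X t) * -(((‖X t‖ ^ (p - 2) : ℝ) : ℂ) * X t) =
          -((‖X t‖ ^ (p - 2) * ‖X t‖ ^ 2 : ℝ) : ℂ) := by
        have e3 : (starRingEnd ℂ) (X t) * -(((‖X t‖ ^ (p - 2) : ℝ) : ℂ) * X t) =
          -(((‖X t‖ ^ (p - 2) : ℝ) : ℂ) * ((starRingEnd ℂ) (X t) * X t)) := by ring
        rw [e3, Complex.conj_mul']
        push_cast
        ring
      rw [e1, e2, Complex.add_re, Complex.neg_re, Complex.ofReal_re, Complex.ofReal_re,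
        rpow_sub_two (norm_nonneg _) (by linarith), rpow_sub_two (norm_nonneg _) (by linarith),
        ← hpz, ← hqz, hZ.eqH _ (hwm t), hZw]
      linear_combination (-z t) * hpa
    rw [← h3]
    exact h2
  -- derivative of w at good points
  have hdw : ∀ t, X t ≠ 0 → Y t ≠ 0 → HasDerivAt w (-(u t) * H (w t)) t := by
    intro t hX0 hY0
    have hR : 0 < ‖X t‖ := norm_pos_iff.2 hX0
    have hS : 0 < ‖Y t‖ := norm_pos_iff.2 hY0
    have hz0' : 0 < z t := by
      have h1 : 0 < p * z t := by rw [hpz]; exact rpow_pos_of_pos hR _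
      exact pos_of_mul_pos_right h1 (by linarith)
    have hz1' : z t < 1 := by
      have h1 : 0 < cq p * (1 - z t) := by rw [hqz]; exact rpow_pos_of_pos hS _
      have h2 := pos_of_mul_pos_right h1 (by linarith)
      linarith
    have hwI : w t ∈ Ioo (-1:ℝ) 1 := by
      refine ⟨lt_of_le_of_ne (hwm t).1 (fun h0 => ?_), lt_of_le_of_ne (hwm t).2 (fun h0 => ?_)⟩
      · have := hZw t
        rw [← h0, hZ.Zm1] at this
        linarith
      · have := hZw t
        rw [h0, hZ.Z1] at this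
        linarith
    have hH := hZ.posH _ (hwm t)
    have hw2 : 0 < 1 - w t ^ 2 := by nlinarith [hwI.1, hwI.2]
    have hdz : HasDerivAt z (u t * ‖X t‖ ^ (p - 2) * ‖Y t‖ ^ (cq p - 2)) t := by
      have h1 := (h.dX t).norm_sq
      have h2 := h1.rpow_const (p := p / 2) (Or.inl (by positivity))
      have h3 : z = fun t => (‖X t‖ ^ 2) ^ (p / 2) / p := by
        funext t
        rw [hz, ← rpow_natCast, ← rpow_mul (norm_nonneg _)]
        congr 2
        push_cast
        ring
      rw [h3]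
      refine (h2.div_const p).congr_deriv ?_
      have h4 : ⟪X t, ((‖Y t‖ ^ (cq p - 2) : ℝ) : ℂ) * Y t⟫_ℝ = ‖Y t‖ ^ (cq p - 2) * u t := by
        rw [Complex.inner, hud]
        have : ((‖Y t‖ ^ (cq p - 2) : ℝ) : ℂ) * Y t * (starRingEnd ℂ) (X t) =
            ((‖Y t‖ ^ (cq p - 2) : ℝ) : ℂ) * ((starRingEnd ℂ) (X t) * Y t) := by ring
        rw [this, Complex.re_ofReal_mul]
      have h5 : (‖X t‖ ^ 2) ^ (p / 2 - 1) = ‖X t‖ ^ (p - 2) := by
        rw [← rpow_natCast, ← rpow_mul (norm_nonneg _)]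
        congr 1
        push_cast
        ring
      rw [h4, h5]
      have : p ≠ 0 := by linarith
      field_simp
    have hdg : HasDerivAt g (-(p * cq p * Z (w t) * (1 - Z (w t))) /
        ((1 - w t ^ 2) * H (w t)))⁻¹ (z t) := by
      refine HasDerivAt.of_local_left_inverse (f := Z) hgc.continuousAt ?_ ?_ ?_
      · rw [← hw]
        exact hZ.deriv _ hwI
      · rw [hZw]
        have h1 : 0 < p * cq p * z t * (1 - z t) := by
          have : 0 < 1 - z t := by linarith
          have : 0 < p := by linarith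
          have : 0 < cq p := by linarith
          positivity
        have h2 : 0 < (1 - w t ^ 2) * H (w t) := mul_pos hw2 hH
        rw [neg_div]
        exact neg_ne_zero.2 (div_pos h1 h2).ne'
      · filter_upwards [Ioo_mem_nhds hz0' hz1'] with y hy
        exact hgZ y (Ioo_subset_Icc_self hy)
    have hwe : w = fun t => g (z t) := funext hw
    have h1 := hdg.comp t hdz
    have h2 : HasDerivAt w ((-(p * cq p * Z (w t) * (1 - Z (w t))) /
        ((1 - w t ^ 2) * H (w t)))⁻¹ * (u t * ‖X t‖ ^ (p - 2) * ‖Y t‖ ^ (cq p - 2))) t := by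
      conv =>
        arg 1
        rw [hwe]
      exact h1
    refine h2.congr_deriv ?_
    rw [hZw]
    have e1 : p * cq p * z t * (1 - z t) =
        (‖X t‖ ^ (p - 2) * ‖Y t‖ ^ (cq p - 2)) * (1 - w t ^ 2) := by
      have e2 : p * cq p * z t * (1 - z t) = (p * z t) * (cq p * (1 - z t)) := by ring
      rw [e2, hpz, hqz, hwu, ← hRS, ← rpow_sub_two (norm_nonneg (X t)) (by linarith : 0 < p),
        ← rpow_sub_two (norm_nonneg (Y t)) (by linarith : 0 < cq p)]
      ring
    rw [e1]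
    have e3 : 0 < ‖X t‖ ^ (p - 2) := rpow_pos_of_pos hR _
    have e4 : 0 < ‖Y t‖ ^ (cq p - 2) := rpow_pos_of_pos hS _
    field_simp
  -- derivative of w at all points
  have hdw' : ∀ t, HasDerivAt w (-(u t) * H (w t)) t := by
    intro t
    have hev : ∀ᶠ s in 𝓝[≠] t, X s ≠ 0 ∧ Y s ≠ 0 := by
      have hXe : ∀ᶠ s in 𝓝[≠] t, X s ≠ 0 := by
        by_cases hX0 : X t = 0
        · have h1 : ((‖Y t‖ ^ (cq p - 2) : ℝ) : ℂ) * Y t ≠ 0 := by
            have h2 : Y t ≠ 0 := by
              intro h3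
              have h4 := h.energy t
              rw [hX0, h3, norm_zero, zero_rpow (by linarith), zero_rpow (by linarith)] at h4
              norm_num at h4
            have h3 : 0 < ‖Y t‖ := norm_pos_iff.2 h2
            refine mul_ne_zero ?_ h2
            exact_mod_cast (rpow_pos_of_pos h3 _).ne'
          have h2 := (h.dX t).eventually_ne h1 (c := 0)
          exact h2
        · exact (hXc.continuousAt.eventually_ne hX0).filter_mono nhdsWithin_le_nhds
      have hYe : ∀ᶠ s in 𝓝[≠] t, Y s ≠ 0 := by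
        by_cases hY0 : Y t = 0
        · have h1 : -(((‖X t‖ ^ (p - 2) : ℝ) : ℂ) * X t) ≠ 0 := by
            have h2 : X t ≠ 0 := by
              intro h3
              have h4 := h.energy t
              rw [hY0, h3, norm_zero, zero_rpow (by linarith), zero_rpow (by linarith)] at h4
              norm_num at h4
            have h3 : 0 < ‖X t‖ := norm_pos_iff.2 h2
            refine neg_ne_zero.2 (mul_ne_zero ?_ h2)
            exact_mod_cast (rpow_pos_of_pos h3 _).ne'
          have h2 := (h.dY t).eventually_ne h1 (c := 0)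
          exact h2
        · exact (hYc.continuousAt.eventually_ne hY0).filter_mono nhdsWithin_le_nhds
      exact hXe.and hYe
    refine local_hasDeriv (g := fun t => -(u t) * H (w t)) ?_ hwc.continuousAt
      (huc.neg.mul hHwc).continuousAt
    filter_upwards [hev] with s hs
    exact hdw s hs.1 hs.2
  -- the phase
  obtain ⟨ψ₀, hψ₀⟩ : ∃ ψ₀ : ℝ, w 0 = k * cos ψ₀ ∧ u 0 = k * sin ψ₀ := by
    have h1 := Complex.norm_mul_cos_arg ((w 0 : ℂ) + u 0 * Complex.I)
    have h2 := Complex.norm_mul_sin_arg ((w 0 : ℂ) + u 0 * Complex.I)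
    have h3 : ‖(w 0 : ℂ) + u 0 * Complex.I‖ = k := by
      have h4 : ‖(w 0 : ℂ) + u 0 * Complex.I‖ ^ 2 = k ^ 2 := by
        rw [← Complex.normSq_eq_norm_sq, Complex.normSq_add_mul_I, hwu2]
      exact (pow_left_inj₀ (norm_nonneg _) hk.le two_ne_zero).1 h4
    rw [h3] at h1 h2
    refine ⟨Complex.arg ((w 0 : ℂ) + u 0 * Complex.I), ?_, ?_⟩
    · rw [h1]
      simp
    · rw [h2]
      simp
  obtain ⟨ψ, hψ⟩ : ∃ ψ : ℝ → ℝ, ∀ t, ψ t = ψ₀ + ∫ s in (0:ℝ)..t, H (w s) := ⟨_, fun _ => rfl⟩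
  have hdψ : ∀ t, HasDerivAt ψ (H (w t)) t := by
    intro t
    have : ψ = fun t => ψ₀ + ∫ s in (0:ℝ)..t, H (w s) := funext hψ
    rw [this]
    exact (intervalIntegral.integral_hasDerivAt_right (hHwc.intervalIntegrable _ _)
      (hHwc.stronglyMeasurableAtFilter _ _) hHwc.continuousAt).const_add ψ₀
  have hψ0 : ψ 0 = ψ₀ := by rw [hψ, intervalIntegral.integral_same, add_zero]
  have hA : ∀ t, w t * cos (ψ t) + u t * sin (ψ t) = k := by
    intro t
    have hd : ∀ t, HasDerivAt (fun t => w t * cos (ψ t) + u t * sin (ψ t)) 0 t := by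
      intro t
      have h1 := ((hdw' t).mul (hdψ t).cos).add ((hdu t).mul (hdψ t).sin)
      refine h1.congr_deriv ?_
      ring
    have h1 := is_const_of_deriv_eq_zero (fun t => (hd t).differentiableAt)
      (fun t => (hd t).deriv) t 0
    rw [h1, hψ0, hψ₀.1, hψ₀.2]
    have h2 := sin_sq_add_cos_sq ψ₀
    linear_combination k * h2
  have hB : ∀ t, u t * cos (ψ t) - w t * sin (ψ t) = 0 := by
    intro t
    have hd : ∀ t, HasDerivAt (fun t => u t * cos (ψ t) - w t * sin (ψ t)) 0 t := by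
      intro t
      have h1 := ((hdu t).mul (hdψ t).cos).sub ((hdw' t).mul (hdψ t).sin)
      refine h1.congr_deriv ?_
      ring
    have h1 := is_const_of_deriv_eq_zero (fun t => (hd t).differentiableAt)
      (fun t => (hd t).deriv) t 0
    rw [h1, hψ0, hψ₀.1, hψ₀.2]
    ring
  have hwψ : ∀ t, w t = k * cos (ψ t) := by
    intro t
    have h1 := hA t
    have h2 := hB t
    have h3 := sin_sq_add_cos_sq (ψ t)
    linear_combination (cos (ψ t)) * h1 - (sin (ψ t)) * h2 - (w t) * h3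
  have huψ : ∀ t, u t = k * sin (ψ t) := by
    intro t
    have h1 := hA t
    have h2 := hB t
    have h3 := sin_sq_add_cos_sq (ψ t)
    linear_combination (sin (ψ t)) * h1 + (cos (ψ t)) * h2 - (u t) * h3
  refine ⟨ψ, fun t => ?_, fun t => ?_, fun t => ?_⟩
  · rw [← hwψ]
    exact hdψ t
  · rw [← hwψ, hZw, hz]
  · rw [← hud, huψ]

end Pool.Agent.NH65.PL.Lift
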