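import Pool.Agent.NH65.PL.Stm

/-!
# Project PL: moments of `F` (`S_MOM`)
-/

set_option autoImplicit false

noncomputable section

namespace Pool.Agent.NH65.PL.Mom

open Pool.Agent.NH65.PL Real Set MeasureTheory Filter Topology ProbabilityTheory

theorem inv_add {p : ℝ} (hp : 2 < p) : 1 / p + 1 / cq p = 1 := by
  unfold cq
  have h1 : p ≠ 0 := by linarith
  have h2 : p - 1 ≠ 0 := by linarith
  field_simp
  ring

theorem cq_pos {p : ℝ} (hp : 2 < p) : 0 < cq p := by
  unfold cq; exact div_pos (by linarith) (by linarith)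

theorem lint_beta {α β : ℝ} (hα : 0 < α) (hβ : 0 < β) :
    ∫⁻ x in Ioo (0:ℝ) 1, ENNReal.ofReal (x ^ (α - 1) * (1 - x) ^ (β - 1)) =
      ENNReal.ofReal (beta α β) := by
  have h := lintegral_betaPDF_eq_one hα hβ
  rw [lintegral_betaPDF] at h
  have hb := beta_pos hα hβ
  have e : ∀ x ∈ Ioo (0:ℝ) 1, ENNReal.ofReal (1 / beta α β * x ^ (α - 1) * (1 - x) ^ (β - 1)) =
      ENNReal.ofReal (1 / beta α β) * ENNReal.ofReal (x ^ (α - 1) * (1 - x) ^ (β - 1)) := by
    intro x _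
    rw [← ENNReal.ofReal_mul (by positivity), mul_assoc]
  rw [setLIntegral_congr_fun measurableSet_Ioo e, lintegral_const_mul _ (by fun_prop)] at h
  have h2 := congrArg (fun y => ENNReal.ofReal (beta α β) * y) h
  simp only [mul_one] at h2
  rw [← mul_assoc, ← ENNReal.ofReal_mul hb.le, mul_one_div_cancel hb.ne', ENNReal.ofReal_one,
    one_mul] at h2
  exact h2

theorem G_pos {p z : ℝ} (hp : 2 < p) (hz : z ∈ Ioo (0:ℝ) 1) : 0 < G p z := by
  unfold G
  have := cq_pos hp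
  have h1 : 0 < p * z := mul_pos (by linarith) hz.1
  have h2 : 0 < cq p * (1 - z) := mul_pos this (by linarith [hz.2])
  positivity

theorem G_le_one {p z : ℝ} (hp : 2 < p) (hz : z ∈ Ioo (0:ℝ) 1) : G p z ≤ 1 := by
  unfold G
  have hq : 0 < cq p := cq_pos hp
  have h1 := inv_add hp
  have h := Real.geom_mean_le_arith_mean2_weighted (w₁ := 1 / p) (w₂ := 1 / cq p)
    (p₁ := p * z) (p₂ := cq p * (1 - z)) (by positivity) (by positivity)
    (mul_nonneg (by linarith) hz.1.le) (mul_nonneg hq.le (by linarith [hz.2])) h1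
  refine h.trans (le_of_eq ?_)
  have hp0 : p ≠ 0 := by linarith
  field_simp
  ring

/-- powers of `G` -/
theorem G_pow {p z : ℝ} (hp : 2 < p) (hz : z ∈ Ioo (0:ℝ) 1) (m : ℕ) :
    (G p z) ^ m / (p * z) =
      (p ^ ((m:ℝ) / p - 1) * cq p ^ ((m:ℝ) / cq p)) *
        (z ^ ((m:ℝ) / p - 1) * (1 - z) ^ ((m:ℝ) / cq p + 1 - 1)) := by
  have hq := cq_pos hp
  have hp0 : 0 < p := by linarith
  have hz0 := hz.1
  have hz1 : 0 < 1 - z := by linarith [hz.2]
  unfold G
  rw [mul_pow, ← Real.rpow_natCast, ← Real.rpow_natCast, ← Real.rpow_mul (by positivity),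
    ← Real.rpow_mul (by positivity), Real.rpow_sub hp0, Real.rpow_sub hz0, Real.rpow_one,
    Real.rpow_one, add_sub_cancel_right]
  have e1 : 1 / p * (m:ℝ) = (m:ℝ) / p := by ring
  have e2 : 1 / cq p * (m:ℝ) = (m:ℝ) / cq p := by ring
  rw [e1, e2, Real.mul_rpow hp0.le hz0.le, Real.mul_rpow hq.le hz1.le]
  field_simp

theorem lint_G {p : ℝ} (hp : 2 < p) {m : ℕ} (hm : 0 < m) :
    ∫⁻ z in Ioo (0:ℝ) 1, ENNReal.ofReal ((G p z) ^ m / (p * z)) =
      ENNReal.ofReal ((p ^ ((m:ℝ) / p - 1) * cq p ^ ((m:ℝ) / cq p)) *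
        beta ((m:ℝ) / p) ((m:ℝ) / cq p + 1)) := by
  have hq := cq_pos hp
  have hp0 : 0 < p := by linarith
  have hm' : (0:ℝ) < m := by exact_mod_cast hm
  rw [setLIntegral_congr_fun measurableSet_Ioo (fun z hz => by rw [G_pow hp hz m])]
  have e : ∀ z ∈ Ioo (0:ℝ) 1, ENNReal.ofReal ((p ^ ((m:ℝ) / p - 1) * cq p ^ ((m:ℝ) / cq p)) *
        (z ^ ((m:ℝ) / p - 1) * (1 - z) ^ ((m:ℝ) / cq p + 1 - 1))) =
      ENNReal.ofReal (p ^ ((m:ℝ) / p - 1) * cq p ^ ((m:ℝ) / cq p)) *
        ENNReal.ofReal (z ^ ((m:ℝ) / p - 1) * (1 - z) ^ ((m:ℝ) / cq p + 1 - 1)) := by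
    intro z _
    rw [← ENNReal.ofReal_mul (by positivity)]
  rw [setLIntegral_congr_fun measurableSet_Ioo e, lintegral_const_mul _ (by fun_prop),
    lint_beta (by positivity) (by positivity), ← ENNReal.ofReal_mul (by positivity)]

/-- inner integral -/
theorem inner {g : ℝ} (hg : 0 < g) (hg1 : g ≤ 1) (n : ℕ) :
    ∫⁻ c in Ioc (0:ℝ) 1, ENNReal.ofReal (c ^ n * √(g ^ 2 - c ^ 2)) =
      ENNReal.ofReal (g ^ (n + 2) * (1 / 2 * beta (((n:ℝ) + 1) / 2) (3 / 2))) := by
  -- restrict to `Ioo 0 g`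
  have h1 : ∫⁻ c in Ioc (0:ℝ) 1, ENNReal.ofReal (c ^ n * √(g ^ 2 - c ^ 2)) =
      ∫⁻ c in Ioo (0:ℝ) g, ENNReal.ofReal (c ^ n * √(g ^ 2 - c ^ 2)) := by
    have hsub : Ioo (0:ℝ) g ⊆ Ioc 0 1 := fun c hc => ⟨hc.1, (hc.2.trans_le hg1).le⟩
    rw [← lintegral_indicator measurableSet_Ioc, ← lintegral_indicator measurableSet_Ioo]
    apply lintegral_congr
    intro c
    by_cases hc : c ∈ Ioo (0:ℝ) g
    · rw [indicator_of_mem hc, indicator_of_mem (hsub hc)]
    · rw [indicator_of_notMem hc]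
      by_cases hc2 : c ∈ Ioc (0:ℝ) 1
      · rw [indicator_of_mem hc2]
        have : g ≤ c := by
          by_contra hcon
          exact hc ⟨hc2.1, not_le.1 hcon⟩
        rw [Real.sqrt_eq_zero_of_nonpos (by nlinarith), mul_zero, ENNReal.ofReal_zero]
      · rw [indicator_of_notMem hc2]
  rw [h1]
  -- substitution c = g √y
  have himg : (fun y : ℝ => g * √y) '' Ioo (0:ℝ) 1 = Ioo 0 g := by
    ext c
    constructor
    · rintro ⟨y, hy, rfl⟩
      have h2 : 0 < √y := Real.sqrt_pos.2 hy.1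
      have h3 : √y < 1 := by rw [Real.sqrt_lt' one_pos]; simpa using hy.2
      exact ⟨by positivity, by nlinarith⟩
    · intro hc
      refine ⟨(c / g) ^ 2, ⟨by have := hc.1; positivity, ?_⟩, ?_⟩
      · have h2 : 0 < c / g := div_pos hc.1 hg
        have h3 : c / g < 1 := (div_lt_one hg).2 hc.2
        nlinarith
      · simp only
        rw [Real.sqrt_sq (div_nonneg hc.1.le hg.le)]
        field_simp
  have hder : ∀ y ∈ Ioo (0:ℝ) 1, HasDerivWithinAt (fun y : ℝ => g * √y) (g * (1 / (2 * √y))) (Ioo 0 1) y := by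
    intro y hy
    exact ((Real.hasDerivAt_sqrt hy.1.ne').const_mul g).hasDerivWithinAt
  have hinj : InjOn (fun y : ℝ => g * √y) (Ioo (0:ℝ) 1) := by
    intro a ha b hb hab
    have h2 := mul_left_cancel₀ hg.ne' hab
    exact (Real.sqrt_inj ha.1.le hb.1.le).1 h2
  have h2 := lintegral_image_eq_lintegral_abs_deriv_mul measurableSet_Ioo hder hinj
    (fun c => ENNReal.ofReal (c ^ n * √(g ^ 2 - c ^ 2)))
  rw [himg] at h2
  rw [h2]
  have e : ∀ y ∈ Ioo (0:ℝ) 1, ENNReal.ofReal |g * (1 / (2 * √y))| *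
      ENNReal.ofReal ((g * √y) ^ n * √(g ^ 2 - (g * √y) ^ 2)) =
      ENNReal.ofReal (g ^ (n + 2) * (1 / 2)) *
        ENNReal.ofReal (y ^ (((n:ℝ) + 1) / 2 - 1) * (1 - y) ^ ((3:ℝ) / 2 - 1)) := by
    intro y hy
    have hs : 0 < √y := Real.sqrt_pos.2 hy.1
    have hy1 : 0 < 1 - y := by linarith [hy.2]
    rw [← ENNReal.ofReal_mul (abs_nonneg _), ← ENNReal.ofReal_mul (by positivity),
      abs_of_pos (by positivity)]
    congr 1
    have e1 : √(g ^ 2 - (g * √y) ^ 2) = g * √(1 - y) := by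
      rw [mul_pow, Real.sq_sqrt hy.1.le]
      have : g ^ 2 - g ^ 2 * y = g ^ 2 * (1 - y) := by ring
      rw [this, Real.sqrt_mul (by positivity), Real.sqrt_sq hg.le]
    have e2 : (1 - y) ^ ((3:ℝ) / 2 - 1) = √(1 - y) := by
      rw [Real.sqrt_eq_rpow]; norm_num
    have e3 : y ^ (((n:ℝ) + 1) / 2 - 1) = (√y) ^ n / √y := by
      rw [Real.sqrt_eq_rpow, ← Real.rpow_natCast, ← Real.rpow_mul hy.1.le, ← Real.rpow_sub hy.1]
      congr 1
      ring
    rw [e1, e2, e3]
    field_simp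
    ring
  rw [setLIntegral_congr_fun measurableSet_Ioo e, lintegral_const_mul _ (by fun_prop),
    lint_beta (by positivity) (by norm_num), ← ENNReal.ofReal_mul (by positivity)]
  congr 1
  ring

/-- the kernel -/
def ker (p c z : ℝ) : ℝ := √((G p z) ^ 2 - c ^ 2) / (p * z)

theorem G_meas (p : ℝ) : Measurable (G p) := by unfold G; fun_prop

theorem lint_F {p : ℝ} (hp : 2 < p) (c : ℝ) :
    ENNReal.ofReal (F p c) = 2 * ∫⁻ z in Ioo (0:ℝ) 1, ENNReal.ofReal (ker p c z) := by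
  have hp0 : 0 < p := by linarith
  have hGm := G_meas p
  have hkm : Measurable (ker p c) := by unfold ker; fun_prop
  have hnn : 0 ≤ᵐ[volume.restrict (Ioo (0:ℝ) 1)] ker p c := by
    filter_upwards [ae_restrict_mem measurableSet_Ioo] with z hz
    unfold ker
    have := hz.1
    positivity
  have hfin : ∫⁻ z in Ioo (0:ℝ) 1, ENNReal.ofReal (ker p c z) < ⊤ := by
    have h1 : ∫⁻ z in Ioo (0:ℝ) 1, ENNReal.ofReal (ker p c z) ≤
        ∫⁻ z in Ioo (0:ℝ) 1, ENNReal.ofReal ((G p z) ^ 1 / (p * z)) := by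
      apply setLIntegral_mono (by fun_prop)
      intro z hz
      apply ENNReal.ofReal_le_ofReal
      unfold ker
      have hz0 := hz.1
      have hg := G_pos hp hz
      rw [pow_one]
      apply div_le_div_of_nonneg_right _ (by positivity)
      calc √((G p z) ^ 2 - c ^ 2) ≤ √((G p z) ^ 2) := by
            apply Real.sqrt_le_sqrt; nlinarith [sq_nonneg c]
        _ = G p z := Real.sqrt_sq hg.le
    refine h1.trans_lt ?_
    rw [lint_G hp one_pos]
    exact ENNReal.ofReal_lt_top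
  have hF : F p c = 2 * (∫⁻ z in Ioo (0:ℝ) 1, ENNReal.ofReal (ker p c z)).toReal := by
    unfold F
    rw [intervalIntegral.integral_of_le (by norm_num), integral_Ioc_eq_integral_Ioo]
    rw [← integral_eq_lintegral_of_nonneg_ae hnn hkm.aestronglyMeasurable]
    rfl
  rw [hF, ENNReal.ofReal_mul (by norm_num), ENNReal.ofReal_toReal hfin.ne]
  simp

theorem lint_mom {p : ℝ} (hp : 2 < p) (n : ℕ) :
    ∫⁻ c in Ioc (0:ℝ) 1, ENNReal.ofReal (c ^ n * F p c) =
      ENNReal.ofReal (2 * ((1 / 2 * beta (((n:ℝ) + 1) / 2) (3 / 2)) *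
        ((p ^ (((n + 2 : ℕ):ℝ) / p - 1) * cq p ^ (((n + 2 : ℕ):ℝ) / cq p)) *
        beta (((n + 2 : ℕ):ℝ) / p) (((n + 2 : ℕ):ℝ) / cq p + 1)))) := by
  have hp0 : 0 < p := by linarith
  have hGm := G_meas p
  have hb : 0 < beta (((n:ℝ) + 1) / 2) (3 / 2) := beta_pos (by positivity) (by norm_num)
  have hkm : Measurable (Function.uncurry (ker p)) := by
    unfold Function.uncurry ker; fun_prop
  have e1 : ∀ c ∈ Ioc (0:ℝ) 1, ENNReal.ofReal (c ^ n * F p c) =
      2 * ∫⁻ z in Ioo (0:ℝ) 1, ENNReal.ofReal (c ^ n * ker p c z) := by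
    intro c hc
    have hc0 := hc.1
    rw [ENNReal.ofReal_mul (by positivity), lint_F hp c]
    have : ∀ z : ℝ, ENNReal.ofReal (c ^ n * ker p c z) = ENNReal.ofReal (c ^ n) * ENNReal.ofReal (ker p c z) :=
      fun z => ENNReal.ofReal_mul (by positivity)
    simp_rw [this]
    have hkm2 : Measurable (ker p c) := by unfold ker; fun_prop
    rw [lintegral_const_mul _ hkm2.ennreal_ofReal]
    ring
  have hm2 : Measurable (Function.uncurry fun (c z : ℝ) => ENNReal.ofReal (c ^ n * ker p c z)) := by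
    apply Measurable.ennreal_ofReal
    exact (by fun_prop : Measurable (fun x : ℝ × ℝ => x.1 ^ n)).mul hkm
  rw [setLIntegral_congr_fun measurableSet_Ioc e1, lintegral_const_mul]
  · rw [lintegral_lintegral_swap hm2.aemeasurable]
    have e2 : ∀ z ∈ Ioo (0:ℝ) 1, ∫⁻ c in Ioc (0:ℝ) 1, ENNReal.ofReal (c ^ n * ker p c z) =
        ENNReal.ofReal (1 / 2 * beta (((n:ℝ) + 1) / 2) (3 / 2)) *
          ENNReal.ofReal ((G p z) ^ (n + 2) / (p * z)) := by
      intro z hz
      have hz0 := hz.1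
      have hg := G_pos hp hz
      have h := inner hg (G_le_one hp hz) n
      have e3 : ∀ c ∈ Ioc (0:ℝ) 1, ENNReal.ofReal (c ^ n * ker p c z) =
          ENNReal.ofReal (c ^ n * √((G p z) ^ 2 - c ^ 2)) * ENNReal.ofReal (1 / (p * z)) := by
        intro c hc
        have hc0 := hc.1
        rw [← ENNReal.ofReal_mul (by positivity)]
        unfold ker
        congr 1
        ring
      rw [setLIntegral_congr_fun measurableSet_Ioc e3, lintegral_mul_const _ (by fun_prop), h,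
        ← ENNReal.ofReal_mul (by positivity), ← ENNReal.ofReal_mul (by positivity)]
      congr 1
      ring
    rw [setLIntegral_congr_fun measurableSet_Ioo e2, lintegral_const_mul _ (by fun_prop),
      lint_G hp (by omega), ← ENNReal.ofReal_mul (by positivity),
      ← ENNReal.ofReal_ofNat 2, ← ENNReal.ofReal_mul (by norm_num)]
  · exact hm2.lintegral_prod_right'

theorem F_nonneg {p : ℝ} (hp : 2 < p) (c : ℝ) : 0 ≤ F p c := by
  unfold F
  apply mul_nonneg (by norm_num)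
  apply intervalIntegral.integral_nonneg (by norm_num)
  intro z hz
  have := hz.1
  have hp0 : 0 < p := by linarith
  positivity

theorem F_meas {p : ℝ} : AEStronglyMeasurable (F p) (volume.restrict (Ioc (0:ℝ) 1)) := by
  have hGm := G_meas p
  have hkm : Measurable (Function.uncurry (ker p)) := by
    unfold Function.uncurry ker; fun_prop
  have h1 : StronglyMeasurable (fun c : ℝ => ∫ z in Ioo (0:ℝ) 1, ker p c z) :=
    hkm.stronglyMeasurable.integral_prod_right'
  have h2 : F p = fun c => 2 * ∫ z in Ioo (0:ℝ) 1, ker p c z := by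
    funext c
    unfold F
    rw [intervalIntegral.integral_of_le (by norm_num), integral_Ioc_eq_integral_Ioo]
    rfl
  rw [h2]
  exact (h1.const_mul 2).aestronglyMeasurable

theorem mom : S_MOM := by
  intro p hp n
  have hq := cq_pos hp
  have hp0 : 0 < p := by linarith
  have hpi := Real.pi_pos
  have h0 : 0 ≤ᵐ[volume.restrict (Ioc (0:ℝ) 1)] fun c => c ^ n * F p c := by
    filter_upwards [ae_restrict_mem measurableSet_Ioc] with c hc
    exact mul_nonneg (pow_nonneg hc.1.le n) (F_nonneg hp c)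
  rw [intervalIntegral.integral_of_le (by norm_num), integral_eq_lintegral_of_nonneg_ae h0
    ((by fun_prop : Measurable (fun c : ℝ => c ^ n)).aestronglyMeasurable.mul F_meas), lint_mom hp n]
  have hb1 : 0 < beta (((n:ℝ) + 1) / 2) (3 / 2) := beta_pos (by positivity) (by norm_num)
  have hb2 : 0 < beta (((n + 2 : ℕ):ℝ) / p) (((n + 2 : ℕ):ℝ) / cq p + 1) :=
    beta_pos (by positivity) (by positivity)
  rw [ENNReal.toReal_ofReal (by positivity)]
  -- Gamma algebra
  obtain ⟨σ, hσ⟩ : ∃ σ : ℝ, σ = (n:ℝ) + 2 := ⟨_, rfl⟩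
  have hσc : ((n + 2 : ℕ) : ℝ) = σ := by rw [hσ]; push_cast; ring
  have hσ0 : 0 < σ := by rw [hσ]; positivity
  have hn1 : (0:ℝ) < (n:ℝ) + 1 := by positivity
  rw [hσc, ← hσ]
  unfold KK beta
  have hinv := inv_add hp
  have g1 : Real.Gamma (((n:ℝ) + 1) / 2 + 3 / 2) = σ / 2 * Real.Gamma (σ / 2) := by
    have : ((n:ℝ) + 1) / 2 + 3 / 2 = σ / 2 + 1 := by rw [hσ]; ring
    rw [this, Real.Gamma_add_one (by positivity)]
  have g2 : Real.Gamma (3 / 2) = 1 / 2 * √π := by
    have : (3:ℝ) / 2 = 1 / 2 + 1 := by norm_num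
    rw [this, Real.Gamma_add_one (by norm_num), Real.Gamma_one_half_eq]
  have g3 : Real.Gamma (σ / 2 + 1 / 2) = ((n:ℝ) + 1) / 2 * Real.Gamma (((n:ℝ) + 1) / 2) := by
    have : σ / 2 + 1 / 2 = ((n:ℝ) + 1) / 2 + 1 := by rw [hσ]; ring
    rw [this, Real.Gamma_add_one (by positivity)]
  have g4 : Real.Gamma (σ / p + (σ / cq p + 1)) = σ * Real.Gamma σ := by
    have : σ / p + (σ / cq p + 1) = σ + 1 := by
      have : σ / p + σ / cq p = σ := by
        have : σ / p + σ / cq p = σ * (1 / p + 1 / cq p) := by ring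
        rw [this, hinv, mul_one]
      linarith
    rw [this, Real.Gamma_add_one hσ0.ne']
  have g5 : Real.Gamma (σ / cq p + 1) = σ / cq p * Real.Gamma (σ / cq p) :=
    Real.Gamma_add_one (by positivity)
  have g6 := Real.Gamma_mul_Gamma_add_half (σ / 2)
  rw [g3] at g6
  have g7 : 2 * (σ / 2) = σ := by ring
  rw [g7] at g6
  have g8 : (p ^ (1 / p) * cq p ^ (1 / cq p) / 2) ^ σ = p ^ (σ / p) * cq p ^ (σ / cq p) / 2 ^ σ := by
    rw [Real.div_rpow (by positivity) (by norm_num), Real.mul_rpow (by positivity) (by positivity),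
      ← Real.rpow_mul hp0.le, ← Real.rpow_mul hq.le]
    congr 3
    · ring
    · ring
  have g9 : p ^ (σ / p - 1) = p ^ (σ / p) / p := by
    rw [Real.rpow_sub hp0, Real.rpow_one]
  have g10 : (2:ℝ) ^ (1 - σ) = 2 / 2 ^ σ := by
    rw [Real.rpow_sub (by norm_num), Real.rpow_one]
  rw [g10] at g6
  rw [g1, g2, g4, g5, g8, g9]
  have hA : 0 < Real.Gamma (((n:ℝ) + 1) / 2) := Real.Gamma_pos_of_pos (by positivity)
  have hB : 0 < Real.Gamma (σ / 2) := Real.Gamma_pos_of_pos (by positivity)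
  have hG : 0 < Real.Gamma σ := Real.Gamma_pos_of_pos hσ0
  have hP : 0 < Real.Gamma (σ / p) := Real.Gamma_pos_of_pos (by positivity)
  have hQ : 0 < Real.Gamma (σ / cq p) := Real.Gamma_pos_of_pos (by positivity)
  generalize Real.Gamma (((n:ℝ) + 1) / 2) = A at *
  generalize Real.Gamma (σ / 2) = B at *
  generalize Real.Gamma σ = Gs at *
  generalize Real.Gamma (σ / p) = P1 at *
  generalize Real.Gamma (σ / cq p) = Q1 at *
  have hs : √π * √π = π := Real.mul_self_sqrt hpi.le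
  have hsp : 0 < √π := Real.sqrt_pos.2 hpi
  have ht : (0:ℝ) < 2 ^ σ := by positivity
  have ha : 0 < p ^ (σ / p) := by positivity
  have hb : 0 < cq p ^ (σ / cq p) := by positivity
  generalize √π = r at *
  generalize (2:ℝ) ^ σ = t at *
  generalize p ^ (σ / p) = a at *
  generalize cq p ^ (σ / cq p) = b at *
  rw [← hs]
  have g6' : Gs = B * (((n:ℝ) + 1) / 2 * A) * t / (2 * r) := by
    field_simp
    field_simp at g6
    linarith
  rw [g6']
  field_simp
  norm_num

end Pool.Agent.NH65.PL.Mom
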