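import Pool.Agent.NH65.PL.Stm

/-!
# Special values and numerical bounds (helper78, job PL12)
-/

set_option autoImplicit false

namespace Pool.Agent.NH65.PL.Num

open Real Set MeasureTheory Filter Topology

/-- the beta integral over the reals -/
private lemma beta_real (a b : ℝ) (ha : 0 < a) (hb : 0 < b) :
    IntervalIntegrable (fun x : ℝ => x ^ (a - 1) * (1 - x) ^ (b - 1)) volume 0 1 ∧
      ∫ x in (0:ℝ)..1, x ^ (a - 1) * (1 - x) ^ (b - 1) =
        Real.Gamma a * Real.Gamma b / Real.Gamma (a + b) := by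
  have e1 : ∀ x ∈ Set.uIcc (0:ℝ) 1, (x : ℂ) ^ ((a : ℂ) - 1) * (1 - (x : ℂ)) ^ ((b : ℂ) - 1) =
      ((x ^ (a - 1) * (1 - x) ^ (b - 1) : ℝ) : ℂ) := by
    intro x hx
    rw [Set.uIcc_of_le zero_le_one] at hx
    rw [Complex.ofReal_mul, Complex.ofReal_cpow hx.1, Complex.ofReal_cpow (by linarith [hx.2])]
    push_cast
    rfl
  have h1 := Complex.betaIntegral_convergent (u := (a : ℂ)) (v := (b : ℂ)) (by simpa) (by simpa)
  have h2 := Complex.betaIntegral_eq_Gamma_mul_div (a : ℂ) (b : ℂ) (by simpa) (by simpa)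
  constructor
  · have h3 := h1.norm
    refine h3.congr ?_
    intro x hx
    have hx' : x ∈ Set.uIcc (0:ℝ) 1 := Set.uIoc_subset_uIcc hx
    rw [Set.uIcc_of_le zero_le_one] at hx'
    change ‖(x : ℂ) ^ ((a : ℂ) - 1) * (1 - (x : ℂ)) ^ ((b : ℂ) - 1)‖ = _
    rw [e1 x (Set.uIoc_subset_uIcc hx), Complex.norm_real, Real.norm_of_nonneg]
    have : 0 ≤ 1 - x := by linarith [hx'.2]
    have := hx'.1
    positivity
  · unfold Complex.betaIntegral at h2
    rw [intervalIntegral.integral_congr e1, intervalIntegral.integral_ofReal, ← Complex.ofReal_add,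
      Complex.Gamma_ofReal, Complex.Gamma_ofReal, Complex.Gamma_ofReal] at h2
    exact_mod_cast h2

section
variable {p : ℝ} (hp : 2 < p)
include hp

private lemma cq_pos : 0 < cq p := by
  unfold cq
  apply div_pos <;> linarith

private lemma inv_cq : 1 / cq p = 1 - 1 / p := by
  unfold cq
  have : p - 1 ≠ 0 := by linarith
  have : p ≠ 0 := by linarith
  field_simp

private lemma G_nonneg {z : ℝ} (h0 : 0 ≤ z) (h1 : z ≤ 1) : 0 ≤ G p z := by
  unfold G
  have := cq_pos hp
  have : 0 ≤ 1 - z := by linarith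
  have : 0 ≤ p := by linarith
  positivity

private lemma G_div {z : ℝ} (h0 : 0 ≤ z) (h1 : z ≤ 1) : G p z / (p * z) =
    p ^ (1 / p - 1) * cq p ^ (1 / cq p) * (z ^ (1 / p - 1) * (1 - z) ^ (1 / cq p + 1 - 1)) := by
  have hp0 : 0 < p := by linarith
  have hlt : 1 / p - 1 < 0 := by
    have : 1 / p < 1 := by
      rw [div_lt_one hp0]; linarith
    linarith
  unfold G
  rcases h0.eq_or_lt with h | h
  · rw [← h, Real.zero_rpow hlt.ne]
    simp
  · rw [Real.mul_rpow (cq_pos hp).le (by linarith), add_sub_cancel_right, Real.rpow_sub_one hp0.ne',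
      Real.rpow_sub_one h.ne', Real.mul_rpow hp0.le h0]
    field_simp

private lemma G_int : IntervalIntegrable (fun z => G p z / (p * z)) volume 0 1 := by
  have hp0 : 0 < p := by linarith
  have h1 := (beta_real (1 / p) (1 / cq p + 1) (by positivity)
    (by have := cq_pos hp; positivity)).1.const_mul (p ^ (1 / p - 1) * cq p ^ (1 / cq p))
  refine h1.congr ?_
  intro z hz
  have hx' : z ∈ Set.uIcc (0:ℝ) 1 := Set.uIoc_subset_uIcc hz
  rw [Set.uIcc_of_le zero_le_one] at hx'
  exact (G_div hp hx'.1 hx'.2).symm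

private lemma F_zero : F p 0 = 2 * π * (p - 1) ^ (1 / p) / (p * sin (π / p)) := by
  have hp0 : 0 < p := by linarith
  have hq := cq_pos hp
  unfold F
  have e1 : ∫ z in (0:ℝ)..1, √((G p z) ^ 2 - 0 ^ 2) / (p * z) =
      ∫ z in (0:ℝ)..1, p ^ (1 / p - 1) * cq p ^ (1 / cq p) *
        (z ^ (1 / p - 1) * (1 - z) ^ (1 / cq p + 1 - 1)) := by
    refine intervalIntegral.integral_congr fun z hz => ?_
    rw [Set.uIcc_of_le zero_le_one] at hz
    rw [show (G p z) ^ 2 - 0 ^ 2 = (G p z) ^ 2 by ring, Real.sqrt_sq (G_nonneg hp hz.1 hz.2)]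
    exact G_div hp hz.1 hz.2
  rw [e1, intervalIntegral.integral_const_mul, (beta_real (1 / p) (1 / cq p + 1) (by positivity)
    (by positivity)).2, Real.Gamma_add_one (by positivity), inv_cq hp,
    show 1 / p + (1 - 1 / p + 1) = 2 by ring, Real.Gamma_two, div_one]
  have e2 : Real.Gamma (1 / p) * Real.Gamma (1 - 1 / p) = π / sin (π / p) := by
    rw [Real.Gamma_mul_Gamma_one_sub]
    congr 2
    ring
  have e3 : p ^ (1 / p - 1) * cq p ^ (1 - 1 / p) * (1 - 1 / p) = (p - 1) ^ (1 / p) / p := by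
    have h4 : (1 - 1 / p) = (cq p)⁻¹ := by
      rw [← inv_cq hp, one_div]
    rw [Real.rpow_sub_one hp0.ne', mul_assoc]
    have h5 : cq p ^ (1 - 1 / p) * (1 - 1 / p) = (cq p ^ (1 / p))⁻¹ := by
      rw [Real.rpow_sub hq, Real.rpow_one, h4]
      field_simp
    rw [h5]
    have h6 : p - 1 = p / cq p := by
      unfold cq
      have : p - 1 ≠ 0 := by linarith
      field_simp
    rw [h6, Real.div_rpow hp0.le hq.le]
    field_simp
  calc 2 * (p ^ (1 / p - 1) * cq p ^ (1 - 1 / p) *
        (Real.Gamma (1 / p) * ((1 - 1 / p) * Real.Gamma (1 - 1 / p)))) =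
      2 * (p ^ (1 / p - 1) * cq p ^ (1 - 1 / p) * (1 - 1 / p)) *
        (Real.Gamma (1 / p) * Real.Gamma (1 - 1 / p)) := by ring
    _ = _ := by
      rw [e2, e3]
      field_simp

private lemma g_int (c : ℝ) :
    IntervalIntegrable (fun z => √((G p z) ^ 2 - c ^ 2) / (p * z)) volume 0 1 := by
  have hp0 : 0 < p := by linarith
  refine (G_int hp).mono_fun ?_ ?_
  · have : Measurable (fun z => √((G p z) ^ 2 - c ^ 2) / (p * z)) := by
      unfold G
      fun_prop
    exact this.aestronglyMeasurable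
  · refine (ae_restrict_iff' measurableSet_uIoc).mpr (Filter.Eventually.of_forall fun z hz => ?_)
    have hx' : z ∈ Set.uIcc (0:ℝ) 1 := Set.uIoc_subset_uIcc hz
    rw [Set.uIcc_of_le zero_le_one] at hx'
    have hG := G_nonneg hp hx'.1 hx'.2
    have h0 := hx'.1
    change ‖√((G p z) ^ 2 - c ^ 2) / (p * z)‖ ≤ ‖G p z / (p * z)‖
    rw [Real.norm_of_nonneg (by positivity), Real.norm_of_nonneg (by positivity)]
    apply div_le_div_of_nonneg_right _ (by positivity)
    calc √((G p z) ^ 2 - c ^ 2) ≤ √((G p z) ^ 2) := Real.sqrt_le_sqrt (by nlinarith [sq_nonneg c])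
      _ = G p z := Real.sqrt_sq hG

private lemma G_lower {z : ℝ} (h0 : 0 ≤ z) (h1 : z ≤ 1 / p) : (p * z) ^ (1 / p) ≤ G p z := by
  have hp0 : 0 < p := by linarith
  unfold G
  have h2 : 1 ≤ cq p * (1 - z) := by
    have h3 : cq p * (1 - 1 / p) = 1 := by
      unfold cq
      have : p - 1 ≠ 0 := by linarith
      field_simp
    have := cq_pos hp
    nlinarith
  have h3 : 1 ≤ (cq p * (1 - z)) ^ (1 / cq p) :=
    Real.one_le_rpow h2 (by have := cq_pos hp; positivity)
  exact le_mul_of_one_le_right (by positivity) h3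

/-- the antiderivative -/
private noncomputable def AA (p c z : ℝ) : ℝ :=
  √(((p * z) ^ (1 / p)) ^ 2 - c ^ 2) - c * arccos (c / (p * z) ^ (1 / p))

private lemma AA_deriv {c z : ℝ} (hc : 0 < c) (hz : 0 < z) (hcz : c < (p * z) ^ (1 / p)) :
    HasDerivAt (AA p c) (√(((p * z) ^ (1 / p)) ^ 2 - c ^ 2) / (p * z)) z := by
  have hp0 : 0 < p := by linarith
  have hpz : 0 < p * z := by positivity
  have hR : HasDerivAt (fun z => (p * z) ^ (1 / p)) ((p * z) ^ (1 / p) / (p * z)) z := by
    have h1 : HasDerivAt (fun z : ℝ => p * z) p z := by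
      simpa using (hasDerivAt_id z).const_mul p
    have h2 := h1.rpow_const (p := 1 / p) (Or.inl hpz.ne')
    convert h2 using 1
    rw [Real.rpow_sub_one hpz.ne']
    field_simp
  obtain ⟨R, hRd⟩ : ∃ R : ℝ, R = (p * z) ^ (1 / p) := ⟨_, rfl⟩
  have hR0 : 0 < R := by rw [hRd]; exact hc.trans hcz
  rw [← hRd] at hcz
  have hw2 : 0 < R ^ 2 - c ^ 2 := by nlinarith
  obtain ⟨w, hw⟩ : ∃ w : ℝ, w = √(R ^ 2 - c ^ 2) := ⟨_, rfl⟩
  have hw0 : 0 < w := by rw [hw]; exact Real.sqrt_pos.mpr hw2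
  have hww : w ^ 2 = R ^ 2 - c ^ 2 := by rw [hw]; exact Real.sq_sqrt hw2.le
  have h3 : HasDerivAt (fun z => √(((p * z) ^ (1 / p)) ^ 2 - c ^ 2))
      ((2 * R * (R / (p * z))) / (2 * w)) z := by
    refine (((hR.pow 2).sub_const (c ^ 2)).sqrt (by
      change ((p * z) ^ (1 / p)) ^ 2 - c ^ 2 ≠ 0
      rw [← hRd]; exact hw2.ne')).congr_deriv ?_
    simp only [Pi.pow_apply]
    rw [← hRd, ← hw]
    push_cast
    ring
  have hq : c / R < 1 := by rw [div_lt_one hR0]; exact hcz
  have hq0 : 0 < c / R := by positivity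
  have h5 : √(1 - (c / R) ^ 2) = w / R := by
    rw [Real.sqrt_eq_iff_mul_self_eq (by rw [div_pow]; rw [sub_nonneg, div_le_one (by positivity)]; nlinarith) (by positivity)]
    field_simp
    linarith
  have h6 : HasDerivAt (fun z => arccos (c / (p * z) ^ (1 / p)))
      (-(1 / (w / R)) * (-(c * (R / (p * z))) / R ^ 2)) z := by
    have h7 : HasDerivAt (fun z => c / (p * z) ^ (1 / p)) (-(c * (R / (p * z))) / R ^ 2) z := by
      refine ((hasDerivAt_const z c).div hR (by rw [← hRd]; exact hR0.ne')).congr_deriv ?_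
      rw [← hRd]
      ring
    have h9 := Real.hasDerivAt_arccos (x := c / (p * z) ^ (1 / p))
      (by rw [← hRd]; linarith) (by rw [← hRd]; exact hq.ne)
    have h10 := h9.comp z h7
    rw [← hRd, h5] at h10
    exact h10
  refine (h3.sub (h6.const_mul c)).congr_deriv ?_
  rw [← hRd, ← hw]
  field_simp
  nlinarith

private lemma F_lower {c : ℝ} (hc : c ∈ Icc (0:ℝ) 1) :
    2 * (√(1 - c ^ 2) - c * arccos c) ≤ F p c := by
  have hp0 : 0 < p := by linarith
  rcases hc.1.eq_or_lt with h | hc0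
  · rw [← h, F_zero hp]
    have hx : 0 < π / p := by positivity
    have hx' : π / p < π := by
      rw [div_lt_iff₀ hp0]
      nlinarith [Real.pi_pos]
    have h1 : 0 < sin (π / p) := Real.sin_pos_of_pos_of_lt_pi hx hx'
    have h2 : sin (π / p) ≤ π / p := (Real.sin_lt hx).le
    have h3 : p * sin (π / p) ≤ π := by
      calc p * sin (π / p) ≤ p * (π / p) := mul_le_mul_of_nonneg_left h2 hp0.le
        _ = π := by field_simp
    have h4 : (1:ℝ) ≤ (p - 1) ^ (1 / p) := Real.one_le_rpow (by linarith) (by positivity)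
    rw [le_div_iff₀ (by positivity)]
    have h5 : 2 * (√(1 - 0 ^ 2) - 0 * arccos 0) = 2 := by
      simp
    rw [h5]
    nlinarith [Real.pi_pos]
  · obtain ⟨a, ha⟩ : ∃ a : ℝ, a = c ^ p / p := ⟨_, rfl⟩
    obtain ⟨b, hb⟩ : ∃ b : ℝ, b = 1 / p := ⟨_, rfl⟩
    have ha0 : 0 < a := by rw [ha]; positivity
    have hab : a ≤ b := by
      rw [ha, hb]
      apply div_le_div_of_nonneg_right _ hp0.le
      exact Real.rpow_le_one hc0.le hc.2 hp0.le
    have hb1 : b ≤ 1 := by
      rw [hb, div_le_one hp0]; linarith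
    have hRa : (p * a) ^ (1 / p) = c := by
      rw [ha, mul_div_cancel₀ _ hp0.ne', ← Real.rpow_mul hc0.le, mul_one_div_cancel hp0.ne',
        Real.rpow_one]
    have hRb : (p * b) ^ (1 / p) = 1 := by
      rw [hb, mul_one_div_cancel hp0.ne', Real.one_rpow]
    have hRmono : ∀ z, a < z → c < (p * z) ^ (1 / p) := by
      intro z hz
      rw [← hRa]
      apply Real.rpow_lt_rpow (by positivity) _ (by positivity)
      exact mul_lt_mul_of_pos_left hz hp0
    have hcR : ContinuousOn (fun z : ℝ => (p * z) ^ (1 / p)) (Icc a b) := by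
      apply ContinuousOn.rpow_const (by fun_prop)
      intro z _
      right
      positivity
    have hne : ∀ z ∈ Icc a b, (p * z) ^ (1 / p) ≠ 0 := by
      intro z hz
      have : 0 < z := ha0.trans_le hz.1
      positivity
    have hcont : ContinuousOn (AA p c) (Icc a b) := by
      unfold AA
      refine ContinuousOn.sub ?_ ?_
      · exact ((hcR.pow 2).sub continuousOn_const).sqrt
      · exact continuousOn_const.mul
          (Real.continuous_arccos.comp_continuousOn (continuousOn_const.div hcR hne))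
    have hcd : ContinuousOn (fun z => √(((p * z) ^ (1 / p)) ^ 2 - c ^ 2) / (p * z)) (Icc a b) := by
      refine ContinuousOn.div ?_ (by fun_prop) ?_
      · exact ((hcR.pow 2).sub continuousOn_const).sqrt
      · intro z hz
        have : 0 < z := ha0.trans_le hz.1
        positivity
    have hii : IntervalIntegrable (fun z => √(((p * z) ^ (1 / p)) ^ 2 - c ^ 2) / (p * z))
        volume a b := by
      apply ContinuousOn.intervalIntegrable
      rw [Set.uIcc_of_le hab]
      exact hcd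
    have hftc := intervalIntegral.integral_eq_sub_of_hasDerivAt_of_le hab hcont
      (fun z hz => AA_deriv hp hc0 (ha0.trans hz.1) (hRmono z hz.1)) hii
    have hval : AA p c b - AA p c a = √(1 - c ^ 2) - c * arccos c := by
      unfold AA
      rw [hRa, hRb, div_self hc0.ne', Real.arccos_one, div_one]
      simp
    rw [hval] at hftc
    have hg := g_int hp c
    have hsub : IntervalIntegrable (fun z => √((G p z) ^ 2 - c ^ 2) / (p * z)) volume a b := by
      refine hg.mono_set ?_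
      rw [Set.uIcc_of_le hab, Set.uIcc_of_le zero_le_one]
      exact Icc_subset_Icc ha0.le hb1
    have hm1 : ∫ z in a..b, √(((p * z) ^ (1 / p)) ^ 2 - c ^ 2) / (p * z) ≤
        ∫ z in a..b, √((G p z) ^ 2 - c ^ 2) / (p * z) := by
      refine intervalIntegral.integral_mono_on hab hii hsub fun z hz => ?_
      have hz0 : 0 < z := ha0.trans_le hz.1
      apply div_le_div_of_nonneg_right _ (by positivity)
      apply Real.sqrt_le_sqrt
      have h1 := G_lower hp hz0.le (hz.2.trans hb.le)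
      have h2 : 0 ≤ (p * z) ^ (1 / p) := by positivity
      nlinarith
    have hm2 : ∫ z in a..b, √((G p z) ^ 2 - c ^ 2) / (p * z) ≤
        ∫ z in (0:ℝ)..1, √((G p z) ^ 2 - c ^ 2) / (p * z) := by
      refine intervalIntegral.integral_mono_interval ha0.le hab hb1 ?_ hg
      refine (ae_restrict_iff' measurableSet_Ioc).mpr (Filter.Eventually.of_forall fun z hz => ?_)
      have := hz.1
      change 0 ≤ √((G p z) ^ 2 - c ^ 2) / (p * z)
      positivity
    unfold F
    linarith

end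

theorem num : S_NUM :=
  ⟨fun _ hp => F_zero hp, fun _ hp _ hc => F_lower hp hc⟩

private lemma num2_1 (h : S_NUM) : ∀ p ∈ Icc (9:ℝ) 10, 25 * p ^ 2 = 256 * (p - 1) →
    25 / 31 * π < F p 0 := by
  intro p hp hq
  have h1 : 9.11 < p := by
    by_contra hcon
    push Not at hcon
    nlinarith [hp.1]
  have h2 : p < 9.12 := by
    by_contra hcon
    push Not at hcon
    nlinarith [hp.2]
  have hp0 : 0 < p := by linarith
  rw [h.1 p (by linarith)]
  have hpi1 := Real.pi_gt_d4
  have hpi2 := Real.pi_lt_d4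
  obtain ⟨x, hx⟩ : ∃ x : ℝ, x = π / p := ⟨_, rfl⟩
  have hx1 : 0.3444 < x := by
    rw [hx, lt_div_iff₀ hp0]; nlinarith
  have hx2 : x < 0.3449 := by
    rw [hx, div_lt_iff₀ hp0]; nlinarith
  have hpx : p * x = π := by rw [hx]; field_simp
  have hxa : |x| ≤ 1 := by
    rw [abs_le]; constructor <;> linarith
  have hb := (abs_le.mp (Real.sin_bound hxa)).2
  rw [abs_of_pos (by linarith : 0 < x)] at hb
  have hs : sin x ≤ x * 0.98238 := by
    have e1 : x ^ 2 ≥ 0.1186 := by nlinarith
    have e2 : x ^ 4 ≤ 0.015 := by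
      calc x ^ 4 ≤ 0.3449 ^ 4 := pow_le_pow_left₀ (by linarith) hx2.le 4
        _ ≤ _ := by norm_num
    have e3 : sin x ≤ x * (1 - x ^ 2 / 6 + x ^ 4 / 100) := by
      have : x * (1 - x ^ 2 / 6 + x ^ 4 / 100) = x - x ^ 3 / 6 + x ^ 5 / 100 := by ring
      rw [this]
      linarith
    refine e3.trans ?_
    apply mul_le_mul_of_nonneg_left _ (by linarith)
    linarith
  have hs0 : 0 < sin x := Real.sin_pos_of_pos_of_lt_pi (by linarith) (by linarith)
  have hps : p * sin x ≤ 0.98238 * π := by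
    calc p * sin x ≤ p * (x * 0.98238) := mul_le_mul_of_nonneg_left hs hp0.le
      _ = 0.98238 * (p * x) := by ring
      _ = _ := by rw [hpx]
  have hpow : (1.25:ℝ) ≤ (p - 1) ^ (1 / p) := by
    have e1 : (1.25:ℝ) ^ p ≤ p - 1 := by
      have e2 : (1.25:ℝ) ^ p = 1.25 ^ (9:ℝ) * 1.25 ^ (p - 9) := by
        rw [← Real.rpow_add (by norm_num)]
        congr 1
        ring
      have e3 : (1.25:ℝ) ^ (p - 9) ≤ 1 + (p - 9) * 0.25 := by
        have := rpow_one_add_le_one_add_mul_self (s := 0.25) (by norm_num) (p := p - 9)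
          (by linarith) (by linarith)
        rw [show (1:ℝ) + 0.25 = 1.25 by norm_num] at this
        exact this
      have e4 : (1.25:ℝ) ^ (9:ℝ) ≤ 7.46 := by
        rw [show (9:ℝ) = ((9:ℕ) : ℝ) by norm_num, Real.rpow_natCast]
        norm_num
      rw [e2]
      calc (1.25:ℝ) ^ (9:ℝ) * 1.25 ^ (p - 9) ≤ 7.46 * (1 + (p - 9) * 0.25) :=
            mul_le_mul e4 e3 (by positivity) (by norm_num)
        _ ≤ p - 1 := by linarith
    calc (1.25:ℝ) = ((1.25:ℝ) ^ p) ^ (1 / p) := by
          rw [← Real.rpow_mul (by norm_num), mul_one_div_cancel hp0.ne', Real.rpow_one]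
      _ ≤ _ := Real.rpow_le_rpow (by positivity) e1 (by positivity)
  rw [← hx, lt_div_iff₀ (by positivity)]
  have h5 : 25 / 31 * π * (p * sin x) ≤ 25 / 31 * π * (0.98238 * π) :=
    mul_le_mul_of_nonneg_left hps (by positivity)
  have h6 : 2 * π * 1.25 ≤ 2 * π * (p - 1) ^ (1 / p) :=
    mul_le_mul_of_nonneg_left hpow (by positivity)
  have h7 : 25 / 31 * π * (0.98238 * π) < 2 * π * 1.25 := by
    have : 25 / 31 * (0.98238 * π) < 2 * 1.25 := by linarith
    nlinarith [Real.pi_pos]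
  linarith

private lemma num2_2 (h : S_NUM) : F 1000 0 < 2.03 := by
  rw [h.1 1000 (by norm_num)]
  have hpi1 := Real.pi_gt_d4
  have hpi2 := Real.pi_lt_d4
  have h1 : ((1000:ℝ) - 1) ^ (1 / (1000:ℝ)) ≤ 1.01 := by
    have e1 : (1000:ℝ) - 1 ≤ (1.01:ℝ) ^ (1000:ℝ) := by
      rw [show (1000:ℝ) = ((100 * 10 : ℕ) : ℝ) by norm_num, Real.rpow_natCast, pow_mul]
      have e2 : (2:ℝ) ≤ 1.01 ^ 100 := by norm_num
      calc (((100 * 10 : ℕ) : ℝ)) - 1 ≤ (2:ℝ) ^ 10 := by norm_num
        _ ≤ _ := pow_le_pow_left₀ (by norm_num) e2 10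
    calc ((1000:ℝ) - 1) ^ (1 / (1000:ℝ)) ≤ ((1.01:ℝ) ^ (1000:ℝ)) ^ (1 / (1000:ℝ)) :=
          Real.rpow_le_rpow (by norm_num) e1 (by norm_num)
      _ = 1.01 := by
        rw [← Real.rpow_mul (by norm_num)]
        norm_num
  have h2 : 3.1414 < 1000 * sin (π / 1000) := by
    have e1 := Real.sin_gt_sub_cube (x := π / 1000) (by positivity)
    have e2 : (π / 1000) ^ 3 ≤ 0.0000001 := by
      have : π / 1000 ≤ 0.0032 := by linarith
      calc (π / 1000) ^ 3 ≤ 0.0032 ^ 3 := pow_le_pow_left₀ (by positivity) this 3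
        _ ≤ _ := by norm_num
    linarith
  rw [div_lt_iff₀ (by linarith)]
  have h3 : 2 * π * ((1000:ℝ) - 1) ^ (1 / (1000:ℝ)) ≤ 2 * π * 1.01 :=
    mul_le_mul_of_nonneg_left h1 (by positivity)
  linarith

private lemma mul_cos_le {d : ℝ} (h0 : 0 ≤ d) (h1 : d ≤ π / 2) : d * cos d ≤ sin d := by
  rcases h0.eq_or_lt with h | h
  · rw [← h]; simp
  · rcases h1.eq_or_lt with h' | h'
    · rw [h', Real.cos_pi_div_two, Real.sin_pi_div_two, mul_zero]
      exact zero_le_one
    · have e1 := Real.lt_tan h h'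
      have e2 : 0 < cos d := Real.cos_pos_of_mem_Ioo ⟨by linarith [Real.pi_pos], h'⟩
      rw [Real.tan_eq_sin_div_cos, lt_div_iff₀ e2] at e1
      exact e1.le

private lemma tangent {a b : ℝ} (ha0 : 0 ≤ a) (ha1 : a ≤ π / 2) (hb0 : 0 ≤ b) (hb1 : b ≤ π / 2) :
    sin b ≤ sin a + (b - a) * cos a := by
  have hsa : 0 ≤ sin a := Real.sin_nonneg_of_nonneg_of_le_pi ha0 (by linarith [Real.pi_pos])
  have hca : 0 ≤ cos a := Real.cos_nonneg_of_neg_pi_div_two_le_of_le (by linarith [Real.pi_pos]) ha1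
  have e1 : sin b = sin a * cos (b - a) + cos a * sin (b - a) := by
    rw [← Real.sin_add]
    congr 1
    ring
  rcases le_total a b with h | h
  · have e2 : sin (b - a) ≤ b - a := Real.sin_le (by linarith)
    have e3 : cos (b - a) ≤ 1 := Real.cos_le_one _
    rw [e1]
    nlinarith
  · obtain ⟨d, hd⟩ : ∃ d : ℝ, d = a - b := ⟨_, rfl⟩
    have hd0 : 0 ≤ d := by linarith
    have hda : d ≤ a := by linarith
    have e2 : sin b = sin a * cos d - cos a * sin d := by
      rw [← Real.sin_sub]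
      congr 1
      linarith
    have e3 : cos a ≤ cos d := Real.cos_le_cos_of_nonneg_of_le_pi hd0 (by linarith [Real.pi_pos]) hda
    have e4 : sin d ≤ sin a := Real.sin_le_sin_of_le_of_le_pi_div_two (by linarith [Real.pi_pos])
      (by linarith) hda
    have e5 := mul_cos_le hd0 (by linarith)
    have e6 : cos d ≤ 1 := Real.cos_le_one _
    have e7 : sin d ≤ d := Real.sin_le hd0
    have e8 : cos a * (d - sin d) ≤ cos d * (d - sin d) :=
      mul_le_mul_of_nonneg_right e3 (by linarith)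
    have e9 : sin d * (1 - cos d) ≤ sin a * (1 - cos d) :=
      mul_le_mul_of_nonneg_right e4 (by linarith)
    have e10 : b - a = -d := by linarith
    rw [e2, e10]
    nlinarith

private lemma num2_3 : ∀ c ∈ Icc (0:ℝ) 1, 32 * sin (5 * π / 16) ≤
      16 * (2 * (√(1 - c ^ 2) - c * arccos c)) + 10 * π * c := by
  intro c hc
  have h1 : cos (arccos c) = c := Real.cos_arccos (by linarith [hc.1]) hc.2
  have h2 : sin (arccos c) = √(1 - c ^ 2) := Real.sin_arccos c
  have h3 := tangent (a := arccos c) (b := 5 * π / 16) (Real.arccos_nonneg c)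
    (Real.arccos_le_pi_div_two.mpr hc.1) (by positivity) (by linarith [Real.pi_pos])
  rw [h1, h2] at h3
  linarith

private lemma num2_4 : (26.5 : ℝ) < 32 * sin (5 * π / 16) := by
  have h1 : sin (5 * π / 16) = cos (3 * π / 16) := by
    rw [← Real.sin_pi_div_two_sub]
    congr 1
    ring
  have h2 : cos (3 * π / 16) ^ 2 = 1 / 2 + √(2 - √2) / 4 := by
    rw [Real.cos_sq, show 2 * (3 * π / 16) = π / 2 - π / 8 by ring, Real.cos_pi_div_two_sub,
      Real.sin_pi_div_eight]
    ring
  have h3 : √2 < 1.4143 := by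
    rw [Real.sqrt_lt' (by norm_num)]
    norm_num
  have h4 : 0.76 < √(2 - √2) := by
    rw [Real.lt_sqrt (by norm_num)]
    linarith
  have h5 : 0 < cos (3 * π / 16) :=
    Real.cos_pos_of_mem_Ioo ⟨by linarith [Real.pi_pos], by linarith [Real.pi_pos]⟩
  rw [h1]
  nlinarith

theorem num2 : S_NUM → S_NUM2 :=
  fun h => ⟨num2_1 h, num2_2 h, num2_3, num2_4⟩

end Pool.Agent.NH65.PL.Num
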