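import Pool.Agent.NH65.PL.Stm

/-!
# Project PL, module PL2: existence of orbits with given period
-/

set_option autoImplicit false

noncomputable section

namespace Pool.Agent.NH65.PL.Orbit

open Real Set MeasureTheory Filter Topology Pool.Agent.NH65.PL

theorem cq_gt {p : ℝ} (hp : 2 < p) : 1 < cq p := by
  unfold cq
  rw [lt_div_iff₀ (by linarith)]
  linarith

theorem cq_inv {p : ℝ} (hp : 2 < p) : 1 / p + 1 / cq p = 1 := by
  unfold cq
  have h1 : p ≠ 0 := by linarith
  have h2 : p - 1 ≠ 0 := by linarith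
  field_simp
  ring

theorem cq_add {p : ℝ} (hp : 2 < p) : p + cq p = p * cq p := by
  unfold cq
  have h2 : p - 1 ≠ 0 := by linarith
  field_simp
  ring

/-- Polar coordinates. -/
theorem sol_of {p c : ℝ} {R S u al : ℝ → ℝ} (hR : ∀ t, 0 < R t)
    (hS : ∀ t, 0 < S t) (hRS : ∀ t, R t ^ 2 * S t ^ 2 = u t ^ 2 + c ^ 2)
    (hen : ∀ t, R t ^ p / p + S t ^ cq p / cq p = 1)
    (hdR : ∀ t, HasDerivAt R (u t * S t ^ (cq p - 2) / R t) t)
    (hdu : ∀ t, HasDerivAt u (S t ^ cq p - R t ^ p) t)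
    (hda : ∀ t, HasDerivAt al (c * S t ^ (cq p - 2) / R t ^ 2) t) :
    IsSol p c (fun t => (R t : ℂ) * Complex.exp (Complex.I * (al t : ℂ)))
      (fun t => ((u t : ℂ) + c * Complex.I) / (R t : ℂ) * Complex.exp (Complex.I * (al t : ℂ))) := by
  have hexp : ∀ t, ‖Complex.exp (Complex.I * (al t : ℂ))‖ = 1 := by
    intro t
    rw [mul_comm]
    exact Complex.norm_exp_ofReal_mul_I _
  have hXn : ∀ t, ‖(R t : ℂ) * Complex.exp (Complex.I * (al t : ℂ))‖ = R t := by
    intro t
    rw [norm_mul, hexp, mul_one, Complex.norm_real, Real.norm_of_nonneg (hR t).le]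
  have hYn : ∀ t, ‖((u t : ℂ) + c * Complex.I) / (R t : ℂ) *
      Complex.exp (Complex.I * (al t : ℂ))‖ = S t := by
    intro t
    rw [norm_mul, hexp, mul_one, norm_div, Complex.norm_real, Real.norm_of_nonneg (hR t).le]
    have h1 : ‖(u t : ℂ) + c * Complex.I‖ = R t * S t := by
      have h2 : ‖(u t : ℂ) + c * Complex.I‖ ^ 2 = (R t * S t) ^ 2 := by
        rw [← Complex.normSq_eq_norm_sq, Complex.normSq_add_mul_I, mul_pow, hRS]
      exact (pow_left_inj₀ (norm_nonneg _) (mul_pos (hR t) (hS t)).le two_ne_zero).1 h2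
    rw [h1]
    have := (hR t).ne'
    field_simp
  have he : ∀ t, HasDerivAt (fun t => Complex.exp (Complex.I * (al t : ℂ)))
      (Complex.exp (Complex.I * (al t : ℂ)) *
        (Complex.I * ((c * S t ^ (cq p - 2) / R t ^ 2 : ℝ) : ℂ))) t := by
    intro t
    exact ((hda t).ofReal_comp.const_mul Complex.I).cexp
  have hpw : ∀ t, S t ^ cq p = S t ^ (cq p - 2) * S t ^ 2 := by
    intro t
    rw [← rpow_natCast (S t) 2, ← rpow_add (hS t)]
    congr 1
    push_cast
    ring
  have hpw' : ∀ t, R t ^ p = R t ^ (p - 2) * R t ^ 2 := by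
    intro t
    rw [← rpow_natCast (R t) 2, ← rpow_add (hR t)]
    congr 1
    push_cast
    ring
  refine ⟨fun t => ?_, fun t => ?_, fun t => ?_, fun t => ?_⟩
  · have h1 := (hdR t).ofReal_comp.mul (he t)
    rw [hYn]
    refine h1.congr_deriv ?_
    have h2 : (R t : ℂ) ≠ 0 := by exact_mod_cast (hR t).ne'
    push_cast
    field_simp
  · have h1 := (((hdu t).ofReal_comp.add_const ((c : ℂ) * Complex.I)).div
      (hdR t).ofReal_comp (by exact_mod_cast (hR t).ne')).mul (he t)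
    rw [hXn]
    refine h1.congr_deriv ?_
    have h2 : (R t : ℂ) ≠ 0 := by exact_mod_cast (hR t).ne'
    have h3 : ((S t ^ cq p - R t ^ p : ℝ) : ℂ) =
        ((S t ^ (cq p - 2) : ℝ) : ℂ) * ((S t : ℂ)) ^ 2 - ((R t ^ (p - 2) : ℝ) : ℂ) * (R t : ℂ) ^ 2 := by
      rw [hpw, hpw']
      push_cast
      ring
    have h4 : (R t : ℂ) ^ 2 * (S t : ℂ) ^ 2 = (u t : ℂ) ^ 2 + (c : ℂ) ^ 2 := by
      exact_mod_cast hRS t
    have h5 : (u t : ℂ) ^ 2 + (c : ℂ) ^ 2 =
        ((u t : ℂ) + c * Complex.I) * ((u t : ℂ) - c * Complex.I) := by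
      have := Complex.I_sq
      linear_combination ((c : ℂ) ^ 2) * this
    rw [h3]
    simp only [Pi.div_apply]
    push_cast
    generalize ((S t ^ (cq p - 2) : ℝ) : ℂ) = a at *
    generalize ((R t ^ (p - 2) : ℝ) : ℂ) = b at *
    generalize Complex.exp (Complex.I * (al t : ℂ)) = ee at *
    rw [h5] at h4
    field_simp
    have hI := Complex.I_sq
    linear_combination (a * ee) * h4
  · rw [hXn, hYn]
    exact hen t
  · have h1 : (starRingEnd ℂ) ((R t : ℂ) * Complex.exp (Complex.I * (al t : ℂ))) *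
        (((u t : ℂ) + c * Complex.I) / (R t : ℂ) * Complex.exp (Complex.I * (al t : ℂ))) =
        (u t : ℂ) + c * Complex.I := by
      rw [map_mul, Complex.conj_ofReal]
      have h2 : (R t : ℂ) ≠ 0 := by exact_mod_cast (hR t).ne'
      have h3 : (starRingEnd ℂ) (Complex.exp (Complex.I * (al t : ℂ))) *
          Complex.exp (Complex.I * (al t : ℂ)) = 1 := by
        rw [Complex.conj_mul', hexp]
        simp
      calc (R t : ℂ) * (starRingEnd ℂ) (Complex.exp (Complex.I * (al t : ℂ))) *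
            (((u t : ℂ) + c * Complex.I) / (R t : ℂ) * Complex.exp (Complex.I * (al t : ℂ)))
          = ((u t : ℂ) + c * Complex.I) * ((starRingEnd ℂ) (Complex.exp (Complex.I * (al t : ℂ))) *
            Complex.exp (Complex.I * (al t : ℂ))) := by field_simp
        _ = _ := by rw [h3, mul_one]
    rw [h1]
    simp

/-- The autonomous equation `ψ' = g(ψ)` with `g` periodic and positive. -/
theorem exists_psi {g : ℝ → ℝ} (hg : Continuous g) (hpos : ∀ s, 0 < g s)
    (hper : ∀ s, g (s + 2 * π) = g s) : ∃ ψ : ℝ → ℝ, (∀ t, HasDerivAt ψ (g (ψ t)) t) ∧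
      ∀ t, ψ (t + ∫ s in (0:ℝ)..(2 * π), 1 / g s) = ψ t + 2 * π := by
  have hic : Continuous (fun s => 1 / g s) := continuous_const.div hg (fun s => (hpos s).ne')
  obtain ⟨Gf, hGf⟩ : ∃ Gf : ℝ → ℝ, ∀ s, Gf s = ∫ r in (0:ℝ)..s, 1 / g r := ⟨_, fun _ => rfl⟩
  have hdG : ∀ s, HasDerivAt Gf (1 / g s) s := by
    intro s
    have : Gf = fun s => ∫ r in (0:ℝ)..s, 1 / g r := funext hGf
    rw [this]
    exact intervalIntegral.integral_hasDerivAt_right (hic.intervalIntegrable _ _)
      (hic.stronglyMeasurableAtFilter _ _) hic.continuousAt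
  have hGc : Continuous Gf := continuous_iff_continuousAt.2 (fun t => (hdG t).continuousAt)
  have hmono : StrictMono Gf := strictMono_of_deriv_pos (fun t => by
    rw [(hdG t).deriv]
    exact one_div_pos.2 (hpos t))
  have hG0 : Gf 0 = 0 := by rw [hGf, intervalIntegral.integral_same]
  -- upper bound for g
  obtain ⟨M, hM0, hM⟩ : ∃ M : ℝ, 0 < M ∧ ∀ s, g s ≤ M := by
    obtain ⟨x, _, hx⟩ := isCompact_Icc.exists_isMaxOn (⟨0, ⟨le_rfl, by positivity⟩⟩ :
      (Icc (0:ℝ) (2 * π)).Nonempty) hg.continuousOn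
    refine ⟨g x, hpos x, fun s => ?_⟩
    obtain ⟨y, hy, hys⟩ := Function.Periodic.exists_mem_Ico₀ (f := g) (c := 2 * π) hper
      (by positivity) s
    rw [hys]
    exact hx ⟨hy.1, hy.2.le⟩
  have hm2 : Monotone (fun s => Gf s - s / M) := by
    refine monotone_of_deriv_nonneg (fun s => ((hdG s).sub
      ((hasDerivAt_id s).div_const M)).differentiableAt) (fun s => ?_)
    have h1 := ((hdG s).sub ((hasDerivAt_id s).div_const M)).deriv
    have h2 : deriv (fun s => Gf s - s / M) s = 1 / g s - 1 / M := h1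
    rw [h2]
    have h3 := one_div_le_one_div_of_le (hpos s) (hM s)
    linarith
  have hsurj : Function.Surjective Gf := by
    refine hGc.surjective ?_ ?_
    · refine tendsto_atTop_mono' atTop (f₁ := fun s => s / M) ?_
        (tendsto_id.atTop_div_const hM0)
      filter_upwards [eventually_ge_atTop 0] with s hs
      have h1 := hm2 hs
      simp only [hG0, zero_div, sub_zero] at h1
      linarith
    · refine tendsto_atBot_mono' atBot (?_ : Gf ≤ᶠ[atBot] fun s => s / M)
        (tendsto_id.atBot_div_const hM0)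
      filter_upwards [eventually_le_atBot 0] with s hs
      have h1 := hm2 hs
      simp only [hG0, zero_div, sub_zero] at h1
      linarith
  let e : ℝ ≃o ℝ := StrictMono.orderIsoOfSurjective Gf hmono hsurj
  have he : ∀ s, e s = Gf s := fun s => rfl
  have hr : ∀ t, Gf (e.symm t) = t := fun t => e.apply_symm_apply t
  have hl : ∀ s, e.symm (Gf s) = s := fun s => e.symm_apply_apply s
  refine ⟨e.symm, fun t => ?_, fun t => ?_⟩
  · have h1 := HasDerivAt.of_local_left_inverse (f := Gf) (g := e.symm) (a := t)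
      e.symm.continuous.continuousAt (hdG _) (one_div_pos.2 (hpos _)).ne'
      (Eventually.of_forall hr)
    rw [one_div, inv_inv] at h1
    exact h1
  · have h1 : Gf (e.symm t + 2 * π) = t + ∫ s in (0:ℝ)..(2 * π), 1 / g s := by
      have hpi : Function.Periodic (fun s => 1 / g s) (2 * π) := fun s => by
        simp only [hper]
      have h2 := hpi.intervalIntegral_add_eq_add 0 (e.symm t)
        (fun a b => hic.intervalIntegrable a b)
      rw [zero_add] at h2
      rw [hGf, h2, ← hGf, hr]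
    rw [← h1, hl]

theorem orbit : S_ORBIT := by
  intro p hp Z H hZ c hc N M hN hNM
  have hq1 := cq_gt hp
  have hpq := cq_inv hp
  have hpa := cq_add hp
  have hc0 : 0 < c := hc.1
  have hk2 : kap c ^ 2 = 1 - c ^ 2 := Real.sq_sqrt (by nlinarith [hc.1, hc.2])
  have hk : 0 < kap c := Real.sqrt_pos.2 (by nlinarith [hc.1, hc.2])
  have hk1 : kap c < 1 := by nlinarith [hc.1]
  obtain ⟨k, hkd⟩ : ∃ k, k = kap c := ⟨_, rfl⟩
  rw [← hkd] at hk2 hk hk1
  have hmem' : ∀ s, k * cos s ∈ Ioo (-1:ℝ) 1 := by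
    intro s
    have h1 : |k * cos s| < 1 := by
      rw [abs_mul, abs_of_pos hk]
      exact lt_of_le_of_lt (mul_le_of_le_one_right hk.le (abs_cos_le_one s)) hk1
    exact abs_lt.1 h1
  have hmem : ∀ s, k * cos s ∈ Icc (-1:ℝ) 1 := fun s => Ioo_subset_Icc_self (hmem' s)
  have hHc : Continuous (fun s => H (k * cos s)) :=
    hZ.contH.comp_continuous (continuous_const.mul continuous_cos) hmem
  have hHp : ∀ s, 0 < H (k * cos s) := fun s => hZ.posH _ (hmem s)
  obtain ⟨ψ, hψ, hψT⟩ := exists_psi hHc hHp (fun s => by rw [cos_add_two_pi])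
  have hT : ∫ s in (0:ℝ)..(2 * π), 1 / H (k * cos s) = T H c := by rw [T, ← hkd]
  rw [hT] at hψT
  -- the functions
  obtain ⟨z, hz⟩ : ∃ z : ℝ → ℝ, ∀ t, z t = Z (k * cos (ψ t)) := ⟨_, fun _ => rfl⟩
  obtain ⟨u, hu⟩ : ∃ u : ℝ → ℝ, ∀ t, u t = k * sin (ψ t) := ⟨_, fun _ => rfl⟩
  obtain ⟨R, hR⟩ : ∃ R : ℝ → ℝ, ∀ t, R t = (p * z t) ^ (1 / p) := ⟨_, fun _ => rfl⟩
  obtain ⟨S, hS⟩ : ∃ S : ℝ → ℝ, ∀ t, S t = (cq p * (1 - z t)) ^ (1 / cq p) := ⟨_, fun _ => rfl⟩
  have hz0 : ∀ t, 0 < z t := by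
    intro t
    rw [hz, ← hZ.Z1]
    exact hZ.anti (hmem _) (right_mem_Icc.2 (by norm_num)) (hmem' _).2
  have hz1 : ∀ t, z t < 1 := by
    intro t
    rw [hz, ← hZ.Zm1]
    exact hZ.anti (left_mem_Icc.2 (by norm_num)) (hmem _) (hmem' _).1
  have hpz : ∀ t, 0 < p * z t := fun t => mul_pos (by linarith) (hz0 t)
  have hqz : ∀ t, 0 < cq p * (1 - z t) := fun t =>
    mul_pos (by linarith) (by linarith [hz1 t])
  have hR0 : ∀ t, 0 < R t := fun t => by rw [hR]; exact rpow_pos_of_pos (hpz t) _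
  have hS0 : ∀ t, 0 < S t := fun t => by rw [hS]; exact rpow_pos_of_pos (hqz t) _
  have hRp : ∀ t, R t ^ p = p * z t := by
    intro t
    rw [hR, ← rpow_mul (hpz t).le, one_div_mul_cancel (by linarith), rpow_one]
  have hSq : ∀ t, S t ^ cq p = cq p * (1 - z t) := by
    intro t
    rw [hS, ← rpow_mul (hqz t).le, one_div_mul_cancel (by linarith), rpow_one]
  have hRS : ∀ t, R t ^ 2 * S t ^ 2 = u t ^ 2 + c ^ 2 := by
    intro t
    have h1 : R t ^ 2 * S t ^ 2 = (G p (z t)) ^ 2 := by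
      rw [G, ← hR, ← hS, mul_pow]
    rw [h1, hz, hZ.eqG _ (hmem _), hu, mul_pow, mul_pow, hk2]
    have h2 := sin_sq_add_cos_sq (ψ t)
    nlinarith
  have hen : ∀ t, R t ^ p / p + S t ^ cq p / cq p = 1 := by
    intro t
    rw [hRp, hSq]
    have h1 : p ≠ 0 := by linarith
    have h2 : cq p ≠ 0 := by linarith
    field_simp
    ring
  have hw : ∀ t, HasDerivAt (fun t => k * cos (ψ t)) (-(u t) * H (k * cos (ψ t))) t := by
    intro t
    have h1 := ((hψ t).cos).const_mul k
    refine h1.congr_deriv ?_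
    rw [hu]
    ring
  have hdu : ∀ t, HasDerivAt u (S t ^ cq p - R t ^ p) t := by
    intro t
    have hue : u = fun t => k * sin (ψ t) := funext hu
    rw [hue]
    have h1 := ((hψ t).sin).const_mul k
    refine h1.congr_deriv ?_
    rw [hRp, hSq]
    have h2 := hZ.eqH _ (hmem (ψ t))
    rw [← hz] at h2
    have h3 : k * (cos (ψ t) * H (k * cos (ψ t))) = k * cos (ψ t) * H (k * cos (ψ t)) := by ring
    rw [h3, h2]
    linear_combination (z t) * hpa
  have hdz : ∀ t, HasDerivAt z (p * cq p * z t * (1 - z t) * u t / (R t ^ 2 * S t ^ 2)) t := by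
    intro t
    have hze : z = fun t => Z (k * cos (ψ t)) := funext hz
    have h1 := (hZ.deriv _ (hmem' (ψ t))).comp t (hw t)
    have h2 : HasDerivAt z (-(p * cq p * Z (k * cos (ψ t)) * (1 - Z (k * cos (ψ t)))) /
        ((1 - (k * cos (ψ t)) ^ 2) * H (k * cos (ψ t))) * (-(u t) * H (k * cos (ψ t)))) t := by
      rw [hze]
      exact h1
    refine h2.congr_deriv ?_
    rw [← hz]
    have h3 : 1 - (k * cos (ψ t)) ^ 2 = R t ^ 2 * S t ^ 2 := by
      rw [hRS, hu, mul_pow, mul_pow, hk2]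
      have h2 := sin_sq_add_cos_sq (ψ t)
      nlinarith
    rw [h3]
    have h4 := (hHp (ψ t)).ne'
    have h5 := (hR0 t).ne'
    have h6 := (hS0 t).ne'
    field_simp
  have hS2 : ∀ t, S t ^ (cq p - 2) = S t ^ cq p / S t ^ 2 := by
    intro t
    rw [← rpow_natCast (S t) 2, ← rpow_sub (hS0 t)]
    congr 1
  have hdR : ∀ t, HasDerivAt R (u t * S t ^ (cq p - 2) / R t) t := by
    intro t
    have hRe : R = fun t => (p * z t) ^ (1 / p) := funext hR
    have h1 := ((hdz t).const_mul p).rpow_const (p := 1 / p) (Or.inl (hpz t).ne')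
    have h2 : HasDerivAt R (p * (p * cq p * z t * (1 - z t) * u t / (R t ^ 2 * S t ^ 2)) *
        (1 / p) * (p * z t) ^ (1 / p - 1)) t := by
      rw [hRe] at h1 ⊢
      exact h1
    refine h2.congr_deriv ?_
    rw [rpow_sub_one (hpz t).ne', ← hR, hS2, hSq]
    have h3 : p ≠ 0 := by linarith
    have h4 := (hz0 t).ne'
    have h5 := (hR0 t).ne'
    have h6 := (hS0 t).ne'
    field_simp
  -- the angle
  have hden : ∀ s : ℝ, c ^ 2 + k ^ 2 * (sin s) ^ 2 ≠ 0 := fun s => by positivity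
  have hfc : Continuous (fun s => c / (c ^ 2 + k ^ 2 * (sin s) ^ 2) / H (k * cos s)) :=
    (continuous_const.div (continuous_const.add (continuous_const.mul (continuous_sin.pow 2)))
      hden).div hHc (fun s => (hHp s).ne')
  have hfp : Function.Periodic (fun s => c / (c ^ 2 + k ^ 2 * (sin s) ^ 2) / H (k * cos s))
      (2 * π) := fun s => by
    simp only [sin_add_two_pi, cos_add_two_pi]
  obtain ⟨Θ, hΘ⟩ : ∃ Θ : ℝ → ℝ, ∀ s, Θ s =
      ∫ r in (0:ℝ)..s, c / (c ^ 2 + k ^ 2 * (sin r) ^ 2) / H (k * cos r) := ⟨_, fun _ => rfl⟩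
  have hdΘ : ∀ s, HasDerivAt Θ (c / (c ^ 2 + k ^ 2 * (sin s) ^ 2) / H (k * cos s)) s := by
    intro s
    have : Θ = fun s => ∫ r in (0:ℝ)..s, c / (c ^ 2 + k ^ 2 * (sin r) ^ 2) / H (k * cos r) :=
      funext hΘ
    rw [this]
    exact intervalIntegral.integral_hasDerivAt_right (hfc.intervalIntegrable _ _)
      (hfc.stronglyMeasurableAtFilter _ _) hfc.continuousAt
  obtain ⟨al, hal⟩ : ∃ al : ℝ → ℝ, ∀ t, al t = (1 / p) * arctan (u t / c) + Θ (ψ t) :=
    ⟨_, fun _ => rfl⟩
  have hda : ∀ t, HasDerivAt al (c * S t ^ (cq p - 2) / R t ^ 2) t := by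
    intro t
    have hae : al = fun t => (1 / p) * arctan (u t / c) + Θ (ψ t) := funext hal
    rw [hae]
    have h1 := ((((hdu t).div_const c).arctan).const_mul (1 / p)).add ((hdΘ (ψ t)).comp t (hψ t))
    refine h1.congr_deriv ?_
    have e1 : c ^ 2 + k ^ 2 * (sin (ψ t)) ^ 2 = R t ^ 2 * S t ^ 2 := by
      rw [hRS, hu, mul_pow]
      ring
    have e2 : c ^ 2 + u t ^ 2 = R t ^ 2 * S t ^ 2 := by rw [hRS]; ring
    have e3 : 1 / (1 + (u t / c) ^ 2) * ((S t ^ cq p - R t ^ p) / c) =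
        c * (S t ^ cq p - R t ^ p) / (c ^ 2 + u t ^ 2) := by
      have : c ^ 2 + u t ^ 2 ≠ 0 := by positivity
      field_simp
    have e4 : S t ^ cq p = 1 + 1 / p * (S t ^ cq p - R t ^ p) := by
      have e6 := hen t
      have e7 : S t ^ cq p / cq p = S t ^ cq p * (1 - 1 / p) := by
        have : 1 / cq p = 1 - 1 / p := by linarith
        rw [← this]
        ring
      rw [e7] at e6
      have e8 : R t ^ p / p = 1 / p * R t ^ p := by ring
      rw [e8] at e6
      linarith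
    rw [e3, e1, e2, hS2]
    have h4 := (hHp (ψ t)).ne'
    have h5 := (hR0 t).ne'
    have h6 := (hS0 t).ne'
    have e9 : 1 / p * (c * (S t ^ cq p - R t ^ p) / (R t ^ 2 * S t ^ 2)) +
        c / (R t ^ 2 * S t ^ 2) / H (k * cos (ψ t)) * H (k * cos (ψ t)) =
        c / (R t ^ 2 * S t ^ 2) * (1 + 1 / p * (S t ^ cq p - R t ^ p)) := by
      have h7 : p ≠ 0 := by linarith
      field_simp
      ring
    rw [e9, ← e4]
    field_simp
  refine ⟨_, _, sol_of hR0 hS0 hRS hen hdR hdu hda, ?_⟩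
  intro t
  have hψN : ∀ (n : ℕ), ψ (t + n * T H c) = ψ t + n * (2 * π) := by
    intro n
    induction n with
    | zero => simp
    | succ n ih =>
      have h1 : t + ((n + 1 : ℕ) : ℝ) * T H c = (t + n * T H c) + T H c := by push_cast; ring
      rw [h1, hψT, ih]
      push_cast
      ring
  have hRN : R (t + N * T H c) = R t := by
    rw [hR, hR, hz, hz, hψN, cos_add_nat_mul_two_pi]
  have huN : u (t + N * T H c) = u t := by
    rw [hu, hu, hψN, sin_add_nat_mul_two_pi]
  have haN : al (t + N * T H c) = al t + 2 * π * M := by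
    rw [hal, hal, huN, hψN]
    have h1 : Θ (ψ t + N * (2 * π)) = Θ (ψ t) + N * Th H c := by
      have h2 := (hfp.nat_mul N).intervalIntegral_add_eq_add 0 (ψ t)
        (fun a b => hfc.intervalIntegrable a b)
      rw [hΘ, h2, ← hΘ]
      have h3 := hfp.intervalIntegral_add_zsmul_eq (N : ℤ) 0
        (fun a b => hfc.intervalIntegrable a b)
      have h4 : (0:ℝ) + (N : ℤ) • (2 * π) = 0 + ↑N * (2 * π) := by
        rw [zsmul_eq_mul]
        push_cast
        ring
      rw [h4] at h3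
      rw [h3, zero_add, zsmul_eq_mul, Th, hkd]
      push_cast
      rfl
    rw [h1, hNM]
    ring
  show (R (t + N * T H c) : ℂ) * Complex.exp (Complex.I * (al (t + N * T H c) : ℂ)) =
    (R t : ℂ) * Complex.exp (Complex.I * (al t : ℂ))
  rw [hRN, haN]
  congr 1
  have h1 : Complex.I * ((al t + 2 * π * M : ℝ) : ℂ) =
      Complex.I * (al t : ℂ) + (M : ℤ) * (2 * π * Complex.I) := by
    push_cast
    ring
  rw [h1, Complex.exp_add, Complex.exp_int_mul_two_pi_mul_I, mul_one]

end Pool.Agent.NH65.PL.Orbit
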