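import Pool.Agent.NH65.PL.Stm

/-!
PL1: the phase functions exist.
-/

set_option autoImplicit false

noncomputable section

namespace Pool.Agent.NH65.PL.Phase

open Real Set Filter Topology

variable {p : ℝ}

/-! ### the function `G` -/

lemma cq_pos (hp : 2 < p) : 0 < cq p := by
  unfold cq
  have : 0 < p - 1 := by linarith
  positivity

lemma one_div_cq (hp : 2 < p) : 1 / cq p = 1 - 1 / p := by
  unfold cq
  have h1 : p - 1 ≠ 0 := by linarith
  have h2 : p ≠ 0 := by linarith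
  field_simp

lemma cq_mul (hp : 2 < p) : cq p * (1 - 1 / p) = 1 := by
  rw [← one_div_cq hp]
  have := (cq_pos hp).ne'
  field_simp

lemma p_add (hp : 2 < p) : p + cq p = p * cq p := by
  unfold cq
  have h1 : p - 1 ≠ 0 := by linarith
  field_simp
  ring

lemma cont_G (hp : 2 < p) : Continuous (G p) := by
  unfold G
  have h1 : 0 ≤ 1 / p := by positivity
  have h2 : 0 ≤ 1 / cq p := by
    have := cq_pos hp
    positivity
  exact ((continuous_const.mul continuous_id).rpow_const fun x => Or.inr h1).mul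
    ((continuous_const.mul (continuous_const.sub continuous_id)).rpow_const fun x => Or.inr h2)

lemma G_zero (hp : 2 < p) : G p 0 = 0 := by
  unfold G
  have : 1 / p ≠ 0 := by positivity
  rw [mul_zero, Real.zero_rpow this, zero_mul]

lemma G_one (hp : 2 < p) : G p 1 = 0 := by
  unfold G
  have : 1 / cq p ≠ 0 := by
    have := cq_pos hp
    positivity
  rw [sub_self, mul_zero, Real.zero_rpow this, mul_zero]

lemma G_a (hp : 2 < p) : G p (1 / p) = 1 := by
  unfold G
  have h2 : p ≠ 0 := by linarith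
  rw [cq_mul hp, mul_one_div_cancel h2, Real.one_rpow, Real.one_rpow, one_mul]

lemma G_pos (hp : 2 < p) {z : ℝ} (hz : z ∈ Ioo (0 : ℝ) 1) : 0 < G p z := by
  unfold G
  have h1 : 0 < p * z := mul_pos (by linarith) hz.1
  have h2 : 0 < cq p * (1 - z) := mul_pos (cq_pos hp) (by linarith [hz.2])
  positivity

lemma G_nonneg (hp : 2 < p) {z : ℝ} (hz : z ∈ Icc (0 : ℝ) 1) : 0 ≤ G p z := by
  unfold G
  have h1 : 0 ≤ p * z := mul_nonneg (by linarith) hz.1
  have h2 : 0 ≤ cq p * (1 - z) := mul_nonneg (cq_pos hp).le (by linarith [hz.2])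
  positivity

lemma hasDeriv_G (hp : 2 < p) {z : ℝ} (hz : z ∈ Ioo (0 : ℝ) 1) :
    HasDerivAt (G p) (G p z * (1 - p * z) / (p * z * (1 - z))) z := by
  have hp0 : p ≠ 0 := by linarith
  have hq0 := (cq_pos hp).ne'
  have hz0 : z ≠ 0 := hz.1.ne'
  have hz1 : 1 - z ≠ 0 := by linarith [hz.2]
  have h1 : 0 < p * z := mul_pos (by linarith) hz.1
  have h2 : 0 < cq p * (1 - z) := mul_pos (cq_pos hp) (by linarith [hz.2])
  have d1 : HasDerivAt (fun z : ℝ => p * z) p z := by
    simpa using (hasDerivAt_id z).const_mul p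
  have d2 : HasDerivAt (fun z : ℝ => cq p * (1 - z)) (-cq p) z := by
    simpa using ((hasDerivAt_id z).const_sub 1).const_mul (cq p)
  have e1 := d1.rpow_const (p := 1 / p) (Or.inl h1.ne')
  have e2 := d2.rpow_const (p := 1 / cq p) (Or.inl h2.ne')
  have e3 := e1.mul e2
  refine e3.congr_deriv ?_
  rw [Real.rpow_sub_one h1.ne', Real.rpow_sub_one h2.ne']
  unfold G
  have hpq := p_add hp
  field_simp
  linear_combination (-z) * hpq

lemma a_mem (hp : 2 < p) : 1 / p ∈ Ioo (0 : ℝ) 1 := by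
  constructor
  · positivity
  · rw [div_lt_one (by linarith)]
    linarith

lemma G_mono (hp : 2 < p) : StrictMonoOn (G p) (Icc 0 (1 / p)) := by
  have ha := a_mem hp
  refine strictMonoOn_of_deriv_pos (convex_Icc _ _) (cont_G hp).continuousOn ?_
  intro z hz
  rw [interior_Icc] at hz
  have hz' : z ∈ Ioo (0 : ℝ) 1 := ⟨hz.1, hz.2.trans ha.2⟩
  rw [(hasDeriv_G hp hz').deriv]
  have h1 : 0 < 1 - p * z := by
    have := hz.2
    rw [lt_div_iff₀ (by linarith)] at this
    linarith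
  have h2 := G_pos hp hz'
  have h3 : 0 < p * z * (1 - z) := mul_pos (mul_pos (by linarith) hz'.1) (by linarith [hz'.2])
  positivity

lemma G_anti (hp : 2 < p) : StrictAntiOn (G p) (Icc (1 / p) 1) := by
  have ha := a_mem hp
  refine strictAntiOn_of_deriv_neg (convex_Icc _ _) (cont_G hp).continuousOn ?_
  intro z hz
  rw [interior_Icc] at hz
  have hz' : z ∈ Ioo (0 : ℝ) 1 := ⟨ha.1.trans hz.1, hz.2⟩
  rw [(hasDeriv_G hp hz').deriv]
  have h1 : 1 - p * z < 0 := by
    have := hz.1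
    rw [div_lt_iff₀ (by linarith)] at this
    linarith
  have h2 := G_pos hp hz'
  have h3 : 0 < p * z * (1 - z) := mul_pos (mul_pos (by linarith) hz'.1) (by linarith [hz'.2])
  exact div_neg_of_neg_of_pos (mul_neg_of_pos_of_neg h2 h1) h3

lemma G_le_one (hp : 2 < p) {z : ℝ} (hz : z ∈ Icc (0 : ℝ) 1) : G p z ≤ 1 := by
  have ha := a_mem hp
  rw [← G_a hp]
  rcases le_total z (1 / p) with h | h
  · exact (G_mono hp).monotoneOn ⟨hz.1, h⟩ ⟨ha.1.le, le_rfl⟩ h
  · exact (G_anti hp).antitoneOn ⟨le_rfl, ha.2.le⟩ ⟨h, hz.2⟩ h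

/-! ### the function `W` -/

/-- `√(1 - G²)` -/
def S (p z : ℝ) : ℝ := √(1 - G p z ^ 2)

/-- `W(z) = ± √(1 - G²)` -/
def W (p z : ℝ) : ℝ := S p (min z (1 / p)) - S p (max z (1 / p))

lemma S_a (hp : 2 < p) : S p (1 / p) = 0 := by
  unfold S
  rw [G_a hp]
  simp

lemma W_left (hp : 2 < p) {z : ℝ} (h : z ≤ 1 / p) : W p z = S p z := by
  unfold W
  rw [min_eq_left h, max_eq_right h, S_a hp, sub_zero]

lemma W_right (hp : 2 < p) {z : ℝ} (h : 1 / p ≤ z) : W p z = -S p z := by
  unfold W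
  rw [min_eq_right h, max_eq_left h, S_a hp, zero_sub]

lemma cont_S (hp : 2 < p) : Continuous (S p) := by
  unfold S
  exact (continuous_const.sub ((cont_G hp).pow 2)).sqrt

lemma cont_W (hp : 2 < p) : Continuous (W p) := by
  unfold W
  exact ((cont_S hp).comp (continuous_id.min continuous_const)).sub
    ((cont_S hp).comp (continuous_id.max continuous_const))

lemma S_anti (hp : 2 < p) : StrictAntiOn (S p) (Icc 0 (1 / p)) := by
  intro x hx y hy hxy
  have ha := a_mem hp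
  have h1 := G_mono hp hx hy hxy
  have hx' : x ∈ Icc (0 : ℝ) 1 := ⟨hx.1, hx.2.trans ha.2.le⟩
  have hy' : y ∈ Icc (0 : ℝ) 1 := ⟨hy.1, hy.2.trans ha.2.le⟩
  unfold S
  refine Real.sqrt_lt_sqrt ?_ ?_
  · have := G_le_one hp hy'
    have := G_nonneg hp hy'
    nlinarith
  · have := G_nonneg hp hx'
    nlinarith

lemma S_mono (hp : 2 < p) : StrictMonoOn (S p) (Icc (1 / p) 1) := by
  intro x hx y hy hxy
  have ha := a_mem hp
  have h1 := G_anti hp hx hy hxy
  have hx' : x ∈ Icc (0 : ℝ) 1 := ⟨ha.1.le.trans hx.1, hx.2⟩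
  have hy' : y ∈ Icc (0 : ℝ) 1 := ⟨ha.1.le.trans hy.1, hy.2⟩
  unfold S
  refine Real.sqrt_lt_sqrt ?_ ?_
  · have := G_le_one hp hx'
    have := G_nonneg hp hx'
    nlinarith
  · have := G_nonneg hp hy'
    nlinarith

lemma W_anti (hp : 2 < p) : StrictAntiOn (W p) (Icc 0 1) := by
  intro x hx y hy hxy
  have ha := a_mem hp
  rcases le_total y (1 / p) with h | h
  · rw [W_left hp h, W_left hp (hxy.le.trans h)]
    exact S_anti hp ⟨hx.1, hxy.le.trans h⟩ ⟨hy.1, h⟩ hxy
  · rcases le_total (1 / p) x with h' | h'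
    · rw [W_right hp h, W_right hp h']
      exact neg_lt_neg (S_mono hp ⟨h', hx.2⟩ ⟨h, hy.2⟩ hxy)
    · rw [W_right hp h, W_left hp h']
      have s1 : 0 ≤ S p y := Real.sqrt_nonneg _
      have s2 : 0 ≤ S p x := Real.sqrt_nonneg _
      rcases h'.eq_or_lt with h2 | h2
      · have h3 : 1 / p < y := by rw [← h2]; exact hxy
        have h4 := S_mono hp (a := 1 / p) ⟨le_rfl, ha.2.le⟩ ⟨h, hy.2⟩ h3
        rw [S_a hp] at h4
        linarith
      · have h4 := S_anti hp (b := 1 / p) ⟨hx.1, h'⟩ ⟨ha.1.le, le_rfl⟩ h2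
        rw [S_a hp] at h4
        linarith

lemma W_zero (hp : 2 < p) : W p 0 = 1 := by
  rw [W_left hp (a_mem hp).1.le, S, G_zero hp]
  simp

lemma W_one (hp : 2 < p) : W p 1 = -1 := by
  rw [W_right hp (a_mem hp).2.le, S, G_one hp]
  simp

lemma W_a (hp : 2 < p) : W p (1 / p) = 0 := by
  rw [W_left hp le_rfl, S_a hp]

lemma W_sq (hp : 2 < p) {z : ℝ} (hz : z ∈ Icc (0 : ℝ) 1) : W p z ^ 2 = 1 - G p z ^ 2 := by
  have h1 : 0 ≤ 1 - G p z ^ 2 := by
    have := G_le_one hp hz
    have := G_nonneg hp hz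
    nlinarith
  rcases le_total z (1 / p) with h | h
  · rw [W_left hp h, S, Real.sq_sqrt h1]
  · rw [W_right hp h, neg_sq, S, Real.sq_sqrt h1]

lemma W_pos (hp : 2 < p) {z : ℝ} (hz : z ∈ Icc (0 : ℝ) 1) (h : z < 1 / p) : 0 < W p z := by
  have ha := a_mem hp
  rw [← W_a hp]
  exact W_anti hp hz ⟨ha.1.le, ha.2.le⟩ h

lemma W_neg (hp : 2 < p) {z : ℝ} (hz : z ∈ Icc (0 : ℝ) 1) (h : 1 / p < z) : W p z < 0 := by
  have ha := a_mem hp
  rw [← W_a hp]
  exact W_anti hp ⟨ha.1.le, ha.2.le⟩ hz h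

/-- derivative of `W` off `1/p` -/
lemma hasDeriv_W (hp : 2 < p) {z : ℝ} (hz : z ∈ Ioo (0 : ℝ) 1) (hne : z ≠ 1 / p) :
    HasDerivAt (W p) (-(G p z ^ 2 * (1 - p * z) / (p * z * (1 - z) * W p z))) z := by
  have hz' : z ∈ Icc (0 : ℝ) 1 := ⟨hz.1.le, hz.2.le⟩
  have hW0 : W p z ≠ 0 := by
    rcases lt_or_gt_of_ne hne with h | h
    · exact (W_pos hp hz' h).ne'
    · exact (W_neg hp hz' h).ne
  have hsq := W_sq hp hz'
  have h1 : 0 < 1 - G p z ^ 2 := by
    rw [← hsq]; positivity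
  have dG := hasDeriv_G hp hz
  have dS : HasDerivAt (S p)
      ((-(2 * G p z * (G p z * (1 - p * z) / (p * z * (1 - z))))) /
        (2 * √(1 - G p z ^ 2))) z := by
    have := ((dG.pow 2).const_sub 1).sqrt h1.ne'
    refine this.congr_deriv ?_
    simp
  have hp0 : p ≠ 0 := by linarith
  have hz0 : z ≠ 0 := hz.1.ne'
  have hz1 : 1 - z ≠ 0 := by linarith [hz.2]
  have hs0 : √(1 - G p z ^ 2) ≠ 0 := (Real.sqrt_pos.2 h1).ne'
  rcases lt_or_gt_of_ne hne with h | h
  · have hev : W p =ᶠ[𝓝 z] S p := by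
      filter_upwards [Iio_mem_nhds h] with y hy
      exact W_left hp (le_of_lt hy)
    refine (dS.congr_of_eventuallyEq hev).congr_deriv ?_
    have : W p z = √(1 - G p z ^ 2) := W_left hp h.le
    rw [this]
    field_simp
  · have hev : W p =ᶠ[𝓝 z] fun y => -S p y := by
      filter_upwards [Ioi_mem_nhds h] with y hy
      exact W_right hp (le_of_lt hy)
    refine (dS.neg.congr_of_eventuallyEq hev).congr_deriv ?_
    have : W p z = -√(1 - G p z ^ 2) := W_right hp h.le
    rw [this]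
    field_simp

/-- the slope of `W` at `1/p` -/
lemma slope_W (hp : 2 < p) :
    Tendsto (fun z => W p z / (z - 1 / p)) (𝓝[≠] (1 / p)) (𝓝 (-√(p * cq p))) := by
  have ha := a_mem hp
  have hp0 : p ≠ 0 := by linarith
  have hIoo : Ioo (0 : ℝ) 1 ∈ 𝓝 (1 / p) := Ioo_mem_nhds ha.1 ha.2
  have h1 : Tendsto (fun z => (1 - G p z ^ 2) / (z - 1 / p) ^ 2) (𝓝[≠] (1 / p))
      (𝓝 (p * cq p)) := by
    refine HasDerivAt.lhopital_zero_nhdsNE
      (f' := fun z => -(2 * G p z * (G p z * (1 - p * z) / (p * z * (1 - z)))))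
      (g' := fun z => 2 * (z - 1 / p)) ?_ ?_ ?_ ?_ ?_ ?_
    · filter_upwards [nhdsWithin_le_nhds hIoo] with z hz
      have := ((hasDeriv_G hp hz).pow 2).const_sub 1
      refine this.congr_deriv ?_
      simp
    · refine Eventually.of_forall fun z => ?_
      have := ((hasDerivAt_id z).sub_const (1 / p)).pow 2
      refine this.congr_deriv ?_
      simp
    · filter_upwards [self_mem_nhdsWithin] with z hz
      have : z - 1 / p ≠ 0 := sub_ne_zero.2 hz
      positivity
    · have : ContinuousAt (fun z => 1 - G p z ^ 2) (1 / p) :=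
        (continuous_const.sub ((cont_G hp).pow 2)).continuousAt
      have h2 : Tendsto (fun z => 1 - G p z ^ 2) (𝓝 (1 / p)) (𝓝 (1 - G p (1 / p) ^ 2)) := this
      rw [G_a hp, one_pow, sub_self] at h2
      exact h2.mono_left nhdsWithin_le_nhds
    · have : ContinuousAt (fun z : ℝ => (z - 1 / p) ^ 2) (1 / p) := by fun_prop
      have h2 : Tendsto (fun z : ℝ => (z - 1 / p) ^ 2) (𝓝 (1 / p)) (𝓝 ((1 / p - 1 / p) ^ 2)) :=
        this
      rw [sub_self, zero_pow (by norm_num)] at h2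
      exact h2.mono_left nhdsWithin_le_nhds
    · have hc : ContinuousAt (fun z => G p z ^ 2 / (z * (1 - z))) (1 / p) := by
        refine ContinuousAt.div ((cont_G hp).pow 2).continuousAt (by fun_prop) ?_
        exact mul_ne_zero ha.1.ne' (by linarith [ha.2])
      have hval : G p (1 / p) ^ 2 / (1 / p * (1 - 1 / p)) = p * cq p := by
        rw [G_a hp]
        have h3 := cq_mul hp
        have h4 : 1 - 1 / p ≠ 0 := by linarith [ha.2]
        have h5 : cq p = 1 / (1 - 1 / p) := by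
          rw [eq_div_iff h4]; exact h3
        rw [h5]
        field_simp
      have hc' : Tendsto (fun z => G p z ^ 2 / (z * (1 - z))) (𝓝[≠] (1 / p)) (𝓝 (p * cq p)) := by
        rw [← hval]
        exact Tendsto.mono_left hc nhdsWithin_le_nhds
      refine hc'.congr' ?_
      filter_upwards [nhdsWithin_le_nhds hIoo, self_mem_nhdsWithin] with z hz hne
      have hz0 : z ≠ 0 := hz.1.ne'
      have hz1 : 1 - z ≠ 0 := by linarith [hz.2]
      have hza : z - 1 / p ≠ 0 := sub_ne_zero.2 hne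
      have e : 1 - p * z = -p * (z - 1 / p) := by
        field_simp
        ring
      rw [e]
      generalize z - 1 / p = y at hza
      field_simp
  have h2 : Tendsto (fun z => -√((1 - G p z ^ 2) / (z - 1 / p) ^ 2)) (𝓝[≠] (1 / p))
      (𝓝 (-√(p * cq p))) := ((Real.continuous_sqrt.tendsto _).comp h1).neg
  refine h2.congr' ?_
  filter_upwards [nhdsWithin_le_nhds hIoo, self_mem_nhdsWithin] with z hz hne
  have hz' : z ∈ Icc (0 : ℝ) 1 := ⟨hz.1.le, hz.2.le⟩
  rw [← W_sq hp hz', ← div_pow, Real.sqrt_sq_eq_abs]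
  have hneg : W p z / (z - 1 / p) ≤ 0 := by
    rcases lt_or_gt_of_ne hne with h | h
    · exact div_nonpos_of_nonneg_of_nonpos (W_pos hp hz' h).le (by linarith)
    · have h' : (1 / p) < z := h
      exact div_nonpos_of_nonpos_of_nonneg (W_neg hp hz' h').le (by linarith)
  rw [abs_of_nonpos hneg, neg_neg]

lemma hasDeriv_W_a (hp : 2 < p) : HasDerivAt (W p) (-√(p * cq p)) (1 / p) := by
  rw [hasDerivAt_iff_tendsto_slope]
  refine (slope_W hp).congr fun z => ?_
  rw [slope_def_field, W_a hp, sub_zero]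

/-! ### the inverse of `W` -/

/-- `-W` as a map of the intervals -/
def V (hp : 2 < p) (z : Icc (0 : ℝ) 1) : Icc (-1 : ℝ) 1 :=
  ⟨-W p z, by
    have h := (W_anti hp).antitoneOn
    have h0 := h (a := 0) (b := z) ⟨le_rfl, zero_le_one⟩ z.2 z.2.1
    have h1 := h (a := z) (b := 1) z.2 ⟨zero_le_one, le_rfl⟩ z.2.2
    rw [W_zero hp] at h0
    rw [W_one hp] at h1
    constructor <;> linarith⟩

lemma V_mono (hp : 2 < p) : StrictMono (V hp) := by
  intro x y hxy
  show -W p x < -W p y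
  exact neg_lt_neg (W_anti hp x.2 y.2 hxy)

lemma V_surj (hp : 2 < p) : Function.Surjective (V hp) := by
  intro y
  have hc : ContinuousOn (fun z => -W p z) (Icc 0 1) := (cont_W hp).neg.continuousOn
  have h := intermediate_value_Icc zero_le_one hc
  rw [W_zero hp, W_one hp, neg_neg] at h
  obtain ⟨z, hz, hzy⟩ := h y.2
  exact ⟨⟨z, hz⟩, Subtype.ext hzy⟩

/-- the order isomorphism -/
def eV (hp : 2 < p) : Icc (0 : ℝ) 1 ≃o Icc (-1 : ℝ) 1 :=
  StrictMono.orderIsoOfSurjective (V hp) (V_mono hp) (V_surj hp)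

/-- the function `Z` -/
def Z (hp : 2 < p) (w : ℝ) : ℝ := (eV hp).symm (projIcc (-1) 1 (by norm_num) (-w))

lemma cont_Z (hp : 2 < p) : Continuous (Z hp) := by
  unfold Z
  exact continuous_subtype_val.comp ((eV hp).symm.continuous.comp
    (continuous_projIcc.comp continuous_neg))

lemma Z_mem (hp : 2 < p) (w : ℝ) : Z hp w ∈ Icc (0 : ℝ) 1 := Subtype.coe_prop _

lemma W_Z (hp : 2 < p) {w : ℝ} (hw : w ∈ Icc (-1 : ℝ) 1) : W p (Z hp w) = w := by
  have hw' : -w ∈ Icc (-1 : ℝ) 1 := ⟨by linarith [hw.2], by linarith [hw.1]⟩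
  have h1 : eV hp ((eV hp).symm (projIcc (-1) 1 (by norm_num) (-w))) =
      projIcc (-1) 1 (by norm_num) (-w) := (eV hp).apply_symm_apply _
  rw [projIcc_of_mem _ hw'] at h1
  have h2 : -W p ((eV hp).symm ⟨-w, hw'⟩ : Icc (0 : ℝ) 1) = -w := congrArg Subtype.val h1
  unfold Z
  rw [projIcc_of_mem _ hw']
  linarith

lemma Z_W (hp : 2 < p) {z : ℝ} (hz : z ∈ Icc (0 : ℝ) 1) (hW : W p z ∈ Icc (-1 : ℝ) 1) :
    Z hp (W p z) = z := by
  have h1 := W_Z hp hW
  exact (W_anti hp).injOn (Z_mem hp _) hz h1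

lemma Z_anti (hp : 2 < p) : StrictAntiOn (Z hp) (Icc (-1) 1) := by
  intro x hx y hy hxy
  by_contra h
  have h' : Z hp x ≤ Z hp y := not_lt.1 h
  have h2 := (W_anti hp).antitoneOn (Z_mem hp x) (Z_mem hp y) h'
  rw [W_Z hp hx, W_Z hp hy] at h2
  linarith

lemma Z_zero (hp : 2 < p) : Z hp 0 = 1 / p := by
  have ha := a_mem hp
  have h := Z_W hp (z := 1 / p) ⟨ha.1.le, ha.2.le⟩ (by rw [W_a hp]; constructor <;> norm_num)
  rwa [W_a hp] at h

/-- the function `H` -/
def H (hp : 2 < p) (w : ℝ) : ℝ := if w = 0 then √(p * cq p) else cq p * (1 - p * Z hp w) / w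

lemma Z_ne (hp : 2 < p) {w : ℝ} (hw : w ∈ Icc (-1 : ℝ) 1) (h0 : w ≠ 0) : Z hp w ≠ 1 / p := by
  intro h
  have := W_Z hp hw
  rw [h, W_a hp] at this
  exact h0 this.symm

lemma cont_H_zero (hp : 2 < p) : ContinuousAt (H hp) 0 := by
  have hp0 : p ≠ 0 := by linarith
  have hpq : 0 < p * cq p := mul_pos (by linarith) (cq_pos hp)
  rw [continuousAt_iff_punctured_nhds]
  have h0 : H hp 0 = √(p * cq p) := if_pos rfl
  rw [h0]
  have hIoo : Ioo (-1 : ℝ) 1 ∈ 𝓝 (0 : ℝ) := Ioo_mem_nhds (by norm_num) (by norm_num)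
  have hZ : Tendsto (Z hp) (𝓝[≠] 0) (𝓝[≠] (1 / p)) := by
    rw [tendsto_nhdsWithin_iff]
    constructor
    · have : Tendsto (Z hp) (𝓝 0) (𝓝 (Z hp 0)) := (cont_Z hp).tendsto 0
      rw [Z_zero hp] at this
      exact this.mono_left nhdsWithin_le_nhds
    · filter_upwards [nhdsWithin_le_nhds hIoo, self_mem_nhdsWithin] with w hw hne
      exact Z_ne hp ⟨hw.1.le, hw.2.le⟩ hne
  have h1 := (slope_W hp).comp hZ
  have hs : -√(p * cq p) ≠ 0 := neg_ne_zero.2 (Real.sqrt_pos.2 hpq).ne'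
  have h2 := (h1.inv₀ hs).const_mul (-(p * cq p))
  have h3 : -(p * cq p) * (-√(p * cq p))⁻¹ = √(p * cq p) := by
    rw [inv_neg, neg_mul_neg, ← div_eq_mul_inv, Real.div_sqrt]
  rw [h3] at h2
  refine h2.congr' ?_
  filter_upwards [nhdsWithin_le_nhds hIoo, self_mem_nhdsWithin] with w hw hne
  have hw' : w ∈ Icc (-1 : ℝ) 1 := ⟨hw.1.le, hw.2.le⟩
  have hne' : w ≠ 0 := hne
  have hz : Z hp w - 1 / p ≠ 0 := sub_ne_zero.2 (Z_ne hp hw' hne')
  show -(p * cq p) * (W p (Z hp w) / (Z hp w - 1 / p))⁻¹ = H hp w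
  rw [W_Z hp hw', H, if_neg hne', inv_div]
  field_simp
  ring

lemma cont_H (hp : 2 < p) : Continuous (H hp) := by
  rw [continuous_iff_continuousAt]
  intro w
  rcases eq_or_ne w 0 with rfl | h
  · exact cont_H_zero hp
  · have hc : ContinuousAt (fun w => cq p * (1 - p * Z hp w) / w) w := by
      refine ContinuousAt.div ?_ continuousAt_id h
      exact (continuous_const.mul (continuous_const.sub
        (continuous_const.mul (cont_Z hp)))).continuousAt
    refine hc.congr ?_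
    filter_upwards [isOpen_ne.mem_nhds h] with y hy
    exact (if_neg hy).symm

/-- PL1 -/
theorem isPhase (hp : 2 < p) : IsPhase p (Z hp) (H hp) := by
  have ha := a_mem hp
  have hp0 : p ≠ 0 := by linarith
  have hq0 := cq_pos hp
  have hpq : 0 < p * cq p := mul_pos (by linarith) (cq_pos hp)
  refine ⟨(cont_Z hp).continuousOn, Z_anti hp, ?_, ?_, (cont_H hp).continuousOn, ?_, ?_, ?_, ?_⟩
  · have h := Z_W hp (z := 0) ⟨le_rfl, zero_le_one⟩ (by rw [W_zero hp]; constructor <;> norm_num)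
    rwa [W_zero hp] at h
  · have h := Z_W hp (z := 1) ⟨zero_le_one, le_rfl⟩ (by rw [W_one hp]; constructor <;> norm_num)
    rwa [W_one hp] at h
  · intro w hw
    by_cases h : w = 0
    · rw [H, if_pos h]
      exact Real.sqrt_pos.2 hpq
    · rw [H, if_neg h]
      rcases lt_or_gt_of_ne h with h' | h'
      · have : 1 / p < Z hp w := by
          have := Z_anti hp hw (b := 0) ⟨by norm_num, by norm_num⟩ h'
          rwa [Z_zero hp] at this
        rw [div_lt_iff₀ (by linarith)] at this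
        exact div_pos_of_neg_of_neg (mul_neg_of_pos_of_neg hq0 (by linarith)) h'
      · have : Z hp w < 1 / p := by
          have := Z_anti hp (a := 0) ⟨by norm_num, by norm_num⟩ hw h'
          rwa [Z_zero hp] at this
        rw [lt_div_iff₀ (by linarith)] at this
        exact div_pos (mul_pos hq0 (by linarith)) h'
  · intro w hw
    by_cases h : w = 0
    · rw [h, zero_mul, Z_zero hp, mul_one_div_cancel hp0]
      ring
    · rw [H, if_neg h]
      field_simp
  · intro w hw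
    have h1 := W_sq hp (Z_mem hp w)
    rw [W_Z hp hw] at h1
    linarith
  · intro w hw
    have hw' : w ∈ Icc (-1 : ℝ) 1 := ⟨hw.1.le, hw.2.le⟩
    have hev : ∀ᶠ y in 𝓝 w, W p (Z hp y) = y := by
      filter_upwards [Ioo_mem_nhds hw.1 hw.2] with y hy
      exact W_Z hp ⟨hy.1.le, hy.2.le⟩
    by_cases h : w = 0
    · subst h
      have hd : HasDerivAt (W p) (-√(p * cq p)) (Z hp 0) := by
        rw [Z_zero hp]
        exact hasDeriv_W_a hp
      have hs : -√(p * cq p) ≠ 0 := neg_ne_zero.2 (Real.sqrt_pos.2 hpq).ne'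
      have := HasDerivAt.of_local_left_inverse (cont_Z hp).continuousAt hd hs hev
      refine this.congr_deriv ?_
      have h1 : H hp 0 = √(p * cq p) := if_pos rfl
      rw [h1, Z_zero hp]
      have h2 : p * cq p * (1 / p) * (1 - 1 / p) = 1 := by
        have := cq_mul hp
        field_simp at this ⊢
        linear_combination this
      rw [h2, inv_neg]
      norm_num
      rw [neg_div, one_div]
    · have hZ0 : Z hp w ∈ Ioo (0 : ℝ) 1 := by
        have h1 := Z_anti hp hw' (b := 1) ⟨by norm_num, le_rfl⟩ hw.2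
        have h2 := Z_anti hp (a := -1) ⟨le_rfl, by norm_num⟩ hw' hw.1
        have h3 := (Z_mem hp 1).1
        have h4 := (Z_mem hp (-1)).2
        exact ⟨by linarith, by linarith⟩
      have hd := hasDeriv_W hp hZ0 (Z_ne hp hw' h)
      rw [W_Z hp hw'] at hd
      have hG : G p (Z hp w) ^ 2 = 1 - w ^ 2 := by
        have h1 := W_sq hp (Z_mem hp w)
        rw [W_Z hp hw'] at h1
        linarith
      rw [hG] at hd
      have h1 : 1 - w ^ 2 ≠ 0 := by nlinarith [hw.1, hw.2]
      have h2 : 1 - p * Z hp w ≠ 0 := by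
        intro h3
        apply Z_ne hp hw' h
        rw [eq_div_iff hp0]
        linarith
      have h3 : Z hp w ≠ 0 := hZ0.1.ne'
      have h4 : 1 - Z hp w ≠ 0 := by linarith [hZ0.2]
      have hne : -((1 - w ^ 2) * (1 - p * Z hp w) / (p * Z hp w * (1 - Z hp w) * w)) ≠ 0 := by
        refine neg_ne_zero.2 (div_ne_zero (mul_ne_zero h1 h2) ?_)
        exact mul_ne_zero (mul_ne_zero (mul_ne_zero hp0 h3) h4) h
      have := HasDerivAt.of_local_left_inverse (cont_Z hp).continuousAt hd hne hev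
      refine this.congr_deriv ?_
      rw [H, if_neg h]
      have h5 := hq0.ne'
      field_simp

theorem phase : S_PHASE := fun _ hp => ⟨Z hp, H hp, isPhase hp⟩

end Pool.Agent.NH65.PL.Phase
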