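import Pool.Agent.NH65.PL.Stm

/-!
# Project PL: representation and convexity of `F` (`S_REP`)
-/

set_option autoImplicit false

noncomputable section

namespace Pool.Agent.NH65.PL.Rep

open Pool.Agent.NH65.PL Real Set MeasureTheory Filter Topology
open scoped ENNReal

/-! ### compound Poisson measures for multiplicative convolution -/

/-- multiplicative convolution powers -/
def P (ν : Measure ℝ) : ℕ → Measure ℝ
  | 0 => Measure.dirac 1
  | (k + 1) => (ν.prod (P ν k)).map (fun x => x.1 * x.2)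

theorem finP (ν : Measure ℝ) [IsFiniteMeasure ν] (k : ℕ) : IsFiniteMeasure (P ν k) := by
  induction k with
  | zero => unfold P; infer_instance
  | succ k ih => unfold P; infer_instance

theorem aeP (ν : Measure ℝ) [IsFiniteMeasure ν] (hν : ∀ᵐ x ∂ν, x ∈ Ioo (0:ℝ) 1) (k : ℕ) :
    ∀ᵐ x ∂(P ν k), x ∈ Ioc (0:ℝ) 1 := by
  induction k with
  | zero =>
    unfold P
    rw [ae_dirac_iff (show MeasurableSet {x : ℝ | x ∈ Ioc (0:ℝ) 1} from measurableSet_Ioc)]
    simp
  | succ k ih =>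
    have := finP ν k
    unfold P
    have hm : Measurable (fun x : ℝ × ℝ => x.1 * x.2) := by fun_prop
    rw [ae_map_iff hm.aemeasurable (show MeasurableSet {x : ℝ | x ∈ Ioc (0:ℝ) 1} from measurableSet_Ioc)]
    have h1 := (Measure.quasiMeasurePreserving_fst (μ := ν) (ν := P ν k)).ae hν
    have h2 := (Measure.quasiMeasurePreserving_snd (μ := ν) (ν := P ν k)).ae ih
    filter_upwards [h1, h2] with x hx hy
    constructor
    · exact mul_pos hx.1 hy.1
    · nlinarith [hx.1, hx.2, hy.1, hy.2]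

theorem aeP' (ν : Measure ℝ) [IsFiniteMeasure ν] (hν : ∀ᵐ x ∂ν, x ∈ Ioo (0:ℝ) 1) (k : ℕ) :
    ∀ᵐ x ∂(P ν (k + 1)), x ≠ 1 := by
  have := finP ν k
  unfold P
  have hm : Measurable (fun x : ℝ × ℝ => x.1 * x.2) := by fun_prop
  have hms : MeasurableSet {x : ℝ | x ≠ 1} := (measurableSet_singleton (1:ℝ)).compl
  rw [ae_map_iff hm.aemeasurable hms]
  have h1 := (Measure.quasiMeasurePreserving_fst (μ := ν) (ν := P ν k)).ae hν
  have h2 := (Measure.quasiMeasurePreserving_snd (μ := ν) (ν := P ν k)).ae (aeP ν hν k)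
  filter_upwards [h1, h2] with x hx hy
  have : x.1 * x.2 < 1 := by nlinarith [hx.1, hx.2, hy.1, hy.2]
  exact this.ne

theorem lintP (ν : Measure ℝ) [IsFiniteMeasure ν] (n k : ℕ) :
    ∫⁻ x, ‖x‖ₑ ^ n ∂(P ν k) = (∫⁻ x, ‖x‖ₑ ^ n ∂ν) ^ k := by
  induction k with
  | zero => unfold P; simp
  | succ k ih =>
    have := finP ν k
    unfold P
    have hm : Measurable (fun x : ℝ × ℝ => x.1 * x.2) := by fun_prop
    rw [lintegral_map (by fun_prop) hm]
    have : ∀ x : ℝ × ℝ, ‖x.1 * x.2‖ₑ ^ n = ‖x.1‖ₑ ^ n * ‖x.2‖ₑ ^ n := by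
      intro x
      rw [enorm_mul, mul_pow]
    simp_rw [this]
    rw [lintegral_prod_mul (f := fun x : ℝ => ‖x‖ₑ ^ n) (g := fun x : ℝ => ‖x‖ₑ ^ n) (by fun_prop)
      (by fun_prop), ih]
    ring

/-- the compound Poisson measure -/
def Mu (ν : Measure ℝ) : Measure ℝ :=
  Measure.sum (fun k : ℕ => ((k.factorial : ℝ≥0∞)⁻¹) • P ν k)

theorem lintMu (ν : Measure ℝ) [IsFiniteMeasure ν] (n : ℕ) (a : ℝ) (ha : 0 ≤ a)
    (h : ∫⁻ x, ‖x‖ₑ ^ n ∂ν = ENNReal.ofReal a) :
    ∫⁻ x, ‖x‖ₑ ^ n ∂(Mu ν) = ENNReal.ofReal (Real.exp a) := by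
  unfold Mu
  rw [lintegral_sum_measure]
  have : ∀ k : ℕ, ∫⁻ x, ‖x‖ₑ ^ n ∂(((k.factorial : ℝ≥0∞)⁻¹) • P ν k) =
      ENNReal.ofReal (a ^ k / k.factorial) := by
    intro k
    rw [lintegral_smul_measure, lintP, h, smul_eq_mul, div_eq_inv_mul, ENNReal.ofReal_mul (by positivity),
      ENNReal.ofReal_inv_of_pos (by positivity), ENNReal.ofReal_natCast, ENNReal.ofReal_pow ha]
  simp_rw [this]
  have hs := NormedSpace.expSeries_div_hasSum_exp (a : ℝ)
  rw [← ENNReal.ofReal_tsum_of_nonneg (fun k => by positivity) hs.summable, hs.tsum_eq,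
    ← Real.exp_eq_exp_ℝ]

theorem aeMu (ν : Measure ℝ) [IsFiniteMeasure ν] (hν : ∀ᵐ x ∂ν, x ∈ Ioo (0:ℝ) 1) :
    ∀ᵐ x ∂(Mu ν), x ∈ Ioc (0:ℝ) 1 := by
  unfold Mu
  rw [Measure.ae_sum_iff]
  intro k
  exact Measure.ae_smul_measure (aeP ν hν k) _

theorem Mu_one (ν : Measure ℝ) [IsFiniteMeasure ν] (hν : ∀ᵐ x ∂ν, x ∈ Ioo (0:ℝ) 1) :
    Mu ν {1} = 1 := by
  unfold Mu
  rw [Measure.sum_apply _ (measurableSet_singleton _), tsum_eq_single 0]
  · simp [P]
  · intro k hk
    obtain ⟨j, rfl⟩ := Nat.exists_eq_succ_of_ne_zero hk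
    have h := aeP' ν hν j
    rw [ae_iff] at h
    simp only [not_not, ofPred_eq_eq_singleton] at h
    rw [Measure.smul_apply]
    have : P ν (Nat.succ j) {1} = 0 := h
    rw [this]; simp

theorem exists_mu (ν : Measure ℝ) [IsFiniteMeasure ν] (hν : ∀ᵐ x ∂ν, x ∈ Ioo (0:ℝ) 1)
    (a : ℕ → ℝ) (ha0 : ∀ n, 0 ≤ a n) (ha : ∀ n, ∫⁻ x, ‖x‖ₑ ^ n ∂ν = ENNReal.ofReal (a n)) :
    ∃ μ : Measure ℝ, IsFiniteMeasure μ ∧ (∀ᵐ x ∂μ, x ∈ Ioc (0:ℝ) 1) ∧ μ {1} = 1 ∧
      ∀ n : ℕ, ∫ x, x ^ n ∂μ = Real.exp (a n) := by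
  refine ⟨Mu ν, ?_, aeMu ν hν, Mu_one ν hν, ?_⟩
  · constructor
    have := lintMu ν 0 (a 0) (ha0 0) (ha 0)
    simp only [pow_zero, lintegral_one] at this
    rw [this]
    exact ENNReal.ofReal_lt_top
  · intro n
    have hae := aeMu ν hν
    have h0 : 0 ≤ᵐ[Mu ν] fun x : ℝ => x ^ n := by
      filter_upwards [hae] with x hx
      exact pow_nonneg hx.1.le n
    rw [integral_eq_lintegral_of_nonneg_ae h0 (by fun_prop)]
    have : ∫⁻ x, ENNReal.ofReal (x ^ n) ∂(Mu ν) = ∫⁻ x, ‖x‖ₑ ^ n ∂(Mu ν) := by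
      apply lintegral_congr_ae
      filter_upwards [hae] with x hx
      rw [Real.enorm_eq_ofReal hx.1.le, ENNReal.ofReal_pow hx.1.le]
    rw [this, lintMu ν n (a n) (ha0 n) (ha n), ENNReal.toReal_ofReal (Real.exp_pos _).le]

/-! ### determination by moments -/

theorem eq_of_moments {f g : ℝ → ℝ} (hf : ContinuousOn f (Icc 0 1)) (hg : ContinuousOn g (Icc 0 1))
    (h : ∀ n : ℕ, ∫ c in (0:ℝ)..1, c ^ n * f c = ∫ c in (0:ℝ)..1, c ^ n * g c) :
    EqOn f g (Icc 0 1) := by
  have hfi : ∀ φ : ℝ → ℝ, ContinuousOn φ (Icc 0 1) → IntervalIntegrable φ volume 0 1 := by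
    intro φ hφ
    apply ContinuousOn.intervalIntegrable
    rwa [uIcc_of_le (by norm_num : (0:ℝ) ≤ 1)]
  set D : ℝ → ℝ := fun c => f c - g c with hD
  have hDc : ContinuousOn D (Icc 0 1) := hf.sub hg
  have h1 : ∀ n : ℕ, ∫ c in (0:ℝ)..1, c ^ n * D c = 0 := by
    intro n
    have : ∀ c, c ^ n * D c = c ^ n * f c - c ^ n * g c := fun c => by simp only [hD]; ring
    simp_rw [this]
    rw [intervalIntegral.integral_sub, h n, sub_self]
    · exact hfi _ ((by fun_prop : ContinuousOn (fun c : ℝ => c ^ n) (Icc 0 1)).mul hf)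
    · exact hfi _ ((by fun_prop : ContinuousOn (fun c : ℝ => c ^ n) (Icc 0 1)).mul hg)
  have h2 : ∀ q : Polynomial ℝ, ∫ c in (0:ℝ)..1, q.eval c * D c = 0 := by
    intro q
    induction q using Polynomial.induction_on' with
    | add a b ha hb =>
      simp only [Polynomial.eval_add, add_mul]
      rw [intervalIntegral.integral_add, ha, hb, add_zero]
      · exact hfi _ (a.continuous.continuousOn.mul hDc)
      · exact hfi _ (b.continuous.continuousOn.mul hDc)
    | monomial n a =>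
      simp only [Polynomial.eval_monomial, mul_assoc]
      rw [intervalIntegral.integral_const_mul, h1 n, mul_zero]
  have h3 : ∫ c in (0:ℝ)..1, D c * D c ≤ 0 := by
    set B := ∫ c in (0:ℝ)..1, |D c| with hB
    have hB0 : 0 ≤ B := by
      apply intervalIntegral.integral_nonneg (by norm_num)
      intro c _; exact abs_nonneg _
    apply le_of_forall_pos_le_add
    intro ε hε
    obtain ⟨q, hq⟩ := exists_polynomial_near_of_continuousOn 0 1 D hDc (ε / (B + 1)) (by positivity)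
    have e1 : ∫ c in (0:ℝ)..1, D c * D c = ∫ c in (0:ℝ)..1, (D c - q.eval c) * D c := by
      have : ∀ c, (D c - q.eval c) * D c = D c * D c - q.eval c * D c := fun c => by ring
      simp_rw [this]
      rw [intervalIntegral.integral_sub, h2 q, sub_zero]
      · exact hfi _ (hDc.mul hDc)
      · exact hfi _ (q.continuous.continuousOn.mul hDc)
    rw [e1]
    have e2 : ∫ c in (0:ℝ)..1, (D c - q.eval c) * D c ≤ ∫ c in (0:ℝ)..1, (ε / (B + 1)) * |D c| := by
      apply intervalIntegral.integral_mono_on (by norm_num)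
      · exact hfi _ ((hDc.sub q.continuous.continuousOn).mul hDc)
      · exact hfi _ (continuousOn_const.mul hDc.abs)
      · intro c hc
        have := hq c hc
        calc (D c - q.eval c) * D c ≤ |(D c - q.eval c) * D c| := le_abs_self _
          _ = |q.eval c - D c| * |D c| := by rw [abs_mul, abs_sub_comm]
          _ ≤ _ := mul_le_mul_of_nonneg_right this.le (abs_nonneg _)
    refine e2.trans ?_
    rw [intervalIntegral.integral_const_mul, ← hB, zero_add, div_mul_eq_mul_div, div_le_iff₀ (by positivity)]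
    nlinarith
  have h4 : ∫ c in Icc (0:ℝ) 1, D c * D c = 0 := by
    rw [integral_Icc_eq_integral_Ioc, ← intervalIntegral.integral_of_le (by norm_num)]
    apply le_antisymm h3
    apply intervalIntegral.integral_nonneg (by norm_num)
    intro c _; exact mul_self_nonneg _
  have h5 : (fun c => D c * D c) =ᵐ[volume.restrict (Icc (0:ℝ) 1)] 0 := by
    rw [← setIntegral_eq_zero_iff_of_nonneg_ae]
    · exact h4
    · filter_upwards with c; exact mul_self_nonneg _
    · exact (hDc.mul hDc).integrableOn_Icc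
  have h6 : f =ᵐ[volume.restrict (Icc (0:ℝ) 1)] g := by
    filter_upwards [h5] with c hc
    have : D c = 0 := mul_self_eq_zero.1 hc
    simp only [hD] at this
    linarith
  exact Measure.eqOn_Icc_of_ae_eq volume (by norm_num) h6 hf hg

/-- `∫_0^1 c^n max(x-c,0) dc = x^{n+2}/((n+1)(n+2))` for `0 ≤ x ≤ 1` -/
theorem inner_int (n : ℕ) {x : ℝ} (hx : x ∈ Icc (0:ℝ) 1) :
    ∫ c in (0:ℝ)..1, c ^ n * max (x - c) 0 = x ^ (n + 2) / (((n:ℝ) + 1) * ((n:ℝ) + 2)) := by
  have hcont : Continuous (fun c : ℝ => c ^ n * max (x - c) 0) := by fun_prop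
  rw [← intervalIntegral.integral_add_adjacent_intervals (b := x) (hcont.intervalIntegrable _ _)
    (hcont.intervalIntegrable _ _)]
  have e1 : ∫ c in x..1, c ^ n * max (x - c) 0 = 0 := by
    have : ∫ c in x..1, c ^ n * max (x - c) 0 = ∫ c in x..1, (0:ℝ) := by
      apply intervalIntegral.integral_congr
      intro c hc
      rw [uIcc_of_le hx.2] at hc
      simp only
      rw [max_eq_right (by linarith [hc.1]), mul_zero]
    rw [this]; simp
  have e2 : ∫ c in (0:ℝ)..x, c ^ n * max (x - c) 0 = ∫ c in (0:ℝ)..x, (x * c ^ n - c ^ (n + 1)) := by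
    apply intervalIntegral.integral_congr
    intro c hc
    rw [uIcc_of_le hx.1] at hc
    simp only
    rw [max_eq_left (by linarith [hc.2])]
    ring
  rw [e1, e2, add_zero, intervalIntegral.integral_sub, intervalIntegral.integral_const_mul,
    integral_pow, integral_pow]
  · simp only [ne_eq, Nat.add_eq_zero_iff, one_ne_zero, and_false, not_false_eq_true, zero_pow, sub_zero]
    push_cast
    field_simp
    ring
  · exact (by fun_prop : Continuous (fun c : ℝ => x * c ^ n)).intervalIntegrable _ _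
  · exact (by fun_prop : Continuous (fun c : ℝ => c ^ (n + 1))).intervalIntegrable _ _

/-! ### the function `F1` -/

section F1

variable (μ : Measure ℝ) [IsFiniteMeasure μ]

/-- `∫ max(x-c,0) dμ` -/
def I1 (c : ℝ) : ℝ := ∫ x, max (x - c) 0 ∂μ

theorem int_max (hμ : ∀ᵐ x ∂μ, x ∈ Ioc (0:ℝ) 1) {c : ℝ} (hc : c ∈ Icc (0:ℝ) 1) :
    Integrable (fun x => max (x - c) 0) μ := by
  apply Integrable.of_bound (C := 1)
  · fun_prop
  · filter_upwards [hμ] with x hx
    rw [Real.norm_eq_abs, abs_of_nonneg (le_max_right _ _)]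
    exact max_le (by linarith [hx.2, hc.1]) (by norm_num)

theorem convex_I1 (hμ : ∀ᵐ x ∂μ, x ∈ Ioc (0:ℝ) 1) : ConvexOn ℝ (Icc (0:ℝ) 1) (I1 μ) := by
  refine ⟨convex_Icc _ _, ?_⟩
  intro c1 hc1 c2 hc2 a b ha hb hab
  have h12 := (convex_Icc (0:ℝ) 1) hc1 hc2 ha hb hab
  simp only [smul_eq_mul] at h12 ⊢
  unfold I1
  rw [← integral_const_mul, ← integral_const_mul, ← integral_add
    ((int_max μ hμ hc1).const_mul a) ((int_max μ hμ hc2).const_mul b)]
  apply integral_mono (int_max μ hμ h12)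
    (((int_max μ hμ hc1).const_mul a).add ((int_max μ hμ hc2).const_mul b))
  intro x
  simp only
  apply max_le
  · have e : x - (a * c1 + b * c2) = a * (x - c1) + b * (x - c2) := by
      have : x = a * x + b * x := by rw [← add_mul, hab, one_mul]
      linarith
    rw [e]
    exact add_le_add (mul_le_mul_of_nonneg_left (le_max_left _ _) ha)
      (mul_le_mul_of_nonneg_left (le_max_left _ _) hb)
  · exact add_nonneg (mul_nonneg ha (le_max_right _ _)) (mul_nonneg hb (le_max_right _ _))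

theorem cont_I1 (hμ : ∀ᵐ x ∂μ, x ∈ Ioc (0:ℝ) 1) : ContinuousOn (I1 μ) (Icc (0:ℝ) 1) := by
  unfold I1
  apply continuousOn_of_dominated (bound := fun _ => 1)
  · intro c _; fun_prop
  · intro c hc
    filter_upwards [hμ] with x hx
    rw [Real.norm_eq_abs, abs_of_nonneg (le_max_right _ _)]
    exact max_le (by linarith [hx.2, hc.1]) (by norm_num)
  · exact integrable_const _
  · filter_upwards with x
    fun_prop

theorem low_I1 (hμ : ∀ᵐ x ∂μ, x ∈ Ioc (0:ℝ) 1) (h1 : μ {1} = 1) {c : ℝ}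
    (hc : c ∈ Icc (0:ℝ) 1) : 1 - c ≤ I1 μ c := by
  unfold I1
  have h := setIntegral_le_integral (s := {(1:ℝ)}) (int_max μ hμ hc)
    (by filter_upwards with x; exact le_max_right _ _)
  refine le_trans ?_ h
  rw [integral_singleton, measureReal_def, h1]
  simp

theorem low0_I1 (hμ : ∀ᵐ x ∂μ, x ∈ Ioc (0:ℝ) 1) {c : ℝ} (hc : c ∈ Icc (0:ℝ) 1) :
    I1 μ 0 - c * μ.real univ ≤ I1 μ c := by
  unfold I1
  have h0 := int_max μ hμ (c := 0) (by simp)
  have hc' := int_max μ hμ hc
  have : ∫ x, max (x - 0) 0 ∂μ ≤ ∫ x, (max (x - c) 0 + c) ∂μ := by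
    apply integral_mono h0 (hc'.add (integrable_const c))
    intro x
    show max (x - 0) 0 ≤ max (x - c) 0 + c
    apply max_le
    · linarith [le_max_left (x - c) 0]
    · linarith [le_max_right (x - c) 0, hc.1]
  rw [integral_add hc' (integrable_const c), integral_const, smul_eq_mul] at this
  linarith

theorem lim0_I1 (hμ : ∀ᵐ x ∂μ, x ∈ Ioc (0:ℝ) 1) {r : ℝ} (hr : r < μ.real univ) :
    ∃ c ∈ Ioo (0:ℝ) 1, I1 μ c < I1 μ 0 - r * c := by
  have hlim : Tendsto (fun c : ℝ => ∫ x, (max (x - 0) 0 - max (x - c) 0) / c ∂μ) (𝓝[>] 0)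
      (𝓝 (∫ _x, (1:ℝ) ∂μ)) := by
    apply tendsto_integral_filter_of_dominated_convergence (bound := fun _ => 1)
    · filter_upwards with c; fun_prop
    · filter_upwards [self_mem_nhdsWithin] with c hc
      filter_upwards [hμ] with x hx
      have hc' : (0:ℝ) < c := hc
      rw [Real.norm_eq_abs, abs_div, abs_of_pos hc', div_le_one hc', sub_zero,
        max_eq_left hx.1.le, abs_le]
      constructor
      · rcases max_cases (x - c) 0 with h | h <;> linarith [h.1, hx.1]
      · linarith [le_max_left (x - c) 0]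
    · exact integrable_const _
    · filter_upwards [hμ] with x hx
      apply tendsto_const_nhds.congr'
      have : Ioo (0:ℝ) x ∈ 𝓝[>] (0:ℝ) := Ioo_mem_nhdsGT hx.1
      filter_upwards [this] with c hc
      rw [sub_zero, max_eq_left hx.1.le, max_eq_left (by linarith [hc.2]), sub_sub_cancel,
        div_self hc.1.ne']
  rw [integral_const, smul_eq_mul, mul_one] at hlim
  have hev := hlim.eventually (lt_mem_nhds hr)
  have h01 : Ioo (0:ℝ) 1 ∈ 𝓝[>] (0:ℝ) := Ioo_mem_nhdsGT (by norm_num)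
  obtain ⟨c, hc, hcI⟩ := (hev.and h01).exists
  refine ⟨c, hcI, ?_⟩
  rw [integral_div, lt_div_iff₀ hcI.1, integral_sub (int_max μ hμ (by simp))
    (int_max μ hμ ⟨hcI.1.le, hcI.2.le⟩)] at hc
  unfold I1
  linarith

theorem lim1_I1 (hμ : ∀ᵐ x ∂μ, x ∈ Ioc (0:ℝ) 1) (h1 : μ {1} = 1) {r : ℝ} (hr : 1 < r) :
    ∃ c ∈ Ioo (0:ℝ) 1, I1 μ c < r * (1 - c) := by
  have hlim : Tendsto (fun c : ℝ => ∫ x, (max (x - c) 0) / (1 - c) ∂μ) (𝓝[<] 1)
      (𝓝 (∫ x, indicator {(1:ℝ)} (fun _ => (1:ℝ)) x ∂μ)) := by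
    apply tendsto_integral_filter_of_dominated_convergence (bound := fun _ => 1)
    · filter_upwards with c; fun_prop
    · filter_upwards [self_mem_nhdsWithin] with c hc
      filter_upwards [hμ] with x hx
      have hc' : c < 1 := hc
      rw [Real.norm_eq_abs, abs_div, abs_of_pos (by linarith : 0 < 1 - c), div_le_one (by linarith),
        abs_of_nonneg (le_max_right _ _)]
      exact max_le (by linarith [hx.2]) (by linarith)
    · exact integrable_const _
    · filter_upwards [hμ] with x hx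
      apply tendsto_const_nhds.congr'
      rcases hx.2.eq_or_lt with h | h
      · subst h
        filter_upwards [self_mem_nhdsWithin] with c hc
        have hc' : c < 1 := hc
        rw [indicator_of_mem (by simp), max_eq_left (by linarith), div_self (by linarith)]
      · have : Ioo x 1 ∈ 𝓝[<] (1:ℝ) := Ioo_mem_nhdsLT h
        filter_upwards [this] with c hc
        rw [indicator_of_notMem (by simpa using h.ne), max_eq_right (by linarith [hc.1]), zero_div]
  rw [integral_indicator (measurableSet_singleton _), integral_singleton, measureReal_def, h1] at hlim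
  simp only [ENNReal.toReal_one, smul_eq_mul, mul_one] at hlim
  have hev := hlim.eventually (gt_mem_nhds hr)
  have h01 : Ioo (0:ℝ) 1 ∈ 𝓝[<] (1:ℝ) := Ioo_mem_nhdsLT (by norm_num)
  obtain ⟨c, hc, hcI⟩ := (hev.and h01).exists
  refine ⟨c, hcI, ?_⟩
  rw [integral_div, div_lt_iff₀ (by linarith [hcI.2])] at hc
  exact hc

theorem mom_I1 (hμ : ∀ᵐ x ∂μ, x ∈ Ioc (0:ℝ) 1) (n : ℕ) :
    ∫ c in (0:ℝ)..1, c ^ n * I1 μ c = (∫ x, x ^ (n + 2) ∂μ) / (((n:ℝ) + 1) * ((n:ℝ) + 2)) := by
  unfold I1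
  have e1 : ∫ c in (0:ℝ)..1, c ^ n * ∫ x, max (x - c) 0 ∂μ =
      ∫ c in (0:ℝ)..1, ∫ x, c ^ n * max (x - c) 0 ∂μ := by
    apply intervalIntegral.integral_congr
    intro c _
    simp only
    rw [integral_const_mul]
  rw [e1, intervalIntegral.integral_of_le (by norm_num), integral_integral_swap]
  · rw [← integral_div]
    apply integral_congr_ae
    filter_upwards [hμ] with x hx
    rw [← intervalIntegral.integral_of_le (by norm_num)]
    exact inner_int n ⟨hx.1.le, hx.2⟩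
  · have h1 := (Measure.quasiMeasurePreserving_fst (μ := volume.restrict (Ioc (0:ℝ) 1)) (ν := μ)).ae
      (ae_restrict_mem measurableSet_Ioc)
    have h2 := (Measure.quasiMeasurePreserving_snd (μ := volume.restrict (Ioc (0:ℝ) 1)) (ν := μ)).ae hμ
    apply Integrable.of_bound (C := 1)
    · apply Continuous.aestronglyMeasurable
      unfold Function.uncurry
      fun_prop
    · filter_upwards [h1, h2] with x hx hy
      unfold Function.uncurry
      rw [Real.norm_eq_abs, abs_mul, abs_of_nonneg (le_max_right (x.2 - x.1) 0),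
        abs_of_nonneg (pow_nonneg hx.1.le n)]
      have a1 : x.1 ^ n ≤ 1 := pow_le_one₀ hx.1.le hx.2
      have a2 : max (x.2 - x.1) 0 ≤ 1 := max_le (by linarith [hy.2, hx.1]) (by norm_num)
      have a3 : 0 ≤ max (x.2 - x.1) 0 := le_max_right _ _
      have a4 : 0 ≤ x.1 ^ n := pow_nonneg hx.1.le n
      nlinarith

end F1

theorem rep : S_BIN → S_MOM → S_CONT → S_REP := by
  intro hBIN hMOM hCONT p hp
  have hp2 : 2 < p := by linarith [hp.1]
  have hpi := Real.pi_pos
  have hq : 0 < cq p := by unfold cq; exact div_pos (by linarith) (by linarith)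
  have hpq : 0 < p * cq p := mul_pos (by linarith) hq
  obtain ⟨hg0, hgi, hgint, hKK⟩ := hBIN p hp2
  set s := √(p * cq p) with hs
  have hs0 : 0 < s := Real.sqrt_pos.2 hpq
  have hss : s * s = p * cq p := Real.mul_self_sqrt hpq.le
  have hgm : Measurable (gg p) := by
    unfold gg bb
    fun_prop
  -- the measure ν
  set ν0 : Measure ℝ := (volume.restrict (Ioi (0:ℝ))).withDensity (fun τ => ENNReal.ofReal (gg p τ)) with hν0
  set ν : Measure ℝ := ν0.map (fun τ => Real.exp (-τ)) with hν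
  have hem : Measurable (fun τ : ℝ => Real.exp (-τ)) := by fun_prop
  have hnn : 0 ≤ᵐ[volume.restrict (Ioi (0:ℝ))] gg p := by
    filter_upwards [ae_restrict_mem measurableSet_Ioi] with τ hτ using hg0 τ hτ
  have hfin0 : IsFiniteMeasure ν0 := by
    constructor
    rw [hν0, withDensity_apply _ MeasurableSet.univ, Measure.restrict_univ]
    exact hgi.lintegral_lt_top
  have hfin : IsFiniteMeasure ν := by
    rw [hν]; infer_instance
  have hνae : ∀ᵐ x ∂ν, x ∈ Ioo (0:ℝ) 1 := by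
    rw [hν, ae_map_iff hem.aemeasurable (show MeasurableSet {x : ℝ | x ∈ Ioo (0:ℝ) 1} from measurableSet_Ioo)]
    have : ∀ᵐ τ ∂(volume.restrict (Ioi (0:ℝ))), Real.exp (-τ) ∈ Ioo (0:ℝ) 1 := by
      filter_upwards [ae_restrict_mem measurableSet_Ioi] with τ hτ
      refine ⟨Real.exp_pos _, ?_⟩
      rw [← Real.exp_zero]
      exact Real.exp_lt_exp.2 (by simpa using hτ)
    exact (withDensity_absolutelyContinuous _ _).ae_le this
  obtain ⟨a, ha⟩ : ∃ a : ℕ → ℝ, ∀ n, a n = ∫ τ in Ioi (0:ℝ), gg p τ * Real.exp (-((n:ℝ) * τ)) := ⟨_, fun n => rfl⟩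
  have hgin : ∀ n : ℕ, IntegrableOn (fun τ => gg p τ * Real.exp (-((n:ℝ) * τ))) (Ioi 0) := by
    intro n
    apply Integrable.mono' hgi
    · exact (hgm.mul (by fun_prop)).aestronglyMeasurable
    · filter_upwards [ae_restrict_mem measurableSet_Ioi] with τ hτ
      have h1 := hg0 τ hτ
      have h2 : Real.exp (-((n:ℝ) * τ)) ≤ 1 := by
        apply Real.exp_le_one_iff.2
        have : 0 ≤ (n:ℝ) * τ := mul_nonneg (Nat.cast_nonneg _) (le_of_lt hτ)
        linarith
      rw [Real.norm_eq_abs, abs_mul, abs_of_nonneg h1, abs_of_pos (Real.exp_pos _)]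
      nlinarith [Real.exp_pos (-((n:ℝ) * τ))]
  have ha0 : ∀ n, 0 ≤ a n := by
    intro n
    rw [ha]
    apply setIntegral_nonneg measurableSet_Ioi
    intro τ hτ
    exact mul_nonneg (hg0 τ hτ) (Real.exp_pos _).le
  have haν : ∀ n : ℕ, ∫⁻ x, ‖x‖ₑ ^ n ∂ν = ENNReal.ofReal (a n) := by
    intro n
    rw [hν, lintegral_map (by fun_prop) hem, hν0, lintegral_withDensity_eq_lintegral_mul _
      (by fun_prop) (by fun_prop), ha, ofReal_integral_eq_lintegral_ofReal (hgin n)]
    · apply lintegral_congr_ae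
      filter_upwards [ae_restrict_mem measurableSet_Ioi] with τ hτ
      simp only [Pi.mul_apply]
      rw [Real.enorm_eq_ofReal (Real.exp_pos _).le, ← ENNReal.ofReal_pow (Real.exp_pos _).le,
        ← Real.exp_nat_mul, ENNReal.ofReal_mul (hg0 τ hτ)]
      congr 3
      ring
    · filter_upwards [ae_restrict_mem measurableSet_Ioi] with τ hτ
      exact mul_nonneg (hg0 τ hτ) (Real.exp_pos _).le
  obtain ⟨μ, hμf, hμae, hμ1, hμm⟩ := exists_mu ν hνae a ha0 haν
  have hmass : μ.real univ = s / 2 := by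
    have h := hμm 0
    simp only [pow_zero, integral_const, smul_eq_mul, mul_one] at h
    rw [h, ha]
    simp only [Nat.cast_zero, zero_mul, neg_zero, Real.exp_zero, mul_one]
    rw [hgint, Real.exp_log (by positivity)]
  -- F p = C0 * I1
  have hFc : ContinuousOn (F p) (Icc 0 1) := by
    have h2 : ContinuousOn (fun c : ℝ => ((p, c) : ℝ × ℝ)) (Icc 0 1) := by fun_prop
    exact (hCONT.comp h2 (fun c hc => ⟨hp, hc⟩) : _)
  have hEq : EqOn (F p) (fun c => (2 * π / s) * I1 μ c) (Icc 0 1) := by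
    apply eq_of_moments hFc (continuousOn_const.mul (cont_I1 μ hμae))
    intro n
    rw [hMOM p hp2 n]
    have e1 : ∀ c : ℝ, c ^ n * (2 * π / s * I1 μ c) = (2 * π / s) * (c ^ n * I1 μ c) := fun c => by ring
    show _ = ∫ c in (0:ℝ)..1, c ^ n * (2 * π / s * I1 μ c)
    simp_rw [e1]
    rw [intervalIntegral.integral_const_mul, mom_I1 μ hμae n, hμm (n + 2), ha, hKK _ (by positivity),
      ← hss]
    have : ∀ τ : ℝ, -(((n:ℝ) + 2) * τ) = -(((n + 2 : ℕ) : ℝ) * τ) := fun τ => by push_cast; ring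
    simp_rw [this]
    field_simp
    try ring
  have hC0 : 0 < 2 * π / s := by positivity
  have h1mem : ∀ c ∈ Ioo (0:ℝ) 1, c ∈ Icc (0:ℝ) 1 := fun c hc => ⟨hc.1.le, hc.2.le⟩
  refine ⟨?_, ?_, ?_, ?_, ?_⟩
  · have h := (convex_I1 μ hμae).smul hC0.le
    exact h.congr (fun c hc => (hEq hc).symm)
  · intro c hc
    rw [hEq hc]
    exact mul_le_mul_of_nonneg_left (low_I1 μ hμae hμ1 hc) hC0.le
  · intro c hc
    rw [hEq hc, hEq (show (0:ℝ) ∈ Icc (0:ℝ) 1 by simp)]
    have h := mul_le_mul_of_nonneg_left (low0_I1 μ hμae hc) hC0.le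
    rw [hmass] at h
    have e : 2 * π / s * (I1 μ 0 - c * (s / 2)) = 2 * π / s * I1 μ 0 - π * c := by
      field_simp
    linarith
  · intro ε hε
    have hr : (π - ε) * s / (2 * π) < μ.real univ := by
      rw [hmass, div_lt_div_iff₀ (by positivity) (by norm_num)]
      nlinarith [mul_pos hε hs0]
    obtain ⟨c, hc, h⟩ := lim0_I1 μ hμae hr
    refine ⟨c, hc, ?_⟩
    rw [hEq (h1mem c hc), hEq (show (0:ℝ) ∈ Icc (0:ℝ) 1 by simp)]
    have h2 := mul_lt_mul_of_pos_left h hC0
    have e : 2 * π / s * (I1 μ 0 - (π - ε) * s / (2 * π) * c) = 2 * π / s * I1 μ 0 - (π - ε) * c := by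
      field_simp
    linarith
  · intro ε hε
    have hr : 1 < 1 + ε * s / (2 * π) := by
      have : 0 < ε * s / (2 * π) := by positivity
      linarith
    obtain ⟨c, hc, h⟩ := lim1_I1 μ hμae hμ1 hr
    refine ⟨c, hc, ?_⟩
    rw [hEq (h1mem c hc)]
    have h2 := mul_lt_mul_of_pos_left h hC0
    have e : 2 * π / s * ((1 + ε * s / (2 * π)) * (1 - c)) = (2 * π / s + ε) * (1 - c) := by
      field_simp
    linarith

end Pool.Agent.NH65.PL.Rep
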