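import Mathlib
import Pool.Agent.NH65.PL.Stm

/-!
# Normalisation of eigenfunctions
-/

set_option autoImplicit false

noncomputable section

namespace Pool.Agent.NH65.PL.Transfer

open Real Set MeasureTheory Filter Topology
open Pool.Agent.NH65.PL

lemma hc {p : ℝ} (hp : 2 < p) : p.HolderConjugate (cq p) := by
  unfold cq
  exact Real.HolderConjugate.conjExponent (by linarith)

lemma cq_gt {p : ℝ} (hp : 2 < p) : 1 < cq p := (hc hp).symm.lt

lemma cq_mul {p : ℝ} (hp : 2 < p) : (p - 1) * (cq p - 1) = 1 := by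
  unfold cq
  have : p - 1 ≠ 0 := by
    intro h
    linarith
  field_simp
  ring

lemma cq_mul' {p : ℝ} (hp : 2 < p) : (p - 1) * cq p = p := by
  unfold cq
  have : p - 1 ≠ 0 := by
    intro h
    linarith
  field_simp

/-! ### Part 1 : `S_CIRC` -/

lemma RS_le {p c : ℝ} (hp : 2 < p) {X Y : ℝ → ℂ} (h : IsSol p c X Y) (t : ℝ) :
    |c| ≤ ‖X t‖ * ‖Y t‖ ∧ ‖X t‖ * ‖Y t‖ ≤ 1 := by
  constructor
  · rw [← h.mom t]
    calc |((starRingEnd ℂ) (X t) * Y t).im| ≤ ‖(starRingEnd ℂ) (X t) * Y t‖ :=
          Complex.abs_im_le_norm _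
      _ = ‖X t‖ * ‖Y t‖ := by rw [norm_mul, RCLike.norm_conj]
  · rw [← h.energy t]
    exact Real.young_inequality_of_nonneg (norm_nonneg _) (norm_nonneg _) (hc hp)

lemma young_eq {p a b : ℝ} (hp : 2 < p) (ha : 0 ≤ a) (hab : a * b = 1)
    (h : a ^ p / p + b ^ (cq p) / cq p = 1) : a = 1 := by
  have ha' : 0 < a := by
    rcases ha.lt_or_eq with h1 | h1
    · exact h1
    · rw [← h1] at hab; norm_num at hab
  have hb1 : b = a⁻¹ := by
    field_simp
    linarith
  by_contra hne
  have hq : 1 < cq p := cq_gt hp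
  set x := Real.log a with hx
  have hx0 : x ≠ 0 := by
    intro h0
    apply hne
    have := Real.exp_log ha'
    rw [← this, ← hx, h0, Real.exp_zero]
  have e1 : a ^ p = Real.exp (p * x) := by
    rw [rpow_def_of_pos ha', mul_comm]
  have e2 : b ^ (cq p) = Real.exp (-(cq p * x)) := by
    rw [hb1, Real.inv_rpow ha'.le, rpow_def_of_pos ha', ← Real.exp_neg]
    congr 1
    ring
  have i1 : p * x + 1 < Real.exp (p * x) := Real.add_one_lt_exp (by positivity)
  have i2 : -(cq p * x) + 1 < Real.exp (-(cq p * x)) := Real.add_one_lt_exp (by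
    apply neg_ne_zero.2
    positivity)
  have hs : 1 / p + 1 / cq p = 1 := by
    have := (hc hp).inv_add_inv_eq_one
    simpa [one_div] using this
  have hp0 : 0 < p := by linarith
  have hq0 : 0 < cq p := by linarith
  rw [e1, e2] at h
  have j1 : (p * x + 1) / p < Real.exp (p * x) / p := div_lt_div_of_pos_right i1 hp0
  have j2 : (-(cq p * x) + 1) / cq p < Real.exp (-(cq p * x)) / cq p :=
    div_lt_div_of_pos_right i2 hq0
  have k1 : (p * x + 1) / p = x + 1 / p := by field_simp
  have k2 : (-(cq p * x) + 1) / cq p = -x + 1 / cq p := by field_simp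
  rw [k1] at j1
  rw [k2] at j2
  linarith

lemma circ3 {p : ℝ} (hp : 2 < p) {X Y : ℝ → ℂ} (h : IsSol p 1 X Y) (t : ℝ) :
    ‖X t‖ = 1 ∧ Y t = Complex.I * X t ∧ ‖Y t‖ = 1 := by
  obtain ⟨h1, h2⟩ := RS_le hp h t
  have hRS : ‖X t‖ * ‖Y t‖ = 1 := by
    rw [abs_one] at h1
    exact le_antisymm h2 h1
  have hX : ‖X t‖ = 1 := young_eq hp (norm_nonneg _) hRS (h.energy t)
  have hY : ‖Y t‖ = 1 := by rw [hX, one_mul] at hRS; exact hRS
  refine ⟨hX, ?_, hY⟩
  have hm := h.mom t
  have hn : ‖(starRingEnd ℂ) (X t) * Y t‖ = 1 := by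
    rw [norm_mul, RCLike.norm_conj, hX, hY, one_mul]
  have hre : ((starRingEnd ℂ) (X t) * Y t).re = 0 := by
    have h3 := Complex.sq_norm_sub_sq_im ((starRingEnd ℂ) (X t) * Y t)
    rw [hn, hm] at h3
    have h4 : ((starRingEnd ℂ) (X t) * Y t).re ^ 2 = 0 := by
      rw [← h3]; norm_num
    exact pow_eq_zero_iff (two_ne_zero) |>.1 h4
  have heq : (starRingEnd ℂ) (X t) * Y t = Complex.I := by
    apply Complex.ext
    · rw [hre]; simp
    · rw [hm]; simp
  have h5 : X t * (starRingEnd ℂ) (X t) = 1 := by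
    rw [Complex.mul_conj, Complex.normSq_eq_norm_sq, hX]
    norm_num
  calc Y t = (X t * (starRingEnd ℂ) (X t)) * Y t := by rw [h5, one_mul]
    _ = X t * ((starRingEnd ℂ) (X t) * Y t) := by ring
    _ = Complex.I * X t := by rw [heq]; ring

theorem circ : S_CIRC := by
  intro p hp
  refine ⟨?_, ?_, ?_⟩
  · intro c X Y h
    obtain ⟨h1, h2⟩ := RS_le hp h 0
    exact h1.trans h2
  · intro c X Y h
    have hd : ∀ (f : ℝ → ℂ) (f' : ℂ) (t : ℝ), HasDerivAt f f' t →
        HasDerivAt (fun s => (starRingEnd ℂ) (f s)) ((starRingEnd ℂ) f') t := by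
      intro f f' t hf
      exact Complex.conjCLE.toContinuousLinearMap.hasFDerivAt.comp_hasDerivAt t hf
    refine ⟨?_, ?_, ?_, ?_⟩
    · intro t
      have := hd _ _ _ (h.dX t)
      simpa using this
    · intro t
      have := hd _ _ _ (h.dY t)
      simpa using this
    · intro t
      have := h.energy t
      simpa using this
    · intro t
      rw [← h.mom t]
      simp
      ring
  · intro X Y h P hP hper
    have hder : ∀ t, HasDerivAt X (Complex.I * X t) t := by
      intro t
      have h1 := h.dX t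
      obtain ⟨_, h3, h4⟩ := circ3 hp h t
      rw [h4, h3] at h1
      simpa using h1
    have hconst : ∀ t, HasDerivAt (fun s : ℝ => X s * Complex.exp (-(Complex.I * s))) 0 t := by
      intro t
      have h1 : HasDerivAt (fun s : ℝ => Complex.exp (-(Complex.I * s)))
          (Complex.exp (-(Complex.I * t)) * (-Complex.I)) t := by
        have h2 : HasDerivAt (fun s : ℂ => -(Complex.I * s)) (-Complex.I) (t : ℂ) := by
          have := ((hasDerivAt_id (t : ℂ)).const_mul Complex.I).fun_neg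
          simpa using this
        exact (h2.cexp).comp_ofReal
      have h3 := (hder t).fun_mul h1
      have h4 : Complex.I * X t * Complex.exp (-(Complex.I * (t:ℂ))) +
          X t * (Complex.exp (-(Complex.I * t)) * (-Complex.I)) = 0 := by ring
      rw [h4] at h3
      exact h3
    have hc2 : ∀ t, X t * Complex.exp (-(Complex.I * t)) = X 0 * Complex.exp (-(Complex.I * (0:ℝ))) := by
      intro t
      have hdiff : Differentiable ℝ (fun s : ℝ => X s * Complex.exp (-(Complex.I * s))) :=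
        fun s => (hconst s).differentiableAt
      exact is_const_of_deriv_eq_zero hdiff (fun s => (hconst s).deriv) t 0
    have h1 := hc2 P
    have hXP : X P = X 0 := by
      have := hper 0
      rwa [zero_add] at this
    have hX0 : X 0 ≠ 0 := by
      intro h0
      have := (circ3 hp h 0).1
      rw [h0] at this
      simp at this
    rw [hXP] at h1
    have h2 := mul_left_cancel₀ hX0 h1
    simp only [Complex.ofReal_zero, mul_zero, neg_zero, Complex.exp_zero] at h2
    rw [Complex.exp_eq_one_iff] at h2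
    obtain ⟨n, hn⟩ := h2
    have h3 : P = 2 * π * (-n : ℤ) := by
      have h4 : -(Complex.I * (P:ℂ)) = Complex.I * ((n:ℂ) * (2 * π)) := by
        rw [hn]; ring
      have h5 : Complex.I * (-(P:ℂ)) = Complex.I * ((n:ℂ) * (2 * π)) := by
        rw [← h4]; ring
      have h6 := mul_left_cancel₀ Complex.I_ne_zero h5
      have h7 : ((-P : ℝ) : ℂ) = (((n:ℝ) * (2 * π) : ℝ) : ℂ) := by
        push_cast
        exact h6
      have h8 := Complex.ofReal_injective h7
      push_cast
      linarith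
    have h4 : 0 < (-n : ℤ) := by
      have h5 : (0:ℝ) < ((-n : ℤ) : ℝ) := by
        by_contra hcon
        push Not at hcon
        have : 2 * π * ((-n : ℤ) : ℝ) ≤ 0 := mul_nonpos_of_nonneg_of_nonpos (by positivity) hcon
        linarith
      exact_mod_cast h5
    refine ⟨(-n).toNat, by omega, ?_⟩
    rw [h3]
    congr 1
    have : (((-n).toNat : ℤ) : ℝ) = ((-n : ℤ) : ℝ) := by
      rw [Int.toNat_of_nonneg h4.le]
    exact_mod_cast this.symm

/-! ### Part 2 : complex form -/

/-- `‖z‖^{p-2} z` on the complex plane -/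
def phC (p : ℝ) (z : ℂ) : ℂ := ((‖z‖ ^ (p - 2) : ℝ) : ℂ) * z

lemma phC_zero (p : ℝ) : phC p 0 = 0 := by simp [phC]

lemma norm_phC {p : ℝ} (hp : 1 < p) (z : ℂ) : ‖phC p z‖ = ‖z‖ ^ (p - 1) := by
  unfold phC
  rw [norm_mul, Complex.norm_real, Real.norm_of_nonneg (rpow_nonneg (norm_nonneg _) _)]
  rcases eq_or_ne z 0 with h | h
  · subst h
    rw [norm_zero, mul_zero, zero_rpow (by intro h0; linarith)]
  · have hz : 0 < ‖z‖ := norm_pos_iff.2 h
    have : p - 1 = (p - 2) + 1 := by ring
    rw [this, rpow_add hz, rpow_one]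

lemma phC_smul (p : ℝ) {a : ℝ} (ha : 0 < a) (z : ℂ) :
    phC p ((a : ℂ) * z) = ((a ^ (p - 1) : ℝ) : ℂ) * phC p z := by
  unfold phC
  rw [norm_mul, Complex.norm_real, Real.norm_of_nonneg ha.le, mul_rpow ha.le (norm_nonneg _)]
  have h1 : a ^ (p - 1) = a ^ (p - 2) * a := by
    have : p - 1 = (p - 2) + 1 := by ring
    rw [this, rpow_add ha, rpow_one]
  rw [h1]
  push_cast
  ring

lemma phC_phC {p r : ℝ} (hp : 1 < p) (hpr : (p - 1) * (r - 1) = 1) (z : ℂ) :
    phC r (phC p z) = z := by
  rcases eq_or_ne z 0 with h | h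
  · subst h
    rw [phC_zero, phC_zero]
  · have hz : 0 < ‖z‖ := norm_pos_iff.2 h
    have h1 : phC r (phC p z) = ((‖phC p z‖ ^ (r - 2) : ℝ) : ℂ) * phC p z := rfl
    rw [h1, norm_phC hp]
    unfold phC
    rw [← mul_assoc, ← Complex.ofReal_mul, ← rpow_mul hz.le, ← rpow_add hz]
    have h2 : (p - 1) * (r - 2) + (p - 2) = 0 := by linarith
    rw [h2, rpow_zero]
    simp

lemma phC_inv1 {p : ℝ} (hp : 2 < p) (z : ℂ) : phC (cq p) (phC p z) = z :=
  phC_phC (by linarith) (cq_mul hp) z

lemma phC_inv2 {p : ℝ} (hp : 2 < p) (z : ℂ) : phC p (phC (cq p) z) = z :=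
  phC_phC (cq_gt hp) (by rw [mul_comm]; exact cq_mul hp) z

lemma phC_cont {p : ℝ} (hp : 1 < p) : Continuous (phC p) := by
  rw [continuous_iff_continuousAt]
  intro z
  rcases eq_or_ne z 0 with h | h
  · subst h
    unfold ContinuousAt
    rw [phC_zero, tendsto_zero_iff_norm_tendsto_zero]
    simp only [norm_phC hp]
    have h1 : Tendsto (fun z : ℂ => ‖z‖ ^ (p - 1)) (𝓝 0) (𝓝 (‖(0:ℂ)‖ ^ (p - 1))) := by
      apply (continuous_norm.tendsto (0:ℂ)).rpow_const
      right
      linarith
    rwa [norm_zero, zero_rpow (by intro h0; linarith)] at h1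
  · unfold phC
    apply ContinuousAt.mul _ continuousAt_id
    apply Complex.continuous_ofReal.continuousAt.comp
    apply ContinuousAt.rpow_const continuous_norm.continuousAt
    left
    exact norm_ne_zero_iff.2 h

/-- derivative of `‖x‖^p/p` along a curve -/
lemma deriv_pow {p : ℝ} (hp : 1 < p) {x : ℝ → ℂ} {x' : ℂ} {t : ℝ} (h : HasDerivAt x x' t) :
    HasDerivAt (fun s => ‖x s‖ ^ p / p) (‖x t‖ ^ (p - 2) * ((starRingEnd ℂ) (x t) * x').re) t := by
  have h1 := (hasFDerivAt_norm_rpow (x t) hp).comp_hasDerivAt t h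
  have h2 := h1.div_const p
  have hp0 : p ≠ 0 := by linarith
  refine h2.congr_deriv ?_
  have h3 : ((p * ‖x t‖ ^ (p - 2)) • (innerSL ℝ) (x t)) x' =
      (p * ‖x t‖ ^ (p - 2)) * ((starRingEnd ℂ) (x t) * x').re := by
    have h4 : ((p * ‖x t‖ ^ (p - 2)) • (innerSL ℝ) (x t)) x' =
      (p * ‖x t‖ ^ (p - 2)) * (inner ℝ (x t) x') := rfl
    rw [h4, Complex.inner]
    congr 1
    simp only [Complex.mul_re, Complex.conj_re, Complex.conj_im]
    ring
  rw [h3]
  field_simp

lemma core_energy {p L : ℝ} (hp : 2 < p) {x y : ℝ → ℂ}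
    (hx : ∀ t, HasDerivAt x (phC (cq p) (y t)) t)
    (hy : ∀ t, HasDerivAt y (-((L : ℂ) * phC p (x t))) t) (t s : ℝ) :
    L * (‖x t‖ ^ p / p) + ‖y t‖ ^ (cq p) / cq p = L * (‖x s‖ ^ p / p) + ‖y s‖ ^ (cq p) / cq p := by
  have hd : ∀ t, HasDerivAt (fun s => L * (‖x s‖ ^ p / p) + ‖y s‖ ^ (cq p) / cq p) 0 t := by
    intro t
    have h1 := (deriv_pow (by linarith : 1 < p) (hx t)).const_mul L
    have h2 := deriv_pow (cq_gt hp) (hy t)
    have h3 := h1.add h2
    refine h3.congr_deriv ?_
    unfold phC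
    simp only [Complex.mul_re, Complex.mul_im, Complex.conj_re, Complex.conj_im, Complex.neg_re,
      Complex.neg_im, Complex.ofReal_re, Complex.ofReal_im]
    ring
  have hdiff : Differentiable ℝ (fun s => L * (‖x s‖ ^ p / p) + ‖y s‖ ^ (cq p) / cq p) :=
    fun s => (hd s).differentiableAt
  exact is_const_of_deriv_eq_zero hdiff (fun s => (hd s).deriv) t s

lemma core_mom {p L : ℝ} {x y : ℝ → ℂ}
    (hx : ∀ t, HasDerivAt x (phC (cq p) (y t)) t)
    (hy : ∀ t, HasDerivAt y (-((L : ℂ) * phC p (x t))) t) (t s : ℝ) :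
    ((starRingEnd ℂ) (x t) * y t).im = ((starRingEnd ℂ) (x s) * y s).im := by
  have hd : ∀ t, HasDerivAt (fun s => ((starRingEnd ℂ) (x s) * y s).im) 0 t := by
    intro t
    have h1 : HasDerivAt (fun s => (starRingEnd ℂ) (x s)) ((starRingEnd ℂ) (phC (cq p) (y t))) t :=
      Complex.conjCLE.toContinuousLinearMap.hasFDerivAt.comp_hasDerivAt t (hx t)
    have h2 := h1.fun_mul (hy t)
    have h3 : HasDerivAt (fun s => ((starRingEnd ℂ) (x s) * y s).im)
        ((starRingEnd ℂ) (phC (cq p) (y t)) * y t +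
          (starRingEnd ℂ) (x t) * -((L : ℂ) * phC p (x t))).im t :=
      Complex.imCLM.hasFDerivAt.comp_hasDerivAt t h2
    refine h3.congr_deriv ?_
    unfold phC
    simp only [Complex.mul_re, Complex.mul_im, Complex.conj_re, Complex.conj_im, Complex.neg_re,
      Complex.neg_im, Complex.ofReal_re, Complex.ofReal_im, Complex.add_im, map_mul,
      Complex.conj_ofReal]
    ring
  have hdiff : Differentiable ℝ (fun s => ((starRingEnd ℂ) (x s) * y s).im) :=
    fun s => (hd s).differentiableAt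
  exact is_const_of_deriv_eq_zero hdiff (fun s => (hd s).deriv) t s

/-- the identification of the plane with the complex numbers -/
def e : E2 ≃ₗᵢ[ℝ] ℂ := Complex.orthonormalBasisOneI.repr.symm

lemma e_apply (z : E2) : e z = (z 0 : ℂ) + (z 1 : ℂ) * Complex.I := by
  unfold e
  rw [Complex.orthonormalBasisOneI_repr_symm_apply]

lemma e_phi (p : ℝ) (z : E2) : e (phi p z) = phC p (e z) := by
  unfold phi phC
  rw [map_smul, LinearIsometryEquiv.norm_map, Complex.real_smul]

lemma e_mom (z w : E2) : z 0 * w 1 - z 1 * w 0 = ((starRingEnd ℂ) (e z) * e w).im := by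
  rw [e_apply, e_apply]
  simp
  ring

lemma e_deriv {f : ℝ → E2} {f' : E2} {t : ℝ} (h : HasDerivAt f f' t) :
    HasDerivAt (fun s => e (f s)) (e f') t :=
  e.toContinuousLinearEquiv.toContinuousLinearMap.hasFDerivAt.comp_hasDerivAt t h

lemma es_deriv {f : ℝ → ℂ} {f' : ℂ} {t : ℝ} (h : HasDerivAt f f' t) :
    HasDerivAt (fun s => e.symm (f s)) (e.symm f') t :=
  e.symm.toContinuousLinearEquiv.toContinuousLinearMap.hasFDerivAt.comp_hasDerivAt t h

theorem tr1 : S_TR1 := by
  intro p lam x hp hlam hE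
  have hq : 1 < cq p := cq_gt hp
  have hp0 : 0 < p := by linarith
  have hq0 : 0 < cq p := by linarith
  set xc : ℝ → ℂ := fun t => e (x t) with hxc
  set yc : ℝ → ℂ := fun t => e (phi p (deriv x t)) with hyc
  have hx : ∀ t, HasDerivAt xc (phC (cq p) (yc t)) t := by
    intro t
    have h1 : HasDerivAt x (deriv x t) t :=
      ((hE.smooth.differentiable (by norm_num)) t).hasDerivAt
    have h2 := e_deriv h1
    have h3 : phC (cq p) (yc t) = e (deriv x t) := by
      rw [hyc]
      simp only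
      rw [e_phi, phC_inv1 hp]
    rw [h3]
    exact h2
  have hy : ∀ t, HasDerivAt yc (-(((lam ^ p : ℝ) : ℂ) * phC p (xc t))) t := by
    intro t
    have h1 : HasDerivAt (fun s => phi p (deriv x s)) (deriv (fun s => phi p (deriv x s)) t) t :=
      ((hE.smooth'.differentiable (by norm_num)) t).hasDerivAt
    have h2 := e_deriv h1
    have h3 : deriv (fun s => phi p (deriv x s)) t = -(lam ^ p • phi p (x t)) := by
      have := hE.eq t
      exact eq_neg_of_add_eq_zero_left this
    rw [h3] at h2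
    convert h2 using 1
    rw [map_neg, map_smul, e_phi, Complex.real_smul]
  have hL : 0 < lam ^ p := rpow_pos_of_pos hlam p
  have hen : ∀ t, energy p lam x t = lam ^ p * (‖xc t‖ ^ p / p) + ‖yc t‖ ^ (cq p) / cq p := by
    intro t
    unfold energy
    rw [hxc, hyc]
    simp only [LinearIsometryEquiv.norm_map]
    rw [mul_div_assoc]
  set h := energy p lam x 0 with hh
  have hent : ∀ t, energy p lam x t = h := by
    intro t
    rw [hh, hen t, hen 0]
    exact core_energy hp hx hy t 0
  have hpos : 0 < h := by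
    obtain ⟨t, ht⟩ := hE.nonzero
    rw [← hent t, hen t]
    have h1 : 0 < ‖xc t‖ := by
      rw [hxc]
      simp only [LinearIsometryEquiv.norm_map]
      exact norm_pos_iff.2 ht
    have h2 : 0 < ‖xc t‖ ^ p := rpow_pos_of_pos h1 p
    have h3 : 0 ≤ ‖yc t‖ ^ (cq p) := rpow_nonneg (norm_nonneg _) _
    positivity
  set mu := ((starRingEnd ℂ) (xc 0) * yc 0).im with hmu
  have hmut : ∀ t, angMom p x t = mu := by
    intro t
    unfold angMom
    rw [e_mom, hmu]
    exact core_mom hx hy t 0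
  set a : ℝ := h⁻¹ ^ p⁻¹ with ha
  have hapos : 0 < a := rpow_pos_of_pos (inv_pos.2 hpos) _
  have hap : a ^ p = h⁻¹ := by
    rw [ha, ← rpow_mul (inv_pos.2 hpos).le, inv_mul_cancel₀ hp0.ne', rpow_one]
  have hap1 : 0 < a ^ (p - 1) := rpow_pos_of_pos hapos _
  have hapq : (a ^ (p - 1)) ^ (cq p) = a ^ p := by
    rw [← rpow_mul hapos.le, cq_mul' hp]
  have hapq1 : (a ^ (p - 1)) ^ (cq p - 1) = a := by
    rw [← rpow_mul hapos.le, cq_mul hp, rpow_one]
  have haa : a * a ^ (p - 1) = a ^ p := by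
    rw [mul_comm, ← rpow_add_one hapos.ne']
    congr 1
    ring
  have hscale : ∀ t : ℝ, HasDerivAt (fun s : ℝ => s / lam) (1 / lam) t := by
    intro t
    exact (hasDerivAt_id t).div_const lam
  refine ⟨lam * mu / h, fun t => ((a * lam : ℝ) : ℂ) * xc (t / lam),
    fun t => ((a ^ (p - 1) : ℝ) : ℂ) * yc (t / lam), ⟨?_, ?_, ?_, ?_⟩, ?_, ?_⟩
  · intro t
    have h1 : HasDerivAt (fun s => xc (s / lam)) ((1 / lam : ℝ) • phC (cq p) (yc (t / lam))) t :=
      HasDerivAt.scomp (g₁ := xc) (h := fun s : ℝ => s / lam) t (hx (t / lam)) (hscale t)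
    have h2 := h1.const_mul ((a * lam : ℝ) : ℂ)
    have h3 : ((a * lam : ℝ) : ℂ) * ((1 / lam : ℝ) • phC (cq p) (yc (t / lam))) =
        phC (cq p) (((a ^ (p - 1) : ℝ) : ℂ) * yc (t / lam)) := by
      rw [phC_smul _ hap1, hapq1, Complex.real_smul, ← mul_assoc, ← Complex.ofReal_mul]
      congr 2
      field_simp
    rw [h3] at h2
    exact h2
  · intro t
    have h1 : HasDerivAt (fun s => yc (s / lam))
        ((1 / lam : ℝ) • (-(((lam ^ p : ℝ) : ℂ) * phC p (xc (t / lam))))) t :=
      HasDerivAt.scomp (g₁ := yc) (h := fun s : ℝ => s / lam) t (hy (t / lam)) (hscale t)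
    have h2 := h1.const_mul ((a ^ (p - 1) : ℝ) : ℂ)
    have h3 : ((a ^ (p - 1) : ℝ) : ℂ) *
        ((1 / lam : ℝ) • (-(((lam ^ p : ℝ) : ℂ) * phC p (xc (t / lam))))) =
        -phC p (((a * lam : ℝ) : ℂ) * xc (t / lam)) := by
      rw [phC_smul _ (mul_pos hapos hlam), Complex.real_smul, mul_rpow hapos.le hlam.le]
      have h4 : lam ^ p = lam ^ (p - 1) * lam := by
        rw [← rpow_add_one hlam.ne']
        congr 1
        ring
      rw [h4]
      have h5 : (lam : ℂ) ≠ 0 := by exact_mod_cast hlam.ne'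
      push_cast
      field_simp
    rw [h3] at h2
    exact h2
  · intro t
    simp only [norm_mul, Complex.norm_real, Real.norm_of_nonneg (mul_pos hapos hlam).le,
      Real.norm_of_nonneg hap1.le]
    rw [mul_rpow (mul_pos hapos hlam).le (norm_nonneg _), mul_rpow hap1.le (norm_nonneg _), hapq,
      mul_rpow hapos.le hlam.le]
    have h1 := hent (t / lam)
    rw [hen] at h1
    calc a ^ p * lam ^ p * ‖xc (t / lam)‖ ^ p / p + a ^ p * ‖yc (t / lam)‖ ^ cq p / cq p
        = a ^ p * (lam ^ p * (‖xc (t / lam)‖ ^ p / p) + ‖yc (t / lam)‖ ^ (cq p) / cq p) := by ring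
      _ = 1 := by rw [h1, hap, inv_mul_cancel₀ hpos.ne']
  · intro t
    have h1 := hmut (t / lam)
    unfold angMom at h1
    rw [e_mom] at h1
    have h2 : ((starRingEnd ℂ) (((a * lam : ℝ) : ℂ) * xc (t / lam)) *
        (((a ^ (p - 1) : ℝ) : ℂ) * yc (t / lam))) =
        ((a * lam * a ^ (p - 1) : ℝ) : ℂ) * ((starRingEnd ℂ) (xc (t / lam)) * yc (t / lam)) := by
      rw [map_mul, Complex.conj_ofReal]
      push_cast
      ring
    rw [h2, Complex.im_ofReal_mul]
    have h3 : ((starRingEnd ℂ) (xc (t / lam)) * yc (t / lam)).im = mu := h1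
    rw [h3]
    have h4 : a * lam * a ^ (p - 1) = lam * h⁻¹ := by
      rw [← hap, ← haa]; ring
    rw [h4]
    ring
  · intro t
    have h1 : (t + lam) / lam = t / lam + 1 := by field_simp
    simp only [h1]
    have h2 : xc (t / lam + 1) = xc (t / lam) := by
      rw [hxc]
      simp only
      rw [hE.periodic]
    rw [h2]
  · intro t
    unfold scalMom
    rw [hmut, hent, abs_div, abs_mul, abs_of_pos hlam, abs_of_pos hpos]
    ring

lemma es_phi (p : ℝ) (z : ℂ) : phi p (e.symm z) = e.symm (phC p z) := by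
  apply e.injective
  rw [e_phi, LinearIsometryEquiv.apply_symm_apply, LinearIsometryEquiv.apply_symm_apply]

theorem tr2 : S_TR2 := by
  intro p lam c X Y hp hlam h hper
  have hq : 1 < cq p := cq_gt hp
  have hp0 : 0 < p := by linarith
  have hq0 : 0 < cq p := by linarith
  have hX : ∀ t, HasDerivAt X (phC (cq p) (Y t)) t := h.dX
  have hY : ∀ t, HasDerivAt Y (-phC p (X t)) t := h.dY
  set x : ℝ → E2 := fun t => e.symm (((lam⁻¹ : ℝ) : ℂ) * X (lam * t)) with hx
  have hscale : ∀ t : ℝ, HasDerivAt (fun s : ℝ => lam * s) lam t := by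
    intro t
    simpa using (hasDerivAt_id t).const_mul lam
  have hxd : ∀ t, HasDerivAt x (e.symm (phC (cq p) (Y (lam * t)))) t := by
    intro t
    have h1 : HasDerivAt (fun s => X (lam * s)) ((lam : ℝ) • phC (cq p) (Y (lam * t))) t :=
      HasDerivAt.scomp (g₁ := X) (h := fun s : ℝ => lam * s) t (hX (lam * t)) (hscale t)
    have h2 := h1.const_mul ((lam⁻¹ : ℝ) : ℂ)
    have h3 : ((lam⁻¹ : ℝ) : ℂ) * ((lam : ℝ) • phC (cq p) (Y (lam * t))) =
        phC (cq p) (Y (lam * t)) := by
      rw [Complex.real_smul, ← mul_assoc, ← Complex.ofReal_mul, inv_mul_cancel₀ hlam.ne']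
      simp
    rw [h3] at h2
    exact es_deriv h2
  have hxd' : ∀ t, deriv x t = e.symm (phC (cq p) (Y (lam * t))) := fun t => (hxd t).deriv
  have hyf : ∀ t, phi p (deriv x t) = e.symm (Y (lam * t)) := by
    intro t
    rw [hxd', es_phi, phC_inv2 hp]
  have hyfun : (fun t => phi p (deriv x t)) = fun t => e.symm (Y (lam * t)) := funext hyf
  have hyd : ∀ t, HasDerivAt (fun t => e.symm (Y (lam * t)))
      (e.symm ((lam : ℂ) * (-phC p (X (lam * t))))) t := by
    intro t
    have h1 : HasDerivAt (fun s => Y (lam * s)) ((lam : ℝ) • (-phC p (X (lam * t)))) t :=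
      HasDerivAt.scomp (g₁ := Y) (h := fun s : ℝ => lam * s) t (hY (lam * t)) (hscale t)
    rw [Complex.real_smul] at h1
    exact es_deriv h1
  have hXc : Continuous X := continuous_iff_continuousAt.2 fun t => (hX t).continuousAt
  have hYc : Continuous Y := continuous_iff_continuousAt.2 fun t => (hY t).continuousAt
  have hlin : Continuous (fun t : ℝ => lam * t) := by fun_prop
  have hnx : ∀ t, ‖x t‖ = lam⁻¹ * ‖X (lam * t)‖ := by
    intro t
    rw [hx]
    simp only [LinearIsometryEquiv.norm_map, norm_mul, Complex.norm_real]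
    rw [Real.norm_of_nonneg (inv_pos.2 hlam).le]
  have hen : ∀ t, energy p lam x t = 1 := by
    intro t
    unfold energy
    rw [hyf, hnx, LinearIsometryEquiv.norm_map, mul_rpow (inv_pos.2 hlam).le (norm_nonneg _),
      inv_rpow hlam.le, ← mul_assoc, mul_inv_cancel₀ (rpow_pos_of_pos hlam p).ne', one_mul]
    exact h.energy (lam * t)
  refine ⟨x, ⟨?_, ?_, ?_, ?_, ?_⟩, ?_⟩
  · by_contra hcon
    push Not at hcon
    have hX0 : ∀ t, X t = 0 := by
      intro t
      have h1 := hnx (t / lam)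
      rw [hcon, norm_zero] at h1
      have h2 : lam * (t / lam) = t := by field_simp
      rw [h2] at h1
      have h3 : ‖X t‖ = 0 := by
        rcases mul_eq_zero.1 h1.symm with h4 | h4
        · exact absurd h4 (inv_pos.2 hlam).ne'
        · exact h4
      exact norm_eq_zero.1 h3
    have hY0 : Y 0 = 0 := by
      have h1 : X = fun _ => (0:ℂ) := funext hX0
      have h2 := hX 0
      rw [h1] at h2
      have h3 := h2.unique (hasDerivAt_const (0:ℝ) (0:ℂ))
      rw [← phC_inv2 hp (Y 0), h3, phC_zero]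
    have h1 := h.energy 0
    rw [hX0, hY0, norm_zero, zero_rpow hp0.ne', zero_rpow hq0.ne'] at h1
    norm_num at h1
  · intro t
    rw [hx]
    simp only
    congr 2
    have : lam * (t + 1) = lam * t + lam := by ring
    rw [this, hper]
  · rw [contDiff_one_iff_deriv]
    refine ⟨fun t => (hxd t).differentiableAt, ?_⟩
    have : deriv x = fun t => e.symm (phC (cq p) (Y (lam * t))) := funext hxd'
    rw [this]
    exact e.symm.continuous.comp ((phC_cont hq).comp (hYc.comp hlin))
  · rw [hyfun, contDiff_one_iff_deriv]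
    refine ⟨fun t => (hyd t).differentiableAt, ?_⟩
    have : deriv (fun t => e.symm (Y (lam * t))) =
        fun t => e.symm ((lam : ℂ) * (-phC p (X (lam * t)))) := funext fun t => (hyd t).deriv
    rw [this]
    apply e.symm.continuous.comp
    apply Continuous.mul continuous_const
    exact ((phC_cont (by linarith)).comp (hXc.comp hlin)).neg
  · intro t
    rw [hyfun, (hyd t).deriv]
    have h1 : phi p (x t) = e.symm (((lam⁻¹ ^ (p - 1) : ℝ) : ℂ) * phC p (X (lam * t))) := by
      rw [hx]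
      simp only
      rw [es_phi, phC_smul _ (inv_pos.2 hlam)]
    rw [h1, ← map_smul, ← map_add, Complex.real_smul]
    have h2 : (lam : ℂ) * -phC p (X (lam * t)) +
        ((lam ^ p : ℝ) : ℂ) * (((lam⁻¹ ^ (p - 1) : ℝ) : ℂ) * phC p (X (lam * t))) = 0 := by
      have h3 : lam ^ p * lam⁻¹ ^ (p - 1) = lam := by
        rw [inv_rpow hlam.le]
        have h4 : lam ^ p = lam * lam ^ (p - 1) := by
          rw [mul_comm, ← rpow_add_one hlam.ne']
          congr 1
          ring
        rw [h4, mul_assoc, mul_inv_cancel₀ (rpow_pos_of_pos hlam _).ne', mul_one]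
      rw [← mul_assoc, ← Complex.ofReal_mul, h3]
      ring
    rw [h2, map_zero]
  · intro t
    unfold scalMom
    rw [hen]
    unfold angMom
    rw [e_mom, hyf, hx]
    simp only [LinearIsometryEquiv.apply_symm_apply]
    rw [map_mul, Complex.conj_ofReal, mul_assoc, Complex.im_ofReal_mul, h.mom, abs_mul, abs_inv,
      abs_of_pos hlam]
    field_simp

end Pool.Agent.NH65.PL.Transfer
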